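import Mathlib

/-!
# The Boolean-valued form of the theorem (interface between the forcing part and the model part)

`B` is a complete Boolean algebra, names of natural numbers are partitions of unity `z : ℕ → B`
(`z v` is the value of `z = v`), names of sets of natural numbers are functions `ℕ → B`.
-/

set_option autoImplicit false
set_option linter.unusedSectionVars false

namespace PSI

variable {B : Type} [CompleteBooleanAlgebra B]

/-- `z` is a name of a natural number: `z v` is the Boolean value of `z = v` -/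
structure Part (z : ℕ → B) : Prop where
  top : (⨆ v, z v) = ⊤
  disj : ∀ v w, v ≠ w → z v ⊓ z w = ⊥

/-- the Boolean value of: `x` is in the finite set `S`, or there are `y ∈ S` and a common element `k` of
`A x` and `A y` with `k ≥ f n x, f n y` -/
noncomputable def caught {K : Type} (A : K → ℕ → B) (f : K → ℕ → ℕ → B) (n : ℕ) (S : Finset K)
    (x : K) : B :=
  (⨆ _ : x ∈ S, ⊤) ⊔ ⨆ y ∈ S, ⨆ k, A x k ⊓ A y k ⊓ (⨆ v, ⨆ _ : v ≤ k, f x n v) ⊓
    (⨆ v, ⨆ _ : v ≤ k, f y n v)

/-- the properties of the Boolean algebra: `A x` (`x ∈ K`) is an almost disjoint family, `c β`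
(`β ∈ Ω`) a dominating family, and (`catching`) for every name `f` of a function from `K × ℕ` to `ℕ` there is a
name `F` of a sequence of finite subsets of `K` (`F n S` is the value of `F n = S`) such that every
`x` is caught at some `n` -/
structure IsPsiAlg (B : Type) [CompleteBooleanAlgebra B] (K Ω : Type) (A : K → ℕ → B)
    (c : Ω → ℕ → ℕ → B) (π : K → Ω) : Prop where
  part_c : ∀ β n, Part (c β n)
  dom : ∀ z : ℕ → ℕ → B, (∀ n, Part (z n)) →
    (⨆ β, ⨆ m, ⨅ n, ⨅ _ : m ≤ n, ⨆ v, ⨆ w, ⨆ _ : v ≤ w, z n v ⊓ c β n w) = ⊤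
  surj : Function.Surjective π
  inf : ∀ x m, (⨆ k, ⨆ _ : m ≤ k, A x k) = ⊤
  ad : ∀ x y, x ≠ y → (⨆ m, ⨅ k, ⨅ _ : m ≤ k, (A x k ⊓ A y k)ᶜ) = ⊤
  catching : ∀ f : K → ℕ → ℕ → B, (∀ x n, Part (f x n)) → ∃ F : ℕ → Finset K → B,
    (∀ n, (⨆ S, F n S) = ⊤) ∧ (∀ n S S', S ≠ S' → F n S ⊓ F n S' = ⊥) ∧
    ∀ x, (⨆ n, ⨆ S, F n S ⊓ caught A f n S x) = ⊤

end PSI
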