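import Pool.Agent.H74.PSI.Cut

/-!
# AMAL: amalgamation (Lemma 2)
-/

set_option autoImplicit false
set_option linter.unusedSectionVars false

namespace PSI

variable {K Ω : Type} [LinearOrder Ω] [WellFoundedLT Ω] {G : PD K Ω}

open Classical in
/-- the stem of the amalgamation -/
noncomputable def amalS (G : PD K Ω) (β : WithTop Ω) (p q : Stem K Ω) : Stem K Ω where
  c γ := if ((γ : Ω) : WithTop Ω) < β then q.c γ else p.c γ
  m := q.m
  a := q.a
  A := q.A
  s := q.s
  f := q.f
  D := p.D ∪ q.D.filter fun e => ∀ x y, s(x, y) = e → LowPair G β x y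

theorem amal_mem_D (β : WithTop Ω) (p q : Stem K Ω) (x y : K) : s(x, y) ∈ (amalS G β p q).D ↔
    s(x, y) ∈ p.D ∨ s(x, y) ∈ q.D ∧ LowPair G β x y := by
  classical
  unfold amalS
  simp only [Finset.mem_union, Finset.mem_filter]
  refine or_congr Iff.rfl (and_congr Iff.rfl ?_)
  constructor
  · exact fun h => h x y rfl
  · intro h x' y' he
    rcases Sym2.eq_iff.1 he with ⟨rfl, rfl⟩ | ⟨rfl, rfl⟩
    · exact h
    · exact ⟨h.2, h.1⟩

/-- the amalgamation -/
noncomputable def amalC (G : PD K Ω) (β : WithTop Ω) (p q : Cond K Ω) : Cond K Ω :=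
  mkc (amalS G β p.st q.st) (q.prom ∪ p.prom) (q.prom_finite.union p.prom_finite)

theorem amal_agr (β : WithTop Ω) (p q : Cond K Ω) : Agr G β q (amalC G β p q) where
  m := rfl
  a := rfl
  A := rfl
  s := rfl
  f := rfl
  c γ hγ := by
    show (if ((γ : Ω) : WithTop Ω) < β then q.st.c γ else p.st.c γ) = q.st.c γ
    rw [if_pos hγ]
  D x y hxy hl := (amal_mem_D β p.st q.st x y).2 (Or.inr ⟨hxy, hl⟩)
  prom r hr _ := by
    show r ∈ (mkc _ (q.prom ∪ p.prom) _).prom
    rw [mkc_prom]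
    exact Or.inl hr

theorem amal_sle {β : WithTop Ω} {p q : Cond K Ω} (hle : SLe q.st (cutS β p.st)) :
    SLe (amalS G β p.st q.st) p.st where
  c γ := by
    show p.st.c γ <+: (if ((γ : Ω) : WithTop Ω) < β then q.st.c γ else p.st.c γ)
    have h1 := hle.c γ
    by_cases hγ : ((γ : Ω) : WithTop Ω) < β
    · rw [if_pos hγ]
      have h2 : (cutS β p.st).c γ = p.st.c γ := if_pos hγ
      rwa [h2] at h1
    · rw [if_neg hγ]
  m := hle.m
  a := hle.a
  A := hle.A
  s := hle.s
  sf := hle.sf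
  f := hle.f
  D := by
    classical
    exact Finset.subset_union_left
  fr := hle.fr

theorem amal_ps {β β' : WithTop Ω} (h : β ≤ β') {p q : Cond K Ω} (hp : Ps G β' p) (hq : Ps G β q)
    (hle : SLe q.st (cutS β p.st)) : Ps G β' (amalC G β p q) := by
  refine ⟨⟨?_, ?_, hq.st.A, hq.st.out, ?_, ?_⟩, ?_⟩
  · refine (hq.st.fin.union hp.st.fin).subset ?_
    intro γ hγ
    have hγ' : (if ((γ : Ω) : WithTop Ω) < β then q.st.c γ else p.st.c γ) ≠ [] := hγ
    by_cases h1 : ((γ : Ω) : WithTop Ω) < β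
    · rw [if_pos h1] at hγ'
      exact Or.inl hγ'
    · rw [if_neg h1] at hγ'
      exact Or.inr hγ'
  · intro γ hγ
    have hγ' : (if ((γ : Ω) : WithTop Ω) < β then q.st.c γ else p.st.c γ) ≠ [] := hγ
    by_cases h1 : ((γ : Ω) : WithTop Ω) < β
    · exact h1.trans_le h
    · rw [if_neg h1] at hγ'
      exact hp.st.low γ hγ'
  · intro x y hxy
    rcases (amal_mem_D β p.st q.st x y).1 hxy with h1 | h1
    · obtain ⟨h2, h3, h4⟩ := hp.st.D x y h1
      exact ⟨h2, hle.a h3, hle.a h4⟩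
    · exact hq.st.D x y h1.1
  · intro x y hxy hcd
    rcases (amal_mem_D β p.st q.st x y).1 hxy with h1 | h1
    · obtain ⟨hne, hxa, hya⟩ := hp.st.D x y h1
      obtain ⟨k, hkx, hky, hk0, hs, hf, hc⟩ := hp.st.T x y h1 hcd
      have hkm : k < p.st.m := Finset.mem_range.1 (hp.st.A x hkx)
      have hsy : p.st.s y <+: q.st.s y := hle.s y hya
      refine ⟨k, (hle.A x hxa k hkm).2 hkx, (hle.A y hya k hkm).2 hky, hk0, ?_, ?_, ?_⟩
      · intro i hi
        show G.g x y i ≤ (q.st.s y).getD i 0 + k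
        by_cases hi2 : i < (p.st.s y).length
        · rw [getD_of_prefix hsy hi2]
          exact hs i hi2
        · have h5 : p.st.f y i ≤ (q.st.s y).getD i 0 := hle.sf y hya i (not_lt.1 hi2) hi
          have h6 := hf i (not_lt.1 hi2)
          omega
      · intro i hi
        have h5 : (p.st.s y).length ≤ i := hsy.length_le.trans hi
        exact (hf i h5).trans (hle.f y hya i)
      · intro hdl
        have h5 := hc hdl
        show G.nu x y < (if ((G.dl x y : Ω) : WithTop Ω) < β then q.st.c (G.dl x y) else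
          p.st.c (G.dl x y)).length ∧ (if ((G.dl x y : Ω) : WithTop Ω) < β then q.st.c (G.dl x y) else
          p.st.c (G.dl x y)).getD (G.nu x y) 0 < k
        by_cases h6 : ((G.dl x y : Ω) : WithTop Ω) < β
        · rw [if_pos h6]
          have h7 := hle.c (G.dl x y)
          have h8 : (cutS β p.st).c (G.dl x y) = p.st.c (G.dl x y) := if_pos h6
          rw [h8] at h7
          refine ⟨h5.1.trans_le h7.length_le, ?_⟩
          rw [getD_of_prefix h7 h5.1]
          exact h5.2
        · rw [if_neg h6]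
          exact h5
    · obtain ⟨h1, hlow⟩ := h1
      obtain ⟨k, hkx, hky, hk0, hs, hf, hc⟩ := hq.st.T x y h1 hcd
      refine ⟨k, hkx, hky, hk0, hs, hf, fun _ => ?_⟩
      have h6 := hlow.1 hcd
      show G.nu x y < (if ((G.dl x y : Ω) : WithTop Ω) < β then q.st.c (G.dl x y) else
          p.st.c (G.dl x y)).length ∧ (if ((G.dl x y : Ω) : WithTop Ω) < β then q.st.c (G.dl x y) else
          p.st.c (G.dl x y)).getD (G.nu x y) 0 < k
      rw [if_pos h6]
      exact hc h6
  · intro r hr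
    have hr' : r ∈ (mkc (amalS G β p.st q.st) (q.prom ∪ p.prom)
      (q.prom_finite.union p.prom_finite)).prom := hr
    rw [mkc_prom] at hr'
    rcases hr' with h1 | h1
    · exact ⟨(hq.prom r h1).1.trans_le h, (hq.prom r h1).2⟩
    · exact hp.prom r h1

theorem amal_le {β β' : WithTop Ω} {p q : Cond K Ω} (hp : Ps G β' p)
    (hle : Le q (cut β p)) : Le (amalC G β p q) p := by
  rw [le_iff] at hle ⊢
  obtain ⟨h1, h2, h3⟩ := hle
  rw [cut_st] at h1
  refine ⟨amal_sle h1, ?_, ?_⟩
  · intro r hr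
    show r ∈ (mkc _ (q.prom ∪ p.prom) _).prom
    rw [mkc_prom]
    exact Or.inr hr
  · intro r hr n hn1 hn2
    have hn2' : n < (if ((r.1 : Ω) : WithTop Ω) < β then q.st.c r.1 else p.st.c r.1).length := hn2
    by_cases h4 : ((r.1 : Ω) : WithTop Ω) < β
    · rw [if_pos h4] at hn2'
      have h5 : (cutS β p.st).c r.1 = p.st.c r.1 := if_pos h4
      obtain ⟨j, hj1, hj2⟩ := h3 r (by rw [cut_prom]; exact ⟨hr, h4⟩) n
        (by rw [cut_st, h5]; exact hn1) hn2'
      refine ⟨j, le_local ((hp.prom r hr).2.pl n j) hj1 ((amal_agr β p q).mono h4.le), ?_⟩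
      show r.2.2 n j < (if ((r.1 : Ω) : WithTop Ω) < β then q.st.c r.1 else p.st.c r.1).getD n 0
      rw [if_pos h4]
      exact hj2
    · rw [if_neg h4] at hn2'
      exact absurd hn2' (not_lt.2 hn1)

/-- Lemma 2. Let `w = mkc st (q.prom ∪ p.prom)` with `st.c γ = if γ < β then q.c γ else p.c γ`, `m, a, A, s, f` those of `q` and
`D = p.D ∪ {pairs of q.D which are LowPair}` (use `Finset.filter` on `Sym2 K` with the predicate
`fun e => ∀ x y, s(x, y) = e → LowPair G β x y`, classical).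
`Ps G β' w`: `fin`: union of two finite sets; `low`: `γ < β ≤ β'` or `p.st` ok; `A`, `out`: from `q`; `D`: from `p` (and `p.a ⊆ q.a`) or `q`.
`T` for `s(x, y) ∈ p.D` coded: take `k` from `hp.st.T x y` (level `β'`): `k ∈ p.A x`, `k < p.m`, so `k ∈ q.A x` (`SLe.A`);
for `i < (q.s y).length`: if `i < (p.s y).length` the value is the same (`getD_of_prefix`), otherwise
`g ≤ p.f y i ≤ (q.s y).getD i 0` (`SLe.sf`); for `i` beyond `g ≤ p.f y i ≤ q.f y i`; the `c`-part: if `dl x y < β` then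
`(cut β p).c = p.c` there is a prefix of `q.c`, otherwise `w.c = p.c`. For `s(x, y) ∈ q.D` low and coded: `dl x y < β`, take `k` from
`hq.st.T x y` (level `β`).
`Le w p`: `le_iff`; `SLe` from `hle` (frozen pairs of `p` are frozen in `cut β p`); a promise `r ∈ p.prom` with a new `n`: `r.1 < β` (otherwise
`w.c r.1 = p.c r.1`), so `r ∈ (cut β p).prom` and `Le q (z n j)` with `Pl G r.1 (z n j)`, so `Le w (z n j)` by `le_local`, where
`Agr G β q w` (then `Agr.mono`). `Le w r` for `Pl G β r`, `Le q r`: `le_local`. -/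
theorem amal {β β' : WithTop Ω} (h : β ≤ β') {p q : Cond K Ω} (hp : Ps G β' p) (hq : Ps G β q)
    (hle : Le q (cut β p)) :
    ∃ w, Ps G β' w ∧ Le w p ∧ (∀ r, Pl G β r → Le q r → Le w r) ∧
      (∀ γ : Ω, ¬ ((γ : WithTop Ω) < β) → w.st.c γ = p.st.c γ) ∧
      (∀ r ∈ w.prom, ¬ ((r.1 : WithTop Ω) < β) → r ∈ p.prom) := by
  have h1 : SLe q.st (cutS β p.st) := ((le_iff _ _).1 hle).1
  refine ⟨amalC G β p q, amal_ps h hp hq h1, amal_le hp hle,
    fun r hr hqr => le_local hr hqr (amal_agr β p q), fun γ hγ => ?_, fun r hr hr' => ?_⟩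
  · show (if ((γ : Ω) : WithTop Ω) < β then q.st.c γ else p.st.c γ) = p.st.c γ
    rw [if_neg hγ]
  · have hr2 : r ∈ (mkc (amalS G β p.st q.st) (q.prom ∪ p.prom)
      (q.prom_finite.union p.prom_finite)).prom := hr
    rw [mkc_prom] at hr2
    rcases hr2 with h2 | h2
    · exact absurd (hq.prom r h2).1 hr'
    · exact h2

end PSI
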