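import Pool.Agent.H74.PSI.Csup

/-!
# APX: the approximation property (Lemma 7)
-/

set_option autoImplicit false
set_option linter.unusedSectionVars false

namespace PSI

open BV

/-- the value of `b = ε` for a Boolean valued bit `b` -/
def lit {B : Type} [CompleteBooleanAlgebra B] (b : B) : Bool → B
  | true => b
  | false => bᶜ

/-- the approximation property: a function `b : X → 2` in the extension, all of whose restrictions to countable sets are in the ground model,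
is in the ground model -/
def Apx (B : Type) [CompleteBooleanAlgebra B] : Prop :=
  ∀ (X : Type) (b : X → B) (a : B),
    (∀ C : Set X, C.Countable → a ≤ ⨆ z : X → Bool, ⨅ ξ ∈ C, lit (b ξ) (z ξ)) →
    a ≤ ⨆ z : X → Bool, ⨅ ξ, lit (b ξ) (z ξ)

theorem APX_step {P : Type} [Preorder P] {B : Type} [CompleteBooleanAlgebra B]
    {e : P → B} (he : DenseEmb P B e) {X : Type} {b : X → B} {a : B} {p : P}
    (hC : ∀ C : Set X, C.Countable → a ≤ ⨆ z : X → Bool, ⨅ ξ ∈ C, lit (b ξ) (z ξ))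
    (hp : e p ≤ a ⊓ (⨆ z : X → Bool, ⨅ ξ, lit (b ξ) (z ξ))ᶜ) (C : Set X) (hCc : C.Countable) :
    ∃ d : (X → Bool) × X × P × P, (e d.2.2.1 ≤ ⨅ ξ ∈ C, lit (b ξ) (d.1 ξ)) ∧
      (e d.2.2.2 ≤ ⨅ ξ ∈ C, lit (b ξ) (d.1 ξ)) ∧ e d.2.2.1 ≤ (b d.2.1)ᶜ ∧ e d.2.2.2 ≤ b d.2.1 := by
  classical
  obtain ⟨p', hp', z, hz⟩ := he.exists_le_of_le_iSup ((hp.trans inf_le_left).trans (hC C hCc))
  have h1 : ∃ ξ, ¬ e p' ≤ b ξ ∧ ¬ e p' ≤ (b ξ)ᶜ := by
    by_contra hcon
    push Not at hcon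
    have h2 : e p' ≤ ⨆ z : X → Bool, ⨅ ξ, lit (b ξ) (z ξ) := by
      refine le_trans ?_ (le_iSup (fun z : X → Bool => ⨅ ξ, lit (b ξ) (z ξ))
        (fun ξ => decide (e p' ≤ b ξ)))
      refine le_iInf fun ξ => ?_
      by_cases h : e p' ≤ b ξ
      · show e p' ≤ lit (b ξ) (decide (e p' ≤ b ξ))
        rw [decide_eq_true h]
        exact h
      · show e p' ≤ lit (b ξ) (decide (e p' ≤ b ξ))
        rw [decide_eq_false h]
        exact hcon ξ h
    apply he.ne_bot p'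
    rw [← le_bot_iff]
    calc e p' ≤ (⨆ z : X → Bool, ⨅ ξ, lit (b ξ) (z ξ)) ⊓
          (⨆ z : X → Bool, ⨅ ξ, lit (b ξ) (z ξ))ᶜ :=
          le_inf h2 ((he.mono _ _ hp').trans (hp.trans inf_le_right))
      _ = ⊥ := inf_compl_eq_bot
  obtain ⟨ξ, h2, h3⟩ := h1
  have h4 : e p' ⊓ (b ξ)ᶜ ≠ ⊥ := by
    intro h
    apply h2
    rw [← disjoint_iff, disjoint_compl_right_iff] at h
    exact h
  have h5 : e p' ⊓ b ξ ≠ ⊥ := by
    intro h
    apply h3
    rw [← disjoint_iff] at h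
    exact h.le_compl_right
  obtain ⟨p0, hp0, hp0b⟩ := he.exists_le_of_inf_ne_bot h4
  obtain ⟨p1, hp1, hp1b⟩ := he.exists_le_of_inf_ne_bot h5
  exact ⟨(z, ξ, p0, p1), (he.mono _ _ hp0).trans hz, (he.mono _ _ hp1).trans hz, hp0b, hp1b⟩

theorem APX_index : ∃ (ι : Type) (_ : LinearOrder ι) (_ : WellFoundedLT ι),
    (∀ i : ι, (Set.Iio i).Countable) ∧ ¬ (Set.univ : Set ι).Countable := by
  refine ⟨(Cardinal.aleph 1).ord.ToType, inferInstance, inferInstance, ?_, ?_⟩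
  · intro i
    have h := Cardinal.mk_Iio_ord_toType i
    exact (Cardinal.countable_iff_lt_aleph_one _).2 h
  · intro h
    rw [← Cardinal.le_aleph0_iff_set_countable, Cardinal.mk_univ, Cardinal.mk_ord_toType] at h
    exact absurd h (not_le.2 Cardinal.aleph0_lt_aleph_one)

/-- Lemma 7. Otherwise there is a condition `p` with `e p ≤ a` and `e p ⊓ ⨅ ξ, lit (b ξ) (z ξ) = ⊥` for all `z`. For every countable set `C` there are
`p' ≤ p` and `z` with `e p' ≤ ⨅ ξ ∈ C, lit (b ξ) (z ξ)` (`DenseEmb.exists_le_of_le_iSup`); `p'` does not decide all `b ξ` (otherwise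
`e p' ≤ ⨅ ξ, lit (b ξ) (z' ξ)` for some `z'`), so there are `ξ` and `p0, p1 ≤ p'` with `e p0 ≤ (b ξ)ᶜ`, `e p1 ≤ b ξ`. Let `ι = {α : Ordinal // α < ω₁}` (or any well-order of type
`ω₁` in `Type`, all of whose proper initial segments are countable, which is uncountable) and construct by well-founded recursion
`(C α, z α, p0 α, p1 α, ξ α)` with `C α = {ξ β | β < α}`. By `hK` there are `β ≠ α`, say `β < α`, with `p0 β, p0 α` compatible and
`p1 β, p1 α` compatible. `ξ β ∈ C α`, so both `p0 α` and `p1 α` give the value `z α (ξ β)` to `b (ξ β)`, but `p0 β` gives `false` and `p1 β` gives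
`true`. -/
theorem apx_of_kn {P : Type} [Preorder P] (hK : Kn P) {B : Type} [CompleteBooleanAlgebra B]
    {e : P → B} (he : DenseEmb P B e) : Apx B := by
  classical
  intro X b a hC
  by_contra hcon
  have hne : a ⊓ (⨆ z : X → Bool, ⨅ ξ, lit (b ξ) (z ξ))ᶜ ≠ ⊥ := by
    intro h
    apply hcon
    rw [← disjoint_iff, disjoint_compl_right_iff] at h
    exact h
  obtain ⟨p, hp⟩ := he.dense _ hne
  have hstep := APX_step he hC hp
  have hch : ∀ C : Set X, ∃ d : (X → Bool) × X × P × P, C.Countable →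
      ((e d.2.2.1 ≤ ⨅ ξ ∈ C, lit (b ξ) (d.1 ξ)) ∧
      (e d.2.2.2 ≤ ⨅ ξ ∈ C, lit (b ξ) (d.1 ξ)) ∧ e d.2.2.1 ≤ (b d.2.1)ᶜ ∧
        e d.2.2.2 ≤ b d.2.1) := by
    intro C
    by_cases h : C.Countable
    · obtain ⟨d, hd⟩ := hstep C h
      exact ⟨d, fun _ => hd⟩
    · obtain ⟨d, -⟩ := hstep ∅ Set.countable_empty
      exact ⟨d, fun h' => absurd h' h⟩
  choose ch hch using hch
  obtain ⟨ι, _, _, hcnt, hunc⟩ := APX_index
  let Gf : ι → (X → Bool) × X × P × P :=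
    WellFounded.fix (C := fun _ : ι => (X → Bool) × X × P × P) wellFounded_lt
      (fun α ih => ch {x | ∃ β, ∃ h : β < α, (ih β h).2.1 = x})
  have hG : ∀ α, Gf α = ch {x | ∃ β, ∃ _ : β < α, (Gf β).2.1 = x} := by
    intro α
    exact WellFounded.fix_eq _ _ _
  have hGc : ∀ α, ({x | ∃ β, ∃ _ : β < α, (Gf β).2.1 = x} : Set X).Countable := by
    intro α
    have : ({x | ∃ β, ∃ _ : β < α, (Gf β).2.1 = x} : Set X) =
        (fun β => (Gf β).2.1) '' Set.Iio α := by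
      ext x
      simp
    rw [this]
    exact (hcnt α).image _
  have hspec := fun α => hch _ (hGc α)
  have hmain : ∀ α β, β < α → (∃ w, w ≤ (Gf α).2.2.1 ∧ w ≤ (Gf β).2.2.1) →
      (∃ w, w ≤ (Gf α).2.2.2 ∧ w ≤ (Gf β).2.2.2) → False := by
    rintro α β hβ ⟨w, hwα, hwβ⟩ ⟨v, hvα, hvβ⟩
    obtain ⟨s1, s2, s3, s4⟩ := hspec α
    obtain ⟨t1, t2, t3, t4⟩ := hspec β
    rw [← hG α] at s1 s2
    rw [← hG β] at t3 t4
    have hmem : (Gf β).2.1 ∈ {x | ∃ β, ∃ _ : β < α, (Gf β).2.1 = x} := ⟨β, hβ, rfl⟩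
    have h1 : e w ≤ lit (b (Gf β).2.1) ((Gf α).1 (Gf β).2.1) :=
      ((he.mono _ _ hwα).trans s1).trans (iInf₂_le _ hmem)
    have h2 : e v ≤ lit (b (Gf β).2.1) ((Gf α).1 (Gf β).2.1) :=
      ((he.mono _ _ hvα).trans s2).trans (iInf₂_le _ hmem)
    have h3 : e w ≤ (b (Gf β).2.1)ᶜ := (he.mono _ _ hwβ).trans t3
    have h4 : e v ≤ b (Gf β).2.1 := (he.mono _ _ hvβ).trans t4
    cases hz : (Gf α).1 (Gf β).2.1 with
    | true =>
      rw [hz] at h1
      apply he.ne_bot w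
      rw [← le_bot_iff, ← inf_compl_eq_bot (a := b (Gf β).2.1)]
      exact le_inf h1 h3
    | false =>
      rw [hz] at h2
      apply he.ne_bot v
      rw [← le_bot_iff, ← inf_compl_eq_bot (a := b (Gf β).2.1)]
      exact le_inf h4 h2
  obtain ⟨T, -, hTc, hT⟩ := hK ι Set.univ hunc (fun α => (Gf α).2.2.1) (fun α => (Gf α).2.2.2)
  have hnt : T.Nontrivial := by
    by_contra h
    rw [Set.not_nontrivial_iff] at h
    exact hTc h.countable
  obtain ⟨α, hα, β, hβ, hne'⟩ := hnt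
  rcases lt_or_gt_of_ne hne' with h | h
  · obtain ⟨h1, h2⟩ := hT β hβ α hα
    exact hmain β α h h1 h2
  · obtain ⟨h1, h2⟩ := hT α hα β hβ
    exact hmain α β h h1 h2

end PSI
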