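import Pool.Agent.H74.PSI.Defs

/-!
# LE: basic facts about the order; conditions with given stem and promises
-/

set_option autoImplicit false
set_option linter.unusedSectionVars false

namespace PSI

variable {K Ω : Type}

theorem Cond.prom_finite (p : Cond K Ω) : p.prom.Finite := by
  cases p with
  | mk st N lv z v => exact Set.finite_range _

theorem le_iff (q p : Cond K Ω) : Le q p ↔ SLe q.st p.st ∧ p.prom ⊆ q.prom ∧
    ∀ r ∈ p.prom, ∀ n, (p.st.c r.1).length ≤ n → n < (q.st.c r.1).length →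
      ∃ j, Le q (r.2.1 n j) ∧ r.2.2 n j < (q.st.c r.1).getD n 0 := by
  cases p with
  | mk st N lv z v =>
    rw [Le.eq_1]
    refine and_congr Iff.rfl (and_congr ?_ ?_)
    · constructor
      · rintro h _ ⟨i, rfl⟩
        exact h i
      · intro h i
        exact h ⟨i, rfl⟩
    · constructor
      · rintro h _ ⟨i, rfl⟩ n h1 h2
        exact h i n h1 h2
      · intro h i n h1 h2
        exact h (lv i, z i, v i) ⟨i, rfl⟩ n h1 h2

/-- induction on the promises -/
theorem Cond.ind {C : Cond K Ω → Prop}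
    (h : ∀ p : Cond K Ω, (∀ r ∈ p.prom, ∀ n j, C (r.2.1 n j)) → C p) (p : Cond K Ω) : C p := by
  induction p with
  | mk st N lv z v ih =>
    refine h _ ?_
    rintro _ ⟨i, rfl⟩ n j
    exact ih i n j

theorem SLe.refl' (p : Stem K Ω) (hp : ∀ x, p.A x ⊆ Finset.range p.m) : SLe p p where
  c _ := List.prefix_refl _
  m := le_rfl
  a := Finset.Subset.refl _
  A _ _ _ _ := Iff.rfl
  s _ _ := List.prefix_refl _
  sf _ _ _ h1 h2 := absurd h2 (not_lt.2 h1)
  f _ _ _ := le_rfl
  D := Finset.Subset.refl _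
  fr x _ _ _ hk hx _ := absurd (Finset.mem_range.1 (hp x hx)) (not_lt.2 hk)

/-- the values of an initial segment -/
theorem getD_of_prefix {l l' : List ℕ} (h : l <+: l') {n : ℕ} (hn : n < l.length) :
    l'.getD n 0 = l.getD n 0 := by
  obtain ⟨t, rfl⟩ := h
  rw [List.getD_append _ _ _ _ hn]

theorem SLe.trans {o p q : Stem K Ω} (hD : ∀ x y, s(x, y) ∈ o.D → x ∈ o.a ∧ y ∈ o.a)
    (h1 : SLe q p) (h2 : SLe p o) : SLe q o where
  c β := (h2.c β).trans (h1.c β)
  m := h2.m.trans h1.m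
  a := h2.a.trans h1.a
  A x hx k hk := (h1.A x (h2.a hx) k (hk.trans_le h2.m)).trans (h2.A x hx k hk)
  s x hx := (h2.s x hx).trans (h1.s x (h2.a hx))
  sf x hx i hi1 hi2 := by
    by_cases h : i < (p.s x).length
    · rw [getD_of_prefix (h1.s x (h2.a hx)) h]
      exact h2.sf x hx i hi1 h
    · exact (h2.f x hx i).trans (h1.sf x (h2.a hx) i (not_lt.1 h) hi2)
  f x hx i := (h2.f x hx i).trans (h1.f x (h2.a hx) i)
  D := h2.D.trans h1.D
  fr x y hxy k hk hx hy := by
    obtain ⟨hxa, hya⟩ := hD x y hxy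
    by_cases h : k < p.m
    · exact h2.fr x y hxy k hk ((h1.A x (h2.a hxa) k h).1 hx) ((h1.A y (h2.a hya) k h).1 hy)
    · exact h1.fr x y (h2.D hxy) k (not_lt.1 h) hx hy

/-! ### conditions with given stem and promises -/

/-- a condition with stem `s` and set of promises `Φ` -/
noncomputable def mkc (s : Stem K Ω) (Φ : Set (Prom K Ω)) (h : Φ.Finite) : Cond K Ω :=
  .mk s h.toFinset.card (fun i => (h.toFinset.equivFin.symm i : Prom K Ω).1)
    (fun i => (h.toFinset.equivFin.symm i : Prom K Ω).2.1)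
    (fun i => (h.toFinset.equivFin.symm i : Prom K Ω).2.2)

@[simp] theorem mkc_st (s : Stem K Ω) (Φ : Set (Prom K Ω)) (h : Φ.Finite) : (mkc s Φ h).st = s :=
  rfl

@[simp] theorem mkc_prom (s : Stem K Ω) (Φ : Set (Prom K Ω)) (h : Φ.Finite) :
    (mkc s Φ h).prom = Φ := by
  ext r
  constructor
  · rintro ⟨i, rfl⟩
    exact h.mem_toFinset.1 (h.toFinset.equivFin.symm i).2
  · intro hr
    refine ⟨h.toFinset.equivFin ⟨r, h.mem_toFinset.2 hr⟩, ?_⟩
    simp

/-- `Le` depends only on the stems and the sets of promises -/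
theorem le_congr {q q' p p' : Cond K Ω} (h1 : q.st = q'.st) (h2 : q.prom = q'.prom)
    (h3 : p.st = p'.st) (h4 : p.prom = p'.prom) : Le q p ↔ Le q' p' := by
  have key : ∀ p : Cond K Ω, Le q p ↔ Le q' p := by
    refine Cond.ind ?_
    intro p ih
    rw [le_iff, le_iff, h1, h2]
    refine and_congr Iff.rfl (and_congr Iff.rfl ?_)
    refine forall₂_congr fun r hr => forall_congr' fun n => forall₂_congr fun _ _ => ?_
    exact exists_congr fun j => and_congr (ih r hr n j) Iff.rfl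
  rw [key, le_iff, le_iff, h3, h4]

variable [LinearOrder Ω] [WellFoundedLT Ω] {G : PD K Ω}

theorem Adm.pl {β : Ω} {z : Name K Ω} (h : Adm G β z) (n i : ℕ) : Pl G β (z.1 n i) :=
  ((adm_iff G β z).1 h).1 n i

theorem Adm.pre {β : Ω} {z : Name K Ω} (h : Adm G β z) (n : ℕ) {p : Cond K Ω} (hp : Ps G β p) :
    ∃ i q, Ps G β q ∧ Le q p ∧ Le q (z.1 n i) :=
  ((adm_iff G β z).1 h).2 n p hp

theorem le_refl {β : WithTop Ω} {p : Cond K Ω} (hp : Ps G β p) : Le p p := by
  rw [le_iff]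
  exact ⟨SLe.refl' _ hp.st.A, subset_rfl, fun r _ n h1 h2 => absurd h2 (not_lt.2 h1)⟩

theorem le_trans {o : Cond K Ω} : ∀ {β : WithTop Ω} (_ : Ps G β o) {q p : Cond K Ω},
    Le q p → Le p o → Le q o := by
  refine Cond.ind (C := fun o => ∀ {β : WithTop Ω} (_ : Ps G β o) {q p : Cond K Ω},
    Le q p → Le p o → Le q o) ?_ o
  intro o ih β ho q p h1 h2
  rw [le_iff] at h1 h2 ⊢
  have hst : SLe q.st o.st := h1.1.trans (fun x y h => (ho.st.D x y h).2) h2.1
  refine ⟨hst, h2.2.1.trans h1.2.1, fun r hr n hn1 hn2 => ?_⟩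
  by_cases h : n < (p.st.c r.1).length
  · obtain ⟨j, hj1, hj2⟩ := h2.2.2 r hr n hn1 h
    refine ⟨j, ih r hr n j ((ho.prom r hr).2.pl n j).ps ((le_iff _ _).2 h1) hj1, ?_⟩
    rw [getD_of_prefix (h1.1.c r.1) h]
    exact hj2
  · exact h1.2.2 r (h2.2.1 hr) n (not_lt.1 h) hn2

/-- the preorder of the forcing poset, smaller is stronger -/
instance instPreorderPos (G : PD K Ω) : Preorder (Pos G) where
  le q p := Le q.1 p.1
  le_refl p := le_refl p.2
  le_trans q p o h1 h2 := le_trans o.2 h1 h2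

theorem Pos.le_def (q p : Pos G) : q ≤ p ↔ Le q.1 p.1 := Iff.rfl

end PSI
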