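import Pool.Agent.H74.PSI.Defs

/-!
# CODES: the index set
-/

set_option autoImplicit false
set_option linter.unusedSectionVars false

namespace PSI

/-- the least place where `u` and `v` differ (`0` if `u = v`) -/
noncomputable def dd (u v : ℕ → Bool) : ℕ := sInf {i | u i ≠ v i}

theorem dd_ge {u v : ℕ → Bool} (h : u ≠ v) {N : ℕ} (hN : ∀ i < N, u i = v i) : N ≤ dd u v := by
  have hne : {i | u i ≠ v i}.Nonempty := by
    by_contra hcon
    rw [Set.not_nonempty_iff_eq_empty] at hcon
    refine h (funext fun i => ?_)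
    by_contra hi
    have : i ∈ {i | u i ≠ v i} := hi
    rw [hcon] at this
    exact this
  by_contra hlt
  exact Nat.sInf_mem hne (hN _ (not_le.1 hlt))

/-- a system of codes: classes `H` with levels; a class `y` of level `n + 1` codes functions `rho y`, `phi y` on the classes of
level at most `n`, a sequence `bb y` of elements of `2 ^ ω` and an index `jj y` -/
structure Codes (Ω : Type) where
  H : Type
  lev : H → ℕ
  rho : H → H → Ω
  phi : H → H → ℕ → Bool
  bb : H → ℕ → ℕ → Bool
  jj : H → Ω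
  surj : ∀ (n : ℕ) (ρ : H → Ω) (φ : H → ℕ → Bool) (b : ℕ → ℕ → Bool) (j : Ω),
    ∃ y, lev y = n + 1 ∧ (∀ x, lev x ≤ n → rho y x = ρ x) ∧ (∀ x, lev x ≤ n → phi y x = φ x) ∧
      bb y = b ∧ jj y = j
  emb0 : ∃ F : {x // lev x ≤ 0} → (ℕ → Bool), Function.Injective F
  emb : ∀ n, ∃ F : {x // lev x ≤ n + 1} → (({x // lev x ≤ n} ⊕ ℕ) × ℕ → Bool),
    Function.Injective F

/-- the index set: classes and twins -/
abbrev Codes.K {Ω : Type} (C : Codes Ω) : Type := C.H × ℕ

/-- the pair data of the codes -/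
noncomputable def Codes.G {Ω : Type} (C : Codes Ω) : PD C.K Ω where
  cd x y := C.lev x.1 < C.lev y.1
  dl x y := C.rho y.1 x.1
  nu _ y := C.lev y.1 - 1
  g x y i := dd (C.phi y.1 x.1) (C.bb y.1 i)

end PSI
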