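import Pool.Agent.H74.PSI.Gent
import Pool.Agent.H74.PSI.Codes

/-!
# CATA: the event that `y` catches `x`
-/

set_option autoImplicit false
set_option linter.unusedSectionVars false

namespace PSI

open BV

variable {Ω : Type} [LinearOrder Ω] [WellFoundedLT Ω] {C : Codes Ω}
  {B : Type} [CompleteBooleanAlgebra B] {e : Pos C.G → B}

/-- the value of: there is `j` in `A x`, `A y` with `j ≥ k y` and `j > c (ρ x) n` -/
noncomputable def GG (e : Pos C.G → B) (k : C.K → ℕ → B) (ρ : C.H → Ω) (n : ℕ) (x y : C.K) : B :=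
  ⨆ j, Ae e x j ⊓ Ae e y j ⊓ (⨆ v, ⨆ _ : v ≤ j, k y v) ⊓ ⨆ w, ⨆ _ : w < j, ce e (ρ x.1) n w

theorem cd_asymm (C : Codes Ω) (x y : C.K) : C.G.cd x y → ¬ C.G.cd y x :=
  fun h h' => lt_asymm (α := ℕ) h h'

/-- By `gen_T` it is enough to show that for every `j` the product of the `j`-th term of `gen_T` with `(GG x y)ᶜ` is below the right hand side.
`C.G.dl x y = ρ x.1`, `C.G.nu x y = n`. The `j`-th term is `≤ Ae e x j ⊓ Ae e y j ⊓ ⨆ w < j, ce ..`, so its product with `(GG x y)ᶜ` is disjoint from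
`⨆ v ≤ j, k y v`, hence (`Part (k y)`) below `⨆ v > j, k y v`; for `v > j` `g x y i ≤ u + j` implies `g x y i ≤ u + v`. -/
theorem GG_compl (he : DenseEmb (Pos C.G) B e) {k : C.K → ℕ → B} {ρ : C.H → Ω} {n : ℕ}
    {x y : C.K} (hk : Part (k y)) (hx : C.lev x.1 ≤ n) (hy : C.lev y.1 = n + 1)
    (hρ : C.rho y.1 x.1 = ρ x.1) :
    (GG e k ρ n x y)ᶜ ≤ ⨆ v, k y v ⊓ ⨅ i, ⨆ u, ⨆ _ : C.G.g x y i ≤ u + v, se e y i u := by
  have hcd : C.G.cd x y := by
    show C.lev x.1 < C.lev y.1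
    omega
  have hdl : C.G.dl x y = ρ x.1 := hρ
  have hnu : C.G.nu x y = n := by
    show C.lev y.1 - 1 = n
    omega
  have hT := gen_T he (cd_asymm C) x y hcd
  rw [hdl, hnu] at hT
  have h1 : (GG e k ρ n x y)ᶜ = (GG e k ρ n x y)ᶜ ⊓ (⨆ v, k y v) ⊓
      (⨆ j, Ae e x j ⊓ Ae e y j ⊓ (⨆ w, ⨆ _ : w < j, ce e (ρ x.1) n w) ⊓
        ⨅ i, ⨆ v, ⨆ _ : C.G.g x y i ≤ v + j, se e y i v) := by
    rw [hT, hk.top, inf_top_eq, inf_top_eq]
  rw [h1, inf_iSup_eq]
  refine iSup_le fun j => ?_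
  rw [inf_iSup_eq, iSup_inf_eq]
  refine iSup_le fun v => ?_
  by_cases hv : v ≤ j
  · -- this part is below `GG ⊓ GGᶜ`
    have h2 : (GG e k ρ n x y)ᶜ ⊓ k y v ⊓ (Ae e x j ⊓ Ae e y j ⊓
        (⨆ w, ⨆ _ : w < j, ce e (ρ x.1) n w) ⊓
          ⨅ i, ⨆ v, ⨆ _ : C.G.g x y i ≤ v + j, se e y i v) ≤
        (GG e k ρ n x y)ᶜ ⊓ GG e k ρ n x y := by
      refine le_inf (inf_le_left.trans inf_le_left) ?_
      unfold GG
      refine le_iSup_of_le j (le_inf (le_inf ?_ ?_) ?_)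
      · exact inf_le_right.trans (inf_le_left.trans inf_le_left)
      · exact inf_le_left.trans (inf_le_right.trans
          (le_iSup_of_le v (le_iSup_of_le hv le_rfl)))
      · exact inf_le_right.trans (inf_le_left.trans inf_le_right)
    rw [compl_inf_self] at h2
    exact h2.trans bot_le
  · refine le_iSup_of_le v (le_inf (inf_le_left.trans inf_le_right) ?_)
    refine inf_le_right.trans (inf_le_right.trans ?_)
    refine iInf_mono fun i => iSup_mono fun u => ?_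
    refine iSup_le fun hu => ?_
    exact le_iSup_of_le (by omega) le_rfl

end PSI
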