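import Pool.Agent.H74.PSI.Goodp
import Pool.Agent.H74.PSI.Codes

/-!
# GOODC: the sets of the codes are good
-/

set_option autoImplicit false
set_option linter.unusedSectionVars false

namespace PSI

variable {B : Type} [CompleteBooleanAlgebra B]

/-- induction on `n` with `Codes.emb0`, `Codes.emb`, `good_of_inj`, `good_bool`, `good_sum`, `good_prod`, `good_pow` (`ℕ` injects into `ℕ → Bool`) -/
theorem good_codes (hB : Apx B) {Ω : Type} (C : Codes Ω) (n : ℕ) :
    Good B {x : C.H // C.lev x ≤ n} := by
  have hN : Good B ℕ := by
    refine good_of_inj (fun n : ℕ => fun i : ℕ => decide (i = n)) ?_ good_bool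
    intro m n h
    have h1 := congrFun h m
    simpa using h1
  induction n with
  | zero =>
    obtain ⟨F, hF⟩ := C.emb0
    exact good_of_inj F hF good_bool
  | succ n ih =>
    obtain ⟨F, hF⟩ := C.emb n
    exact good_of_inj F hF (good_pow hB (good_prod (good_sum ih hN) hN))

end PSI
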