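import Pool.Agent.H74.PSI.Cor

/-!
# NAM: names of reals are admissible at some countable level (Lemma 5)
-/

set_option autoImplicit false
set_option linter.unusedSectionVars false

namespace PSI

variable {K Ω : Type} [LinearOrder Ω] [WellFoundedLT Ω] {G : PD K Ω}

/-- a condition of the poset is in `P_β` for all large `β`: `β` must be above the finitely many `γ` with `c γ ≠ []`, the levels of the promises and
the `dl x y` of the frozen coded pairs -/
theorem exists_pl (hΩ : ∀ s : Set Ω, s.Countable → ∃ β, ∀ γ ∈ s, γ < β) {p : Cond K Ω}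
    (hp : Ps G ⊤ p) : ∃ β : Ω, Pl G β p := by
  have h1 : ({γ | p.st.c γ ≠ []} ∪ Prod.fst '' p.prom ∪
      (fun e : K × K => G.dl e.1 e.2) '' ((p.st.a ×ˢ p.st.a : Finset (K × K)) : Set (K × K))
        : Set Ω).Countable :=
    ((hp.st.fin.union (p.prom_finite.image _)).union
      ((Finset.finite_toSet _).image _)).countable
  obtain ⟨β, hβ⟩ := hΩ _ h1
  refine ⟨β, ⟨⟨⟨hp.st.fin, ?_, hp.st.A, hp.st.out, hp.st.D, ?_⟩, ?_⟩, ?_⟩⟩
  · intro γ hγ
    exact WithTop.coe_lt_coe.2 (hβ γ (Or.inl (Or.inl hγ)))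
  · intro x y hxy hcd
    obtain ⟨k, hk1, hk2, hk3, hk4, hk5, hk6⟩ := hp.st.T x y hxy hcd
    exact ⟨k, hk1, hk2, hk3, hk4, hk5, fun _ => hk6 (WithTop.coe_lt_top _)⟩
  · intro r hr
    exact ⟨WithTop.coe_lt_coe.2 (hβ _ (Or.inl (Or.inr ⟨r, hr, rfl⟩))), (hp.prom r hr).2⟩
  · intro x y hxy _
    obtain ⟨_, hx, hy⟩ := hp.st.D x y hxy
    exact WithTop.coe_lt_coe.2 (hβ _ (Or.inr ⟨(x, y), by
      simpa using And.intro hx hy, rfl⟩))

/-- the condition `p^`: if `p ∈ P*_β` there is `q` in the poset with `cut β q` equal to `p` up to `le_congr`: let `c (dl x y)` be a list of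
zeros of length `> nu x y` for all frozen coded pairs of `p` with `¬ dl x y < β` (one length for all of them: the supremum of the
`nu x y + 1` over the finite set of frozen pairs) and the same promises; `TReq` holds because `0 < k` -/
theorem hat {β : WithTop Ω} {p : Cond K Ω} (hp : Ps G β p) :
    ∃ q, Ps G ⊤ q ∧ (cut β q).st = p.st ∧ (cut β q).prom = p.prom := by
  classical
  set F : Finset Ω := (p.st.a ×ˢ p.st.a).image (fun e : K × K => G.dl e.1 e.2) with hF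
  set L : ℕ := (p.st.a ×ˢ p.st.a).sup (fun e : K × K => G.nu e.1 e.2) + 1 with hL
  set c' : Ω → List ℕ := fun γ => if ((γ : Ω) : WithTop Ω) < β then p.st.c γ else
    if γ ∈ F then List.replicate L 0 else [] with hc'
  have hc1 : ∀ γ : Ω, ((γ : Ω) : WithTop Ω) < β → c' γ = p.st.c γ := fun γ h => if_pos h
  have hc2 : ∀ γ : Ω, ¬ ((γ : Ω) : WithTop Ω) < β → γ ∈ F → c' γ = List.replicate L 0 := by
    intro γ h h2
    simp only [hc']
    rw [if_neg h, if_pos h2]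
  refine ⟨mkc { p.st with c := c' } p.prom p.prom_finite,
    ⟨⟨?_, ?_, hp.st.A, hp.st.out, hp.st.D, ?_⟩, ?_⟩, ?_, ?_⟩
  · refine (hp.st.fin.union F.finite_toSet).subset ?_
    intro γ hγ
    have hγ' : c' γ ≠ [] := hγ
    simp only [hc'] at hγ'
    split_ifs at hγ' with h1 h2
    · exact Or.inl hγ'
    · exact Or.inr h2
    · exact absurd rfl hγ'
  · intro γ _
    exact WithTop.coe_lt_top _
  · intro x y hxy hcd
    obtain ⟨_, hx, hy⟩ := hp.st.D x y hxy
    obtain ⟨k, hk1, hk2, hk3, hk4, hk5, hk6⟩ := hp.st.T x y hxy hcd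
    refine ⟨k, hk1, hk2, hk3, hk4, hk5, fun _ => ?_⟩
    show G.nu x y < (c' (G.dl x y)).length ∧ (c' (G.dl x y)).getD (G.nu x y) 0 < k
    by_cases h1 : ((G.dl x y : Ω) : WithTop Ω) < β
    · rw [hc1 _ h1]
      exact hk6 h1
    · have hmem : (x, y) ∈ p.st.a ×ˢ p.st.a := Finset.mem_product.2 ⟨hx, hy⟩
      rw [hc2 _ h1 (Finset.mem_image.2 ⟨(x, y), hmem, rfl⟩)]
      have h2 : G.nu x y < L := Nat.lt_succ_of_le
        (Finset.le_sup (f := fun e : K × K => G.nu e.1 e.2) hmem)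
      refine ⟨by rw [List.length_replicate]; exact h2, ?_⟩
      rw [List.getD_replicate _ h2]
      exact hk3
  · intro r hr
    rw [mkc_prom] at hr
    exact ⟨WithTop.coe_lt_top _, (hp.prom r hr).2⟩
  · show cutS β { p.st with c := c' } = p.st
    have : (fun γ : Ω => if ((γ : Ω) : WithTop Ω) < β then c' γ else []) = p.st.c := by
      funext γ
      by_cases h1 : ((γ : Ω) : WithTop Ω) < β
      · rw [if_pos h1, hc1 _ h1]
      · rw [if_neg h1]
        by_contra h2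
        exact h1 (hp.st.low γ (fun h => h2 h.symm))
    unfold cutS
    simp only [this]
  · rw [cut_prom, mkc_prom]
    ext r
    exact ⟨fun h => h.1, fun h => ⟨h, (hp.prom r h).1⟩⟩

/-- predense sets of conditions in `P_β` are predense in `P*_β`: `hat`, `down`, `le_congr` -/
theorem predense_down {β : WithTop Ω} {R : Set (Cond K Ω)} (hR : ∀ r ∈ R, Pl G β r)
    (hpre : ∀ p, Ps G ⊤ p → ∃ q, Ps G ⊤ q ∧ Le q p ∧ ∃ r ∈ R, Le q r) {p : Cond K Ω}
    (hp : Ps G β p) : ∃ q, Ps G β q ∧ Le q p ∧ ∃ r ∈ R, Le q r := by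
  obtain ⟨p', hp', hst, hprom⟩ := hat hp
  obtain ⟨q, hq, hqp, r, hr, hqr⟩ := hpre p' hp'
  obtain ⟨h1, h2, h3⟩ := down (β := β) hp' hq hqp
  exact ⟨cut β q, h1, (le_congr rfl rfl hst hprom).1 h2, r, hr, h3 r (hR r hr) hqr⟩

/-- Lemma 5: choose levels for the `z.1 n i` by `exists_pl`, a common bound by `hΩ`, `Pl.mono`, `predense_down` -/
theorem exists_adm (hΩ : ∀ s : Set Ω, s.Countable → ∃ β, ∀ γ ∈ s, γ < β) (z : Name K Ω)
    (hz : ∀ n i, Ps G ⊤ (z.1 n i))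
    (hpre : ∀ n p, Ps G ⊤ p → ∃ i q, Ps G ⊤ q ∧ Le q p ∧ Le q (z.1 n i)) :
    ∃ β : Ω, Adm G β z := by
  choose b hb using fun n i => exists_pl hΩ (hz n i)
  obtain ⟨β, hβ⟩ := hΩ (Set.range fun e : ℕ × ℕ => b e.1 e.2) (Set.countable_range _)
  have hpl : ∀ n i, Pl G β (z.1 n i) := fun n i =>
    (hb n i).mono (WithTop.coe_le_coe.2 (hβ _ ⟨(n, i), rfl⟩).le)
  refine ⟨β, (adm_iff G β z).2 ⟨hpl, fun n p hp => ?_⟩⟩
  obtain ⟨q, hq, hqp, r, ⟨i, rfl⟩, hqr⟩ := predense_down (R := Set.range (z.1 n))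
    (by rintro _ ⟨i, rfl⟩; exact hpl n i)
    (fun p hp => by
      obtain ⟨i, q, hq, h1, h2⟩ := hpre n p hp
      exact ⟨q, hq, h1, _, ⟨i, rfl⟩, h2⟩) hp
  exact ⟨i, q, hq, hqp, hqr⟩

end PSI
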