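import Pool.Agent.H74.PSI.Hit
import Pool.Agent.H74.PSI.Nam
import Pool.Agent.H74.PSI.Apx

/-!
# HITB: a Boolean-valued real is hit by countably many reals (Lemma 6 for Boolean values)
-/

set_option autoImplicit false
set_option linter.unusedSectionVars false

namespace PSI

open BV

variable {Ω : Type} [LinearOrder Ω] [WellFoundedLT Ω] {C : Codes Ω}
  {B : Type} [CompleteBooleanAlgebra B] {e : Pos C.G → B}

/-- a Boolean-valued real `b` is hit (B-valued form of `hit`): `b l` and `(b l)ᶜ` are suprema of countably many conditions (`exists_csup`);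
let `R l true`, `R l false` be these sets; all these conditions are in `P_β0` for some `β0` (`exists_pl`, `hΩ`, `Pl.mono`), predense in `P*_β0`
(`predense_down`); apply `hit` -/
theorem hit_B (he : DenseEmb (Pos C.G) B e) (hK : Kn (Pos C.G))
    (hct : ∀ β : Ω, (Set.Iio β).Countable)
    (hΩ : ∀ s : Set Ω, s.Countable → ∃ β, ∀ γ ∈ s, γ < β) (b : ℕ → B) :
    ∃ (β0 : Ω) (S : Set C.H) (τ : Cond C.K Ω → ℕ) (r : ℕ → ℕ → Bool), S.Countable ∧
      (∀ p p' : Pos C.G, AgOn β0 (Prod.fst ⁻¹' S) p.1 p'.1 → τ p.1 = τ p'.1) ∧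
      ∀ (p : Pos C.G) (t : ℕ), ∃ q, q ≤ p ∧ e q ≤ ⨅ l, ⨅ _ : l < t, lit (b l) (r (τ p.1) l) := by
  have hD : ∀ (l : ℕ) (ε : Bool), ∃ D : Set (Pos C.G), D.Countable ∧
      lit (b l) ε = ⨆ c ∈ D, e c := fun l ε => exists_csup hK he _
  choose D hDc hDe using hD
  choose bnd hbnd using fun c : Pos C.G => exists_pl hΩ c.2
  obtain ⟨β0, hβ0⟩ := hΩ (⋃ l : ℕ, ⋃ ε : Bool, bnd '' D l ε)
    (Set.countable_iUnion fun l => Set.countable_iUnion fun ε => (hDc l ε).image _)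
  have hR : ∀ l ε, ∀ r ∈ (Subtype.val '' D l ε : Set (Cond C.K Ω)), Pl C.G β0 r := by
    rintro l ε _ ⟨c, hc, rfl⟩
    exact (hbnd c).mono (WithTop.coe_le_coe.2 (hβ0 _ (Set.mem_iUnion.2 ⟨l, Set.mem_iUnion.2
      ⟨ε, ⟨c, hc, rfl⟩⟩⟩)).le)
  have hpre : ∀ l p, Ps C.G β0 p → ∃ q, Ps C.G β0 q ∧ Le q p ∧
      ∃ ε, ∃ r ∈ (Subtype.val '' D l ε : Set (Cond C.K Ω)), Le q r := by
    intro l p hp
    obtain ⟨q, hq, hqp, r, ⟨ε, hr⟩, hqr⟩ := predense_down (β := (β0 : WithTop Ω))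
      (R := {r | ∃ ε, r ∈ (Subtype.val '' D l ε : Set (Cond C.K Ω))})
      (by rintro r ⟨ε, hr⟩; exact hR l ε r hr) (by
        intro p hp
        have h1 : e ⟨p, hp⟩ ≤ ⨆ ε : Bool, ⨆ c ∈ D l ε, e c := by
          have h2 : (⨆ ε : Bool, ⨆ c ∈ D l ε, e c) = ⊤ := by
            simp only [← hDe]
            rw [iSup_bool_eq]
            exact sup_compl_eq_top
          rw [h2]
          exact le_top
        obtain ⟨q1, hq1, ε, h3⟩ := he.exists_le_of_le_iSup h1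
        obtain ⟨q2, hq2, c, h4⟩ := he.exists_le_of_le_iSup h3
        obtain ⟨q3, hq3, hc, h5⟩ := he.exists_le_of_le_iSup h4
        obtain ⟨w, hw1, hw2⟩ := he.compat q3 c (by rw [inf_eq_left.2 h5]; exact he.ne_bot q3)
        exact ⟨w.1, w.2, hw1.trans (hq3.trans (hq2.trans hq1)), c.1, ⟨ε, c, hc, rfl⟩, hw2⟩) hp
    exact ⟨q, hq, hqp, ε, r, hr, hqr⟩
  obtain ⟨S, τ, r, hS, hτ, hr⟩ := hit C (hct β0) hR (fun l ε => (hDc l ε).image _) hpre
  refine ⟨β0, S, τ, r, hS, fun p p' h => hτ p.1 p'.1 p.2 p'.2 h, fun p t => ?_⟩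
  obtain ⟨q, hq, hqp, h1⟩ := hr p.1 p.2 t
  have key : ∀ l < t, e ⟨q, hq⟩ ≤ lit (b l) (r (τ p.1) l) := by
    intro l hl
    obtain ⟨_, ⟨c, hc, rfl⟩, h2⟩ := h1 l hl
    rw [hDe]
    exact (he.mono _ c h2).trans (le_iSup₂_of_le c hc le_rfl)
  exact ⟨⟨q, hq⟩, hqp, le_iInf fun l => le_iInf fun hl => key l hl⟩

end PSI
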