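import Pool.Agent.H74.PSI.Cata
import Pool.Agent.H74.PSI.Goodc
import Pool.Agent.H74.PSI.Hitb

/-!
# CATB: bad ultrafilters are tight (section 5)
-/

set_option autoImplicit false
set_option linter.unusedSectionVars false

namespace PSI

open BV

variable {Ω : Type} [LinearOrder Ω] [WellFoundedLT Ω] {C : Codes Ω}
  {B : Type} [CompleteBooleanAlgebra B] {e : Pos C.G → B}

/-- the classes of level at most `n` -/
abbrev Xn (C : Codes Ω) (n : ℕ) : Type := {x : C.H // C.lev x ≤ n}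

/-- the indices of level `n + 1` which code `ρ` -/
def Yn (C : Codes Ω) (n : ℕ) (ρ : C.H → Ω) : Set C.K :=
  {y | C.lev y.1 = n + 1 ∧ ∀ x, C.lev x ≤ n → C.rho y.1 x = ρ x}

/-- the property of the ultrafilter `h` used below -/
def HP (e : Pos C.G → B) (n : ℕ) (ρ : C.H → Ω) (k : C.K → ℕ → B) (h : Set (Xn C n) → B) : Prop :=
  ∀ y ∈ Yn C n ρ, ∀ (i N : ℕ) (Z : Set (Xn C n)),
    (∀ x ∈ Z, N ≤ dd (C.phi y.1 x.1) (C.bb y.1 i)) →
    h Z ≤ ⨆ v, ⨆ u, ⨆ _ : N ≤ u + v, k y v ⊓ se e y i u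

/-- values of the literals -/
theorem catb_lit {X : Type} {a : B} {h : Set X → B} (hh : BHom a h) (φ : X → ℕ → Bool) (l : ℕ)
    (ε : Bool) : h {x | φ x l = ε} = a ⊓ lit (h {x | φ x l = true}) ε := by
  cases ε with
  | true => exact (inf_eq_right.2 (hh.le _)).symm
  | false =>
    have h1 : {x | φ x l = false} = {x | φ x l = true}ᶜ := by
      ext x
      show φ x l = false ↔ ¬ φ x l = true
      exact Bool.not_eq_true _ |>.symm.to_iff
    rw [h1, hh.compl]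
    rfl

theorem catb_inter {X : Type} {a : B} {h : Set X → B} (hh : BHom a h) (φ : X → ℕ → Bool)
    (z : ℕ → Bool) (N : ℕ) :
    a ⊓ ⨅ l, ⨅ _ : l < N, lit (h {x | φ x l = true}) (z l) ≤ h {x | ∀ l < N, φ x l = z l} := by
  induction N with
  | zero =>
    have h1 : {x : X | ∀ l < 0, φ x l = z l} = Set.univ := by
      ext x
      exact ⟨fun _ => trivial, fun _ l hl => absurd hl (Nat.not_lt_zero l)⟩
    rw [h1, hh.univ]
    exact inf_le_left
  | succ N ih =>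
    have h1 : {x : X | ∀ l < N + 1, φ x l = z l} = {x | ∀ l < N, φ x l = z l} ∩ {x | φ x N = z N} := by
      ext x
      constructor
      · exact fun hx => ⟨fun l hl => hx l (Nat.lt_succ_of_lt hl), hx N (Nat.lt_succ_self N)⟩
      · rintro ⟨h1, h2⟩ l hl
        rcases Nat.lt_succ_iff_lt_or_eq.1 hl with hl | rfl
        · exact h1 l hl
        · exact h2
    rw [h1, hh.inter]
    refine le_inf ((inf_le_inf_left a ?_).trans ih) ?_
    · exact le_iInf fun l => le_iInf fun hl => iInf₂_le l (Nat.lt_succ_of_lt hl)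
    · rw [catb_lit hh]
      exact inf_le_inf_left a (iInf₂_le N (Nat.lt_succ_self N))

theorem catb_claim {n : ℕ} {ρ : C.H → Ω} {k : C.K → ℕ → B} {a : B}
    {h : Set (Xn C n) → B} (hh : BHom a h) (hP : HP e n ρ k h) (φ : Xn C n → ℕ → Bool)
    {y : C.K} (hy : y ∈ Yn C n ρ) (hφ : ∀ x : Xn C n, C.phi y.1 x.1 = φ x) (i N : ℕ) :
    a ⊓ (⨆ z : ℕ → Bool, ⨅ i, lit (h {x | φ x i = true}) (z i))ᶜ ⊓
      ⨅ l, ⨅ _ : l < N, lit (h {x | φ x l = true}) (C.bb y.1 i l) ≤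
      ⨆ v, ⨆ u, ⨆ _ : N ≤ u + v, k y v ⊓ se e y i u := by
  have h1 := catb_inter hh φ (C.bb y.1 i) N
  have h2 : h {x | ∀ l < N, φ x l = C.bb y.1 i l} ≤
      h {x | (∀ l < N, φ x l = C.bb y.1 i l) ∧ φ x ≠ C.bb y.1 i} ⊔ h {x | φ x = C.bb y.1 i} := by
    rw [← hh.union]
    apply hh.mono
    intro x hx
    by_cases hxx : φ x = C.bb y.1 i
    · exact Or.inr hxx
    · exact Or.inl ⟨hx, hxx⟩
  have h3 : h {x | φ x = C.bb y.1 i} ≤ ⨆ z : ℕ → Bool, ⨅ i, lit (h {x | φ x i = true}) (z i) := by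
    refine le_iSup_of_le (C.bb y.1 i) (le_iInf fun l => ?_)
    have h4 : h {x | φ x = C.bb y.1 i} ≤ h {x | φ x l = C.bb y.1 i l} := by
      apply hh.mono
      intro x hx
      have hx' : φ x = C.bb y.1 i := hx
      show φ x l = C.bb y.1 i l
      rw [hx']
    refine h4.trans ?_
    rw [catb_lit hh]
    exact inf_le_right
  have h5 : h {x | (∀ l < N, φ x l = C.bb y.1 i l) ∧ φ x ≠ C.bb y.1 i} ≤
      ⨆ v, ⨆ u, ⨆ _ : N ≤ u + v, k y v ⊓ se e y i u := by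
    apply hP y hy i N
    rintro x ⟨hx1, hx2⟩
    rw [hφ x]
    exact dd_ge hx2 hx1
  generalize (⨆ z : ℕ → Bool, ⨅ i, lit (h {x | φ x i = true}) (z i)) = W at h3 ⊢
  calc a ⊓ Wᶜ ⊓ ⨅ l, ⨅ _ : l < N, lit (h {x | φ x l = true}) (C.bb y.1 i l)
      ≤ Wᶜ ⊓ (a ⊓ ⨅ l, ⨅ _ : l < N, lit (h {x | φ x l = true}) (C.bb y.1 i l)) :=
        le_inf (inf_le_left.trans inf_le_right) (le_inf (inf_le_left.trans inf_le_left) inf_le_right)
    _ ≤ Wᶜ ⊓ (h {x | (∀ l < N, φ x l = C.bb y.1 i l) ∧ φ x ≠ C.bb y.1 i} ⊔ W) :=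
        inf_le_inf_left _ (h1.trans (h2.trans (sup_le_sup_left h3 _)))
    _ ≤ h {x | (∀ l < N, φ x l = C.bb y.1 i l) ∧ φ x ≠ C.bb y.1 i} := by
        rw [inf_sup_left, compl_inf_self, sup_bot_eq]
        exact inf_le_right
    _ ≤ _ := h5

/-- case (i) of section 5. Let `b i = h {x | φ x i = true}`, and suppose `a' = a ⊓ (⨆ z, ⨅ i, lit (b i) (z i))ᶜ ≠ ⊥`. Take `β0, S, τ, r` from
`hit_B`, `Bs i = r (Nat.unpair i).1`; for `j : Ω` there is a class `y_j` of level `n + 1` coding `ρ`, `φ` (extended arbitrarily to all classes), `Bs` and `j`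
(`C.surj`); they are different for different `j` (`jj`), so one of them is not in `S` (otherwise `Ω` would be countable, contradicting `hΩ`);
`y = (y_j, 0) ∈ Yn C n ρ`. CLAIM: for all `i`, `N`:
`a' ⊓ ⨅ l < N, lit (b l) (Bs i l) ≤ ⨆ v, ⨆ u, ⨆ _ : N ≤ u + v, k y v ⊓ se e y i u`: the left side is `≤ h {x | ∀ l < N, φ x l = Bs i l}`
(finite intersections, `BHom.inter`, `BHom.compl`); `{x | φ x = Bs i}` has value `≤ ⨅ l, lit (b l) (Bs i l)`, disjoint from `a'`; for the set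
`Z` of the `x` with `φ x ≠ Bs i` which agree below `N` use `hP` and `dd_ge`. Now take a condition `p` with `e p ≤ a'`, `y.1 ∈ a`
(`ext_a`), `e p ≤ k y v0` for some `v0`; let `i = Nat.pair (τ p) M` with `M ≥ (p.s y).length`; extend `p` to `p'` by `ext_s` (`i < (p'.s y).length`, everything
else unchanged: `AgOn`, since `y.1 ∉ S`), so `τ p' = τ p`; let `u0 = (p'.s y).getD i 0`, `N = u0 + v0 + 1` and `q ≤ p'` from `hit_B` with `t = N`. Then
`e q` is below `a'`, `k y v0`, `se e y i u0` and the claim gives `e q ≤ ⨆ ..` with `N ≤ u + v`, which is disjoint from `k y v0 ⊓ se e y i u0` by `Part`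
(`hk`, `part_se`), a contradiction. -/
theorem tight_lim (he : DenseEmb (Pos C.G) B e) (hK : Kn (Pos C.G))
    (hct : ∀ β : Ω, (Set.Iio β).Countable)
    (hΩ : ∀ s : Set Ω, s.Countable → ∃ β, ∀ γ ∈ s, γ < β)
    {n : ℕ} {ρ : C.H → Ω} {k : C.K → ℕ → B} (hk : ∀ y, Part (k y)) {a : B}
    {h : Set (Xn C n) → B} (hh : BHom a h) (hP : HP e n ρ k h) (φ : Xn C n → ℕ → Bool) :
    a ≤ ⨆ z : ℕ → Bool, ⨅ i, lit (h {x | φ x i = true}) (z i) := by
  classical
  by_contra hcon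
  have ha' : a ⊓ (⨆ z : ℕ → Bool, ⨅ i, lit (h {x | φ x i = true}) (z i))ᶜ ≠ ⊥ := by
    intro h0
    apply hcon
    rwa [← sdiff_eq, sdiff_eq_bot_iff] at h0
  obtain ⟨β0, S, τ, r, hS, hτ, hr⟩ := hit_B he hK hct hΩ (fun i => h {x | φ x i = true})
  let φ' : C.H → ℕ → Bool := fun x => if hx : C.lev x ≤ n then φ ⟨x, hx⟩ else fun _ => false
  have hsurj := fun j : Ω => C.surj n ρ φ' (fun i => r (Nat.unpair i).1) j
  choose Y hY1 hY2 hY3 hY4 hY5 using hsurj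
  have hex : ∃ j, Y j ∉ S := by
    by_contra hall
    push Not at hall
    have hinj : Function.Injective Y := by
      intro j j' hj
      rw [← hY5 j, ← hY5 j', hj]
    have hc : (Set.univ : Set Ω).Countable := by
      have h1 : (Y ⁻¹' S).Countable := hS.preimage_of_injOn hinj.injOn
      refine h1.mono ?_
      intro j _
      exact hall j
    obtain ⟨β, hβ⟩ := hΩ _ hc
    exact lt_irrefl β (hβ β trivial)
  obtain ⟨j, hj⟩ := hex
  have hy : ((Y j, 0) : C.K) ∈ Yn C n ρ := ⟨hY1 j, hY2 j⟩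
  have hφ : ∀ x : Xn C n, C.phi ((Y j, 0) : C.K).1 x.1 = φ x := by
    intro x
    show C.phi (Y j) x.1 = φ x
    rw [hY3 j x.1 x.2]
    show (if hx : C.lev x.1 ≤ n then φ ⟨x.1, hx⟩ else fun _ => false) = φ x
    rw [dif_pos x.2]
  have hclaim := fun i N => catb_claim hh hP φ hy hφ i N
  generalize hyy : ((Y j, 0) : C.K) = y at hy hφ hclaim
  have hyS : y ∉ Prod.fst ⁻¹' S := by
    rw [← hyy]
    exact hj
  have hbb : ∀ i, C.bb y.1 i = r (Nat.unpair i).1 := by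
    intro i
    rw [← hyy]
    show C.bb (Y j) i = _
    rw [hY4 j]
  obtain ⟨p0, hp0⟩ := he.dense _ ha'
  obtain ⟨p1, hp1, hp10, hyp1⟩ := ext_a p0.2 y
  have hk1 : e ⟨p1, hp1⟩ ≤ ⨆ v, k y v := by rw [(hk y).top]; exact le_top
  obtain ⟨p, hp, v0, hv0⟩ := he.exists_le_of_le_iSup hk1
  have hpa' : e p ≤ a ⊓ (⨆ z : ℕ → Bool, ⨅ i, lit (h {x | φ x i = true}) (z i))ᶜ :=
    ((he.mono _ _ hp).trans (he.mono ⟨p1, hp1⟩ p0 hp10)).trans hp0
  have hyp : y ∈ p.1.st.a := ((le_iff _ _).1 hp).1.a hyp1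
  obtain ⟨p', hp', hp'p, hlen, hc, hm, haa, hA, hs⟩ :=
    ext_s p.2 hyp (Nat.pair (τ p.1) (p.1.st.s y).length)
  have hag : AgOn β0 (Prod.fst ⁻¹' S) p.1 p' := by
    refine ⟨fun γ _ => by rw [hc], hm, fun x _ => by rw [haa], fun x _ => by rw [hA], fun x hx => ?_⟩
    apply hs
    rintro rfl
    exact hyS hx
  have hτ' : τ p.1 = τ p' := hτ p ⟨p', hp'⟩ hag
  set i : ℕ := Nat.pair (τ p.1) (p.1.st.s y).length with hi
  have hyp' : y ∈ p'.st.a := by rw [haa]; exact hyp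
  have hse : e ⟨p', hp'⟩ ≤ se e y i ((p'.st.s y).getD i 0) := le_se hyp' hlen rfl
  generalize hu0 : (p'.st.s y).getD i 0 = u0 at hse
  obtain ⟨q, hq, hqr⟩ := hr ⟨p', hp'⟩ (u0 + v0 + 1)
  have hq1 : e q ≤ e ⟨p', hp'⟩ := he.mono _ _ hq
  have hq2 : e q ≤ e p := hq1.trans (he.mono ⟨p', hp'⟩ p hp'p)
  have hqk : e q ≤ k y v0 := hq2.trans hv0
  have hqs : e q ≤ se e y i u0 := hq1.trans hse
  have hqR : e q ≤ ⨆ v, ⨆ u, ⨆ _ : u0 + v0 + 1 ≤ u + v, k y v ⊓ se e y i u := by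
    refine _root_.le_trans (le_inf (hq2.trans hpa') ?_) (hclaim i (u0 + v0 + 1))
    have h1 : C.bb y.1 i = r (τ p') := by
      rw [hbb i, hi, Nat.unpair_pair, hτ']
    rw [h1]
    exact hqr
  apply he.ne_bot q
  rw [← inf_eq_left.2 hqR, ← le_bot_iff, inf_iSup_eq]
  refine iSup_le fun v => ?_
  rw [inf_iSup_eq]
  refine iSup_le fun u => ?_
  rw [inf_iSup_eq]
  refine iSup_le fun huv => ?_
  by_cases hv : v = v0
  · have hu : u ≠ u0 := by
      rintro rfl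
      subst hv
      omega
    calc e q ⊓ (k y v ⊓ se e y i u) ≤ se e y i u0 ⊓ se e y i u :=
          le_inf (inf_le_left.trans hqs) (inf_le_right.trans inf_le_right)
      _ = ⊥ := (part_se he y i).disj _ _ (Ne.symm hu)
      _ ≤ ⊥ := le_rfl
  · calc e q ⊓ (k y v ⊓ se e y i u) ≤ k y v0 ⊓ k y v :=
          le_inf (inf_le_left.trans hqk) (inf_le_right.trans inf_le_left)
      _ = ⊥ := (hk y).disj _ _ (Ne.symm hv)
      _ ≤ ⊥ := le_rfl

end PSI
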