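import Pool.Agent.H74.PSI.Catb

/-!
# CATC: bad ultrafilters are tight, the claim of section 5
-/

set_option autoImplicit false
set_option linter.unusedSectionVars false

namespace PSI

open BV

variable {Ω : Type} [LinearOrder Ω] [WellFoundedLT Ω] {C : Codes Ω}
  {B : Type} [CompleteBooleanAlgebra B] {e : Pos C.G → B}

/-- the sum of two Boolean valued numbers is not at least its value plus one -/
theorem catc_pair_bot {k s : ℕ → B} (hk : Part k) (hs : Part s) (v0 u0 : ℕ) :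
    (⨆ v, ⨆ u, ⨆ _ : u0 + v0 + 1 ≤ u + v, k v ⊓ s u) ⊓ (k v0 ⊓ s u0) = ⊥ := by
  rw [← le_bot_iff]
  simp only [iSup_inf_eq]
  refine iSup_le fun v => iSup_le fun u => iSup_le fun h => ?_
  by_cases hv : v = v0
  · have hu : u ≠ u0 := by omega
    calc k v ⊓ s u ⊓ (k v0 ⊓ s u0) ≤ s u ⊓ s u0 :=
          inf_le_inf inf_le_right inf_le_right
      _ = ⊥ := hs.disj u u0 hu
  · calc k v ⊓ s u ⊓ (k v0 ⊓ s u0) ≤ k v ⊓ k v0 :=
          inf_le_inf inf_le_left inf_le_left
      _ = ⊥ := hk.disj v v0 hv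

/-- the literals give the value of finite intersections -/
theorem catc_le_fin {X : Type} {a : B} {h : Set X → B} (hh : BHom a h) (φ : X → ℕ → Bool)
    (z : ℕ → Bool) (N : ℕ) :
    a ⊓ ⨅ i, ⨅ _ : i < N, lit (h {x | φ x i = true}) (z i) ≤ h {x | ∀ l < N, φ x l = z l} := by
  induction N with
  | zero =>
    refine inf_le_left.trans ?_
    have : {x | ∀ l < 0, φ x l = z l} = (Set.univ : Set X) := by
      ext x
      simp
    rw [this, hh.univ]
  | succ N ih =>
    have h1 : {x | ∀ l < N + 1, φ x l = z l} = {x | ∀ l < N, φ x l = z l} ∩ {x | φ x N = z N} := by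
      ext x
      simp only [Set.mem_ofPred_eq, Set.mem_inter_iff]
      constructor
      · intro hx
        exact ⟨fun l hl => hx l (hl.trans (Nat.lt_succ_self N)), hx N (Nat.lt_succ_self N)⟩
      · rintro ⟨hx1, hx2⟩ l hl
        rcases Nat.lt_succ_iff_lt_or_eq.1 hl with hl | rfl
        · exact hx1 l hl
        · exact hx2
    rw [h1, hh.inter]
    refine le_inf ?_ ?_
    · refine _root_.le_trans (inf_le_inf_left _ ?_) ih
      exact le_iInf fun i => le_iInf fun hi =>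
        iInf_le_of_le i (iInf_le_of_le (Nat.lt_succ_of_lt hi) le_rfl)
    · refine _root_.le_trans (inf_le_inf_left _ (iInf_le_of_le N (iInf_le_of_le (Nat.lt_succ_self N) le_rfl))) ?_
      cases hz : z N with
      | true => exact inf_le_right
      | false =>
        have h2 : {x | φ x N = false} = {x | φ x N = true}ᶜ := by
          ext x
          simp
        rw [h2, hh.compl]
        exact le_rfl

/-- case (ii). Let `y` be of level `n + 1`, coding `ρ`, `φ`, the constant sequence `z` and any `j` (`C.surj`, `Ω` is nonempty by `hΩ ∅`). For every `N` the set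
`{x | φ x ≠ z}` is contained, up to the set `{x | ∃ l < N, φ x l ≠ z l}` whose value is disjoint from the left side, in
`Z = {x | φ x ≠ z, φ x l = z l for l < N}`, and `h Z ≤ ⨆ v, ⨆ u, ⨆ _ : N ≤ u + v, k y v ⊓ se e y 0 u` by `hP`, `dd_ge`. The infimum over `N` of the right sides is
`⊥`: its product with `k y v0 ⊓ se e y 0 u0` is `⊥` (take `N = u0 + v0 + 1`, `Part`), and these have supremum `⊤`. -/
theorem tight_const (he : DenseEmb (Pos C.G) B e)
    (hΩ : ∀ s : Set Ω, s.Countable → ∃ β, ∀ γ ∈ s, γ < β)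
    {n : ℕ} {ρ : C.H → Ω} {k : C.K → ℕ → B} (hk : ∀ y, Part (k y)) {a : B}
    {h : Set (Xn C n) → B} (hh : BHom a h) (hP : HP e n ρ k h) (φ : Xn C n → ℕ → Bool)
    (z : ℕ → Bool) :
    a ⊓ ⨅ i, lit (h {x | φ x i = true}) (z i) ≤ h {x | φ x = z} := by
  classical
  obtain ⟨j0, -⟩ := hΩ ∅ Set.countable_empty
  obtain ⟨yh, hlev, hrho, hphi, hbb, -⟩ := C.surj n ρ
    (fun x => if hx : C.lev x ≤ n then φ ⟨x, hx⟩ else fun _ => false) (fun _ => z) j0
  have hy : ((yh, 0) : C.K) ∈ Yn C n ρ := ⟨hlev, hrho⟩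
  have hphi' : ∀ x : Xn C n, C.phi yh x.1 = φ x := by
    intro x
    rw [hphi x.1 x.2, dif_pos x.2]
  have key : ∀ N, (a ⊓ ⨅ i, lit (h {x | φ x i = true}) (z i)) ⊓ (h {x | φ x = z})ᶜ ≤
      ⨆ v, ⨆ u, ⨆ _ : N ≤ u + v, k (yh, 0) v ⊓ se e (yh, 0) 0 u := by
    intro N
    have h1 : a ⊓ (⨅ i, lit (h {x | φ x i = true}) (z i)) ≤ h {x | ∀ l < N, φ x l = z l} :=
      (inf_le_inf_left _ (le_iInf fun i => le_iInf fun _ => iInf_le _ i)).trans
        (catc_le_fin hh φ z N)
    have h2 : {x | ∀ l < N, φ x l = z l} ⊆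
        {x | φ x = z} ∪ {x | φ x ≠ z ∧ ∀ l < N, φ x l = z l} := by
      intro x hx
      by_cases hxz : φ x = z
      · exact Or.inl hxz
      · exact Or.inr ⟨hxz, hx⟩
    have h3 := h1.trans (hh.mono h2)
    rw [hh.union] at h3
    have h4 : h {x | φ x ≠ z ∧ ∀ l < N, φ x l = z l} ≤
        ⨆ v, ⨆ u, ⨆ _ : N ≤ u + v, k (yh, 0) v ⊓ se e (yh, 0) 0 u := by
      refine hP (yh, 0) hy 0 N _ fun x hx => ?_
      rw [hphi', hbb]
      exact dd_ge hx.1 hx.2
    refine _root_.le_trans ?_ h4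
    refine (inf_le_inf_right _ h3).trans ?_
    rw [inf_sup_right, inf_compl_self, bot_sup_eq]
    exact inf_le_left
  have hbot : (a ⊓ ⨅ i, lit (h {x | φ x i = true}) (z i)) ⊓ (h {x | φ x = z})ᶜ = ⊥ := by
    generalize hb : (a ⊓ ⨅ i, lit (h {x | φ x i = true}) (z i)) ⊓ (h {x | φ x = z})ᶜ = b at key
    have h5 : b = ⨆ v0, ⨆ u0, b ⊓ (k (yh, 0) v0 ⊓ se e (yh, 0) 0 u0) := by
      simp only [← inf_iSup_eq]
      rw [(part_se he (yh, 0) 0).top]
      simp only [inf_top_eq]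
      rw [(hk (yh, 0)).top, inf_top_eq]
    rw [h5, ← le_bot_iff]
    refine iSup_le fun v0 => iSup_le fun u0 => ?_
    rw [← catc_pair_bot (hk (yh, 0)) (part_se he (yh, 0) 0) v0 u0]
    exact inf_le_inf_right _ (key _)
  exact disjoint_compl_right_iff.1 (disjoint_iff.2 hbot)

/-- `tight_lim`, `tight_const` -/
theorem tight_of_HP (he : DenseEmb (Pos C.G) B e) (hK : Kn (Pos C.G))
    (hct : ∀ β : Ω, (Set.Iio β).Countable)
    (hΩ : ∀ s : Set Ω, s.Countable → ∃ β, ∀ γ ∈ s, γ < β)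
    {n : ℕ} {ρ : C.H → Ω} {k : C.K → ℕ → B} (hk : ∀ y, Part (k y)) {a : B}
    {h : Set (Xn C n) → B} (hh : BHom a h) (hP : HP e n ρ k h) : Tight a h := by
  intro φ
  have h1 := tight_lim he hK hct hΩ hk hh hP φ
  rw [← inf_eq_left.2 h1, inf_iSup_eq]
  exact iSup_mono fun z => tight_const he hΩ hk hh hP φ z

end PSI
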