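import Mathlib

/-!
# PART: partitions of unity
-/

set_option autoImplicit false
set_option linter.unusedSectionVars false

namespace PSI

variable {B : Type} [CompleteBooleanAlgebra B]

/-- well-order `ι` (`WellOrderingRel`) and let `p i = W i ⊓ (⨆ j < i, W j)ᶜ` -/
theorem exists_refine {ι : Type} (W : ι → B) (h : (⨆ i, W i) = ⊤) : ∃ p : ι → B,
    (∀ i, p i ≤ W i) ∧ (⨆ i, p i) = ⊤ ∧ ∀ i j, i ≠ j → p i ⊓ p j = ⊥ := by
  classical
  obtain ⟨hl, hw⟩ := exists_wellFoundedLT ι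
  letI := hl
  haveI := hw
  have hdj : ∀ i j : ι, i < j → (W i ⊓ (⨆ k : Set.Iio i, W k)ᶜ) ⊓ (W j ⊓ (⨆ k : Set.Iio j, W k)ᶜ) = ⊥ := by
    intro i j hij
    rw [eq_bot_iff]
    have h1 : W i ≤ ⨆ k : Set.Iio j, W k := le_iSup (fun k : Set.Iio j => W k) ⟨i, hij⟩
    calc (W i ⊓ (⨆ k : Set.Iio i, W k)ᶜ) ⊓ (W j ⊓ (⨆ k : Set.Iio j, W k)ᶜ)
        ≤ W i ⊓ (⨆ k : Set.Iio j, W k)ᶜ := inf_le_inf inf_le_left inf_le_right
      _ ≤ (⨆ k : Set.Iio j, W k) ⊓ (⨆ k : Set.Iio j, W k)ᶜ := inf_le_inf_right _ h1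
      _ = ⊥ := inf_compl_eq_bot
  refine ⟨fun i => W i ⊓ (⨆ j : Set.Iio i, W j)ᶜ, fun i => inf_le_left, ?_, fun i j hij => ?_⟩
  · rw [eq_top_iff, ← h]
    refine iSup_le fun i => ?_
    induction i using WellFoundedLT.induction with
    | ind i ih =>
      have h1 : W i ≤ (W i ⊓ (⨆ j : Set.Iio i, W j)ᶜ) ⊔ ⨆ j : Set.Iio i, W j := by
        rw [sup_inf_right, compl_sup_eq_top, inf_top_eq]
        exact le_sup_left
      refine h1.trans (sup_le (le_iSup (fun i => W i ⊓ (⨆ j : Set.Iio i, W j)ᶜ) i) ?_)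
      exact iSup_le fun j => ih j.1 j.2
  · rcases lt_or_gt_of_ne hij with h1 | h1
    · exact hdj i j h1
    · rw [inf_comm]
      exact hdj j i h1

/-- finitely many partitions: the products over `σ : Fin n → ι` form a partition (finite distributivity `iInf_iSup_eq`-type, or induction on `n`) -/
theorem part_prod {ι : Type} (n : ℕ) (p : Fin n → ι → B) (h : ∀ m, (⨆ i, p m i) = ⊤)
    (hd : ∀ m i j, i ≠ j → p m i ⊓ p m j = ⊥) :
    (⨆ σ : Fin n → ι, ⨅ m, p m (σ m)) = ⊤ ∧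
      ∀ σ σ' : Fin n → ι, σ ≠ σ' → (⨅ m, p m (σ m)) ⊓ (⨅ m, p m (σ' m)) = ⊥ := by
  constructor
  · induction n with
    | zero =>
      rw [eq_top_iff]
      refine le_trans ?_ (le_iSup _ (fun m => Fin.elim0 m))
      exact le_iInf fun m => Fin.elim0 m
    | succ n ih =>
      have h1 := ih (fun m => p m.succ) (fun m => h m.succ) (fun m => hd m.succ)
      have h2 := h 0
      rw [eq_top_iff]
      calc (⊤ : B) = (⨆ i, p 0 i) ⊓ ⨆ σ : Fin n → ι, ⨅ m, p m.succ (σ m) := by rw [h1, h2, inf_top_eq]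
        _ = ⨆ i, ⨆ σ : Fin n → ι, p 0 i ⊓ ⨅ m, p m.succ (σ m) := by
            rw [iSup_inf_eq]
            exact iSup_congr fun i => inf_iSup_eq _ _
        _ ≤ _ := by
            refine iSup_le fun i => iSup_le fun σ => ?_
            refine le_trans ?_ (le_iSup _ (Fin.cons i σ : Fin (n + 1) → ι))
            refine le_iInf fun m => ?_
            refine Fin.cases ?_ (fun m => ?_) m
            · exact inf_le_left
            · rw [Fin.cons_succ]
              exact inf_le_right.trans (iInf_le _ m)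
  · intro σ σ' hσ
    obtain ⟨m, hm⟩ := Function.ne_iff.1 hσ
    rw [eq_bot_iff, ← hd m (σ m) (σ' m) hm]
    exact inf_le_inf (iInf_le _ m) (iInf_le _ m)

/-- image of a partition under a map -/
theorem part_image {ι κ : Type} (p : ι → B) (h : (⨆ i, p i) = ⊤)
    (hd : ∀ i j, i ≠ j → p i ⊓ p j = ⊥) (f : ι → κ) :
    (⨆ s, ⨆ i, ⨆ _ : f i = s, p i) = ⊤ ∧
      ∀ s t, s ≠ t → (⨆ i, ⨆ _ : f i = s, p i) ⊓ (⨆ i, ⨆ _ : f i = t, p i) = ⊥ := by
  constructor
  · rw [eq_top_iff, ← h]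
    refine iSup_le fun i => ?_
    refine le_trans ?_ (le_iSup _ (f i))
    exact le_trans (le_iSup (fun _ : f i = f i => p i) rfl)
      (le_iSup (fun j => ⨆ _ : f j = f i, p j) i)
  · intro s t hst
    rw [iSup₂_inf_eq, iSup_eq_bot]
    intro i
    rw [iSup_eq_bot]
    intro hi
    rw [inf_iSup₂_eq, iSup_eq_bot]
    intro j
    rw [iSup_eq_bot]
    intro hj
    exact hd i j fun hij => hst (by rw [← hi, ← hj, hij])

end PSI
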