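import Pool.Agent.H74.PSI.Doml
import Pool.Agent.H74.PSI.Codes

/-!
# RHO: a ground model function `ρ` such that `c (ρ x)` dominates `f x` (E3)
-/

set_option autoImplicit false
set_option linter.unusedSectionVars false

namespace PSI

open BV

variable {Ω : Type} [LinearOrder Ω] [WellFoundedLT Ω] {C : Codes Ω}
  {B : Type} [CompleteBooleanAlgebra B] {e : Pos C.G → B}

/-- `dom_level` gives `β0 x` for every `x : C.K`; `ρ h` = an upper bound of the `β0 (h, i)`, `i ∈ ℕ` (`hΩ`) -/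
theorem exists_rho (he : DenseEmb (Pos C.G) B e) (hK : Kn (Pos C.G))
    (hΩ : ∀ s : Set Ω, s.Countable → ∃ β, ∀ γ ∈ s, γ < β)
    (f : C.K → ℕ → ℕ → B) (hf : ∀ x n, Part (f x n)) : ∃ ρ : C.H → Ω, ∀ x : C.K,
      (⨆ m, ⨅ n, ⨅ _ : m ≤ n, ⨆ v, ⨆ w, ⨆ _ : v < w, f x n v ⊓ ce e (ρ x.1) n w) = ⊤ := by
  choose β0 hβ0 using fun x : C.K => dom_level he hK hΩ (f x) (fun n => (hf x n).top)
  choose ρ hρ using fun h : C.H => hΩ (Set.range fun i : ℕ => β0 (h, i)) (Set.countable_range _)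
  exact ⟨ρ, fun x => hβ0 x (ρ x.1) (hρ x.1 _ ⟨x.2, rfl⟩).le⟩

end PSI
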