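import Pool.Agent.H74.PSI.Claim
import Pool.Agent.H74.PSI.Part
import Pool.Agent.H74.PSI.Rho

/-!
# CATF: the catching property
-/

set_option autoImplicit false
set_option linter.unusedSectionVars false

namespace PSI

open BV

variable {Ω : Type} [LinearOrder Ω] [WellFoundedLT Ω] {C : Codes Ω}
  {B : Type} [CompleteBooleanAlgebra B] {e : Pos C.G → B}

open Classical in
/-- the finite set `Φ n σ` -/
noncomputable def catS {n : ℕ} (σ : Fin (n + 1) → Finset C.K × Finset C.H) : Finset C.K :=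
  (σ (Fin.last n)).1 ∪ (Finset.univ.biUnion fun m => (σ m).2) ×ˢ Finset.range (n + 1)

theorem mem_catS {n : ℕ} {σ : Fin (n + 1) → Finset C.K × Finset C.H} {x : C.K} :
    x ∈ catS σ ↔ x ∈ (σ (Fin.last n)).1 ∨ (∃ m, x.1 ∈ (σ m).2) ∧ x.2 < n + 1 := by
  classical
  unfold catS
  rw [Finset.mem_union, Finset.mem_product, Finset.mem_biUnion, Finset.mem_range]
  simp

/-- case 1 -/
theorem catf_case1 (he : DenseEmb (Pos C.G) B e) (f : C.K → ℕ → ℕ → B)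
    (p : ℕ → Finset C.K × Finset C.H → B) (hp1 : ∀ n, (⨆ I, p n I) = ⊤)
    (hp2 : ∀ n I J, I ≠ J → p n I ⊓ p n J = ⊥) (x : C.K) (q : Pos C.G) (m : ℕ)
    (I : Finset C.K × Finset C.H) (hq : e q ≤ p m I) (hI : x.1 ∈ I.2) :
    ∃ u, u ≤ q ∧ ∃ n S, e u ≤ (⨆ σ : Fin (n + 1) → Finset C.K × Finset C.H,
      ⨆ _ : catS σ = S, ⨅ l : Fin (n + 1), p l (σ l)) ⊓ caught (Ae e) f n S x := by
  set n := max m x.2 with hn
  obtain ⟨hpr, -⟩ := part_prod (n + 1) (fun l : Fin (n + 1) => p l) (fun l => hp1 l)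
    (fun l => hp2 l)
  have h1 : e q ≤ ⨆ σ : Fin (n + 1) → Finset C.K × Finset C.H, ⨅ l : Fin (n + 1), p l (σ l) := by
    rw [hpr]
    exact le_top
  obtain ⟨u, huq, σ, hσ⟩ := he.exists_le_of_le_iSup h1
  refine ⟨u, huq, n, catS σ, le_inf (hσ.trans ?_) ?_⟩
  · exact le_iSup_of_le σ (le_iSup_of_le rfl le_rfl)
  · have hmn : m < n + 1 := by omega
    have h2 : σ ⟨m, hmn⟩ = I := by
      by_contra hne
      apply he.ne_bot u
      rw [← le_bot_iff, ← hp2 m _ _ hne]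
      exact le_inf (hσ.trans (iInf_le _ (⟨m, hmn⟩ : Fin (n + 1)))) ((he.mono _ _ huq).trans hq)
    have h3 : x ∈ catS σ := by
      rw [mem_catS]
      refine Or.inr ⟨⟨⟨m, hmn⟩, ?_⟩, by omega⟩
      rw [h2]
      exact hI
    unfold caught
    rw [iSup_pos h3, top_sup_eq]
    exact le_top

/-- case 2 -/
theorem catf_case2 (he : DenseEmb (Pos C.G) B e) (ρ : C.H → Ω) (f : C.K → ℕ → ℕ → B)
    (p : ℕ → Finset C.K × Finset C.H → B) (hp1 : ∀ n, (⨆ I, p n I) = ⊤)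
    (hp2 : ∀ n I J, I ≠ J → p n I ⊓ p n J = ⊥)
    (hpW : ∀ n I, p n I ≤ ⨆ _ : ((I.1 : Finset C.K) : Set C.K) ⊆ Yn C n ρ,
      WW e n ρ (fun y v => f y n v) I)
    (x : C.K) (t : Pos C.G) (hno : ∀ q ≤ t, ∀ m I, e q ≤ p m I → x.1 ∉ I.2)
    (hρ : (⨆ m, ⨅ n, ⨅ _ : m ≤ n, ⨆ v, ⨆ w, ⨆ _ : v < w, f x n v ⊓ ce e (ρ x.1) n w) = ⊤) :
    ∃ u, u ≤ t ∧ ∃ n S, e u ≤ (⨆ σ : Fin (n + 1) → Finset C.K × Finset C.H,
      ⨆ _ : catS σ = S, ⨅ l : Fin (n + 1), p l (σ l)) ⊓ caught (Ae e) f n S x := by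
  obtain ⟨t1, ht1, m, hm⟩ := he.exists_le_of_le_iSup (p := t) (le_top.trans_eq hρ.symm)
  set n := max m (C.lev x.1) with hn
  have hmn := hm.trans (iInf₂_le n (le_max_left m (C.lev x.1)))
  obtain ⟨hpr, -⟩ := part_prod (n + 1) (fun l : Fin (n + 1) => p l) (fun l => hp1 l)
    (fun l => hp2 l)
  have h1 : e t1 ≤ ⨆ σ : Fin (n + 1) → Finset C.K × Finset C.H,
      ⨅ l : Fin (n + 1), p l (σ l) := by
    rw [hpr]
    exact le_top
  obtain ⟨t2, ht2, σ, hσ⟩ := he.exists_le_of_le_iSup h1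
  have h2 : e t2 ≤ p n (σ (Fin.last n)) := hσ.trans (iInf_le _ (Fin.last n))
  have h3 : x.1 ∉ (σ (Fin.last n)).2 := hno t2 (ht2.trans ht1) n _ h2
  obtain ⟨t3, ht3, hY, h4⟩ := he.exists_le_of_le_iSup (h2.trans (hpW n _))
  have h5 : e t3 ≤ ⨆ y ∈ (σ (Fin.last n)).1, GG e (fun y v => f y n v) ρ n x y := by
    refine h4.trans ?_
    unfold WW
    exact iInf₂_le_of_le x ⟨le_max_right _ _, h3⟩ le_rfl
  obtain ⟨t4, ht4, y, h6⟩ := he.exists_le_of_le_iSup h5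
  obtain ⟨t5, ht5, hy, h7⟩ := he.exists_le_of_le_iSup h6
  unfold GG at h7
  obtain ⟨t6, ht6, j, h8⟩ := he.exists_le_of_le_iSup h7
  have h9 : e t6 ≤ ⨆ w, ⨆ _ : w < j, ce e (ρ x.1) n w := h8.trans inf_le_right
  have h10 : e t6 ≤ Ae e x j ⊓ Ae e y j ⊓ (⨆ v, ⨆ _ : v ≤ j, f y n v) := h8.trans inf_le_left
  obtain ⟨t7, ht7, w, h11⟩ := he.exists_le_of_le_iSup h9
  obtain ⟨t8, ht8, hw, h12⟩ := he.exists_le_of_le_iSup h11
  have ht81 : t8 ≤ t1 := ht8.trans (ht7.trans (ht6.trans (ht5.trans (ht4.trans (ht3.trans ht2)))))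
  obtain ⟨t9, ht9, v, h13⟩ := he.exists_le_of_le_iSup ((he.mono _ _ ht81).trans hmn)
  obtain ⟨t10, ht10, w', h14⟩ := he.exists_le_of_le_iSup h13
  obtain ⟨t11, ht11, hvw, h15⟩ := he.exists_le_of_le_iSup h14
  have ht118 : t11 ≤ t8 := ht11.trans (ht10.trans ht9)
  have hww : w' = w := by
    by_contra hne
    apply he.ne_bot t11
    rw [← le_bot_iff, ← (part_ce he (ρ x.1) n).disj _ _ hne]
    exact le_inf (h15.trans inf_le_right) ((he.mono _ _ ht118).trans h12)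
  have hvj : v ≤ j := by omega
  have ht116 : t11 ≤ t6 := ht118.trans (ht8.trans ht7)
  have h16 := (he.mono _ _ ht116).trans h10
  refine ⟨t11, ht118.trans (ht81.trans ht1), n, catS σ, le_inf ?_ ?_⟩
  · have ht112 : t11 ≤ t2 := ht116.trans (ht6.trans (ht5.trans (ht4.trans ht3)))
    exact ((he.mono _ _ ht112).trans hσ).trans (le_iSup_of_le σ (le_iSup_of_le rfl le_rfl))
  · unfold caught
    refine le_sup_of_le_right ?_
    refine le_iSup₂_of_le y (mem_catS.2 (Or.inl hy)) (le_iSup_of_le j ?_)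
    refine le_inf (le_inf (h16.trans inf_le_left) ?_) (h16.trans inf_le_right)
    exact le_iSup₂_of_le v hvj (h15.trans inf_le_left)

/-- Section 5. `ρ` from `exists_rho`; for every `n` apply `claim` with `k y v = f y n v` and `exists_refine` to
`W : Finset C.K × Finset C.H → B`, `W I = if ↑I.1 ⊆ Yn C n ρ then WW .. else ⊥`: partitions `p n I ≤ W n I`. For `σ : Fin (n + 1) → Finset C.K × Finset C.H` let
`Φ n σ = (σ n).1 ∪ ((⋃ m ≤ n, (σ m).2) ×ˢ Finset.range (n + 1))` and `F n S = ⨆ σ, ⨆ _ : Φ n σ = S, ⨅ m, p m (σ m)` (`part_prod`, `part_image`).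
Caught: let `x = (h, i)` and let `t` be any condition; we find `q ≤ t`, `n`, `S` with `e q ≤ F n S ⊓ caught (Ae e) f n S x` (`eq_top_of_dense`).
Case 1: there are `q ≤ t`, `m`, `I` with `e q ≤ p m I`, `h ∈ I.2`. Let `n = max m i`; extend `q` to decide all `σ l`, `l ≤ n` (`part_prod`, `DenseEmb.exists_le_of_le_iSup`); `σ m = I` by
disjointness, so `x ∈ Φ n σ`. Case 2: otherwise; extend `t` to `t'` with `e t' ≤ ⨅ n ≥ m, ⨆ v w (v < w), f x n v ⊓ ce e (ρ h) n w` for some `m`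
(`exists_rho`); let `n = max m (C.lev h)`, extend to decide the `σ l`, `l ≤ n`; `h ∉ (σ n).2`, so `e t'' ≤ W n (σ n)` gives
`e t'' ≤ ⨆ y ∈ (σ n).1, GG e (fun y v => f y n v) ρ n x y`; extend to `q` below one `GG .. x y`, and below `Ae e x j ⊓ Ae e y j ⊓ f y n v ⊓ ce e (ρ h) n w` with
`v ≤ j`, `w < j`, and below `f x n v' ⊓ ce e (ρ h) n w'`, `v' < w'`; `w = w'` by `part_ce`, so `v' ≤ j`: caught by `y ∈ Φ n σ`. -/
theorem catching (he : DenseEmb (Pos C.G) B e) (hK : Kn (Pos C.G)) (hA : Apx B)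
    (hct : ∀ β : Ω, (Set.Iio β).Countable)
    (hΩ : ∀ s : Set Ω, s.Countable → ∃ β, ∀ γ ∈ s, γ < β)
    (f : C.K → ℕ → ℕ → B) (hf : ∀ x n, Part (f x n)) :
    ∃ F : ℕ → Finset C.K → B,
      (∀ n, (⨆ S, F n S) = ⊤) ∧ (∀ n S S', S ≠ S' → F n S ⊓ F n S' = ⊥) ∧
      ∀ x, (⨆ n, ⨆ S, F n S ⊓ caught (Ae e) f n S x) = ⊤ := by
  obtain ⟨ρ, hρ⟩ := exists_rho he hK hΩ f hf
  have hcl : ∀ n, (⨆ I : Finset C.K × Finset C.H, ⨆ _ : ((I.1 : Finset C.K) : Set C.K) ⊆ Yn C n ρ,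
      WW e n ρ (fun y v => f y n v) I) = ⊤ := fun n =>
    claim he hK hA hct hΩ n ρ (fun y v => f y n v) (fun y => hf y n)
  choose p hp0 hp1 hp2 using fun n => exists_refine _ (hcl n)
  refine ⟨fun n S => ⨆ σ : Fin (n + 1) → Finset C.K × Finset C.H,
      ⨆ _ : catS σ = S, ⨅ l : Fin (n + 1), p l (σ l), ?_, ?_, ?_⟩
  · intro n
    obtain ⟨h1, h2⟩ := part_prod (n + 1) (fun l : Fin (n + 1) => p l) (fun l => hp1 l)
      (fun l => hp2 l)
    exact (part_image _ h1 h2 catS).1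
  · intro n
    obtain ⟨h1, h2⟩ := part_prod (n + 1) (fun l : Fin (n + 1) => p l) (fun l => hp1 l)
      (fun l => hp2 l)
    exact (part_image _ h1 h2 catS).2
  · intro x
    refine eq_top_of_dense he fun t => ?_
    have key : ∃ u, u ≤ t ∧ ∃ n S, e u ≤ (⨆ σ : Fin (n + 1) → Finset C.K × Finset C.H,
        ⨆ _ : catS σ = S, ⨅ l : Fin (n + 1), p l (σ l)) ⊓ caught (Ae e) f n S x := by
      by_cases h : ∃ q ≤ t, ∃ m I, e q ≤ p m I ∧ x.1 ∈ I.2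
      · obtain ⟨q, hq, m, I, h1, h2⟩ := h
        obtain ⟨u, hu, h3⟩ := catf_case1 he f p hp1 hp2 x q m I h1 h2
        exact ⟨u, hu.trans hq, h3⟩
      · push Not at h
        exact catf_case2 he ρ f p hp1 hp2 hp0 x t h (hρ x)
    obtain ⟨u, hu, n, S, h1⟩ := key
    exact ⟨u, hu, h1.trans (le_iSup₂_of_le n S le_rfl)⟩

end PSI
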