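import Pool.Agent.H74.PSI.Catc

/-!
# CLAIM: finitely many indices catch almost all classes (claim of section 5)
-/

set_option autoImplicit false
set_option linter.unusedSectionVars false

namespace PSI

open BV

variable {Ω : Type} [LinearOrder Ω] [WellFoundedLT Ω] {C : Codes Ω}
  {B : Type} [CompleteBooleanAlgebra B] {e : Pos C.G → B}

/-- the value of: all `x` of level at most `n` with class not in `I.2` are caught by some `y ∈ I.1` -/
noncomputable def WW (e : Pos C.G → B) (n : ℕ) (ρ : C.H → Ω) (k : C.K → ℕ → B)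
    (I : Finset C.K × Finset C.H) : B :=
  ⨅ x : C.K, ⨅ _ : C.lev x.1 ≤ n ∧ x.1 ∉ I.2, ⨆ y ∈ I.1, GG e k ρ n x y

/-- auxiliary: the value of: some `x` with class in `Z`, not in `I.2`, is not caught by any `y ∈ I.1` -/
noncomputable def CLT (e : Pos C.G → B) (n : ℕ) (ρ : C.H → Ω) (k : C.K → ℕ → B)
    (I : Finset C.K × Finset C.H) (Z : Set (Xn C n)) : B :=
  ⨆ (x : C.K) (hx : C.lev x.1 ≤ n) (_ : x.1 ∉ I.2) (_ : (⟨x.1, hx⟩ : Xn C n) ∈ Z),
    ⨅ y ∈ I.1, (GG e k ρ n x y)ᶜ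

theorem claim_le_CLT (n : ℕ) (ρ : C.H → Ω) (k : C.K → ℕ → B)
    (I : Finset C.K × Finset C.H) (Z : Set (Xn C n)) {x : C.K} (hx : C.lev x.1 ≤ n)
    (h1 : x.1 ∉ I.2) (h2 : (⟨x.1, hx⟩ : Xn C n) ∈ Z) :
    (⨅ y ∈ I.1, (GG e k ρ n x y)ᶜ) ≤ CLT e n ρ k I Z :=
  le_iSup_of_le x (le_iSup_of_le hx (le_iSup_of_le h1 (le_iSup_of_le h2 le_rfl)))

theorem claim_CLT_le (n : ℕ) (ρ : C.H → Ω) (k : C.K → ℕ → B)
    (I : Finset C.K × Finset C.H) (Z : Set (Xn C n)) {b : B}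
    (h : ∀ (x : C.K) (hx : C.lev x.1 ≤ n), x.1 ∉ I.2 → (⟨x.1, hx⟩ : Xn C n) ∈ Z →
      (⨅ y ∈ I.1, (GG e k ρ n x y)ᶜ) ≤ b) : CLT e n ρ k I Z ≤ b :=
  iSup_le fun x => iSup_le fun hx => iSup_le fun h1 => iSup_le fun h2 => h x hx h1 h2

theorem claim_CLT_empty (n : ℕ) (ρ : C.H → Ω) (k : C.K → ℕ → B)
    (I : Finset C.K × Finset C.H) : CLT e n ρ k I ∅ = ⊥ :=
  le_bot_iff.1 (claim_CLT_le n ρ k I ∅ fun _ _ _ h => absurd h (Set.notMem_empty _))

theorem claim_CLT_mono (n : ℕ) (ρ : C.H → Ω) (k : C.K → ℕ → B)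
    {I J : Finset C.K × Finset C.H} (h1 : I.1 ⊆ J.1) (h2 : I.2 ⊆ J.2) (Z : Set (Xn C n)) :
    CLT e n ρ k J Z ≤ CLT e n ρ k I Z :=
  claim_CLT_le n ρ k J Z fun _ hx hJ hZ =>
    (iInf_le_iInf_of_subset h1).trans (claim_le_CLT n ρ k I Z hx (fun h => hJ (h2 h)) hZ)

theorem claim_CLT_union (n : ℕ) (ρ : C.H → Ω) (k : C.K → ℕ → B)
    (I : Finset C.K × Finset C.H) (Y Z : Set (Xn C n)) :
    CLT e n ρ k I (Y ∪ Z) = CLT e n ρ k I Y ⊔ CLT e n ρ k I Z := by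
  apply le_antisymm
  · refine claim_CLT_le n ρ k I _ fun x hx h1 h2 => ?_
    rcases h2 with h2 | h2
    · exact (claim_le_CLT n ρ k I Y hx h1 h2).trans le_sup_left
    · exact (claim_le_CLT n ρ k I Z hx h1 h2).trans le_sup_right
  · refine sup_le ?_ ?_
    · exact claim_CLT_le n ρ k I _ fun x hx h1 h2 => claim_le_CLT n ρ k I _ hx h1 (Or.inl h2)
    · exact claim_CLT_le n ρ k I _ fun x hx h1 h2 => claim_le_CLT n ρ k I _ hx h1 (Or.inr h2)

theorem claim_CLT_univ (n : ℕ) (ρ : C.H → Ω) (k : C.K → ℕ → B)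
    (I : Finset C.K × Finset C.H) : (WW e n ρ k I)ᶜ ≤ CLT e n ρ k I Set.univ := by
  unfold WW
  rw [compl_iInf]
  refine iSup_le fun x => ?_
  rw [compl_iInf]
  refine iSup_le fun hx => ?_
  rw [compl_iSup]
  simp only [compl_iSup]
  exact claim_le_CLT n ρ k I _ hx.1 hx.2 (Set.mem_univ _)

/-- the possibility measure -/
noncomputable def CLW (e : Pos C.G → B) (n : ℕ) (ρ : C.H → Ω) (k : C.K → ℕ → B) (a : B)
    (Z : Set (Xn C n)) : B :=
  a ⊓ ⨅ I : {I : Finset C.K × Finset C.H // ↑I.1 ⊆ Yn C n ρ}, CLT e n ρ k I.1 Z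

theorem claim_CLW_le (n : ℕ) (ρ : C.H → Ω) (k : C.K → ℕ → B) (a : B)
    (I : Finset C.K × Finset C.H) (hI : ↑I.1 ⊆ Yn C n ρ) (Z : Set (Xn C n)) :
    CLW e n ρ k a Z ≤ CLT e n ρ k I Z :=
  inf_le_right.trans (iInf_le (fun I : {I : Finset C.K × Finset C.H // ↑I.1 ⊆ Yn C n ρ} =>
    CLT e n ρ k I.1 Z) ⟨I, hI⟩)

open Classical in
theorem claim_pom (n : ℕ) (ρ : C.H → Ω) (k : C.K → ℕ → B) {a : B}
    (ha : ∀ I : Finset C.K × Finset C.H, ↑I.1 ⊆ Yn C n ρ → a ≤ (WW e n ρ k I)ᶜ) :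
    PoM a (CLW e n ρ k a) where
  empty := by
    rw [← le_bot_iff, ← claim_CLT_empty (e := e) n ρ k (∅, ∅)]
    exact claim_CLW_le n ρ k a (∅, ∅) (by simp) ∅
  univ := by
    refine le_antisymm inf_le_left (le_inf le_rfl (le_iInf fun I => ?_))
    exact (ha I.1 I.2).trans (claim_CLT_univ n ρ k I.1)
  union := by
    intro Y Z
    have key : (⨅ I : {I : Finset C.K × Finset C.H // ↑I.1 ⊆ Yn C n ρ},
        CLT e n ρ k I.1 (Y ∪ Z)) = (⨅ I : {I : Finset C.K × Finset C.H // ↑I.1 ⊆ Yn C n ρ},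
        CLT e n ρ k I.1 Y) ⊔ (⨅ I : {I : Finset C.K × Finset C.H // ↑I.1 ⊆ Yn C n ρ},
        CLT e n ρ k I.1 Z) := by
      apply le_antisymm
      · rw [iInf_sup_iInf]
        refine le_iInf fun ⟨I, J⟩ => ?_
        refine (iInf_le _ (⟨(I.1.1 ∪ J.1.1, I.1.2 ∪ J.1.2), ?_⟩ :
          {I : Finset C.K × Finset C.H // ↑I.1 ⊆ Yn C n ρ})).trans ?_
        · rw [Finset.coe_union]
          exact Set.union_subset I.2 J.2
        · rw [claim_CLT_union]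
          exact sup_le_sup (claim_CLT_mono n ρ k Finset.subset_union_left
            Finset.subset_union_left Y) (claim_CLT_mono n ρ k Finset.subset_union_right
            Finset.subset_union_right Z)
      · refine le_iInf fun I => ?_
        rw [claim_CLT_union]
        exact sup_le_sup (iInf_le _ I) (iInf_le _ I)
    unfold CLW
    rw [key, inf_sup_left]

theorem claim_HP (he : DenseEmb (Pos C.G) B e) (n : ℕ) (ρ : C.H → Ω) (k : C.K → ℕ → B)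
    (hk : ∀ y, Part (k y)) {a : B} {h : Set (Xn C n) → B} (hw : ∀ Z, h Z ≤ CLW e n ρ k a Z) :
    HP e n ρ k h := by
  intro y hy i N Z hZ
  refine (hw Z).trans ((claim_CLW_le n ρ k a ({y}, ∅) (by simpa using hy) Z).trans ?_)
  refine claim_CLT_le n ρ k _ Z fun x hx _ hxZ => ?_
  refine (iInf₂_le y (Finset.mem_singleton_self y)).trans ?_
  refine (GG_compl he (hk y) hx hy.1 (hy.2 _ hx)).trans ?_
  refine iSup_mono fun v => ?_
  refine (inf_le_inf_left _ (iInf_le _ i)).trans ?_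
  rw [inf_iSup_eq]
  refine iSup_mono fun u => ?_
  rw [inf_iSup_eq]
  refine iSup_le fun hu => ?_
  exact le_iSup_of_le ((hZ _ hxZ).trans hu) le_rfl

/-- Let `a` be the complement of the left hand side and suppose `a ≠ ⊥`. For `Z : Set (Xn C n)` let
`w Z = a ⊓ ⨅ (I : Finset C.K × Finset C.H) (_ : ↑I.1 ⊆ Yn C n ρ), ⨆ (x : C.K) (hx : C.lev x.1 ≤ n) (_ : x.1 ∉ I.2) (_ : ⟨x.1, hx⟩ ∈ Z), ⨅ y ∈ I.1, (GG e k ρ n x y)ᶜ`.
It is a possibility measure of mass `a` (`union`: the family is directed decreasing in `I`: unions of the finite sets;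
`w univ = a` since `a ≤ (WW I)ᶜ` for all admissible `I`). Let `h ≤ w` be a homomorphism (`exists_hom`). `HP e n ρ k h`: for `y ∈ Yn` use `I = ({y}, ∅)`:
`h Z ≤ ⨆ x, (GG x y)ᶜ` over the `x` with class in `Z`, and by `GG_compl` `(GG x y)ᶜ ≤ ⨆ v, k y v ⊓ ⨆ u (g x y i ≤ u + v), se e y i u`, where
`N ≤ dd (phi y x) (bb y i) = g x y i`. So `h` is tight (`tight_of_HP`), principal (`good_codes`, `hA`), `a ≤ ⨆ x, h {x}`, but
`h {x} ≤ w {x} = ⊥` (`I = (∅, {x})`). -/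
theorem claim (he : DenseEmb (Pos C.G) B e) (hK : Kn (Pos C.G)) (hA : Apx B)
    (hct : ∀ β : Ω, (Set.Iio β).Countable)
    (hΩ : ∀ s : Set Ω, s.Countable → ∃ β, ∀ γ ∈ s, γ < β)
    (n : ℕ) (ρ : C.H → Ω) (k : C.K → ℕ → B) (hk : ∀ y, Part (k y)) :
    (⨆ (I : Finset C.K × Finset C.H) (_ : ↑I.1 ⊆ Yn C n ρ), WW e n ρ k I) = ⊤ := by
  have hbot : (⨆ (I : Finset C.K × Finset C.H) (_ : ↑I.1 ⊆ Yn C n ρ), WW e n ρ k I)ᶜ = ⊥ := by
    generalize hL : (⨆ (I : Finset C.K × Finset C.H) (_ : ↑I.1 ⊆ Yn C n ρ),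
      WW e n ρ k I)ᶜ = a
    have ha : ∀ I : Finset C.K × Finset C.H, ↑I.1 ⊆ Yn C n ρ → a ≤ (WW e n ρ k I)ᶜ := by
      intro I hI
      rw [← hL]
      exact compl_le_compl (le_iSup₂ (f := fun (I : Finset C.K × Finset C.H)
        (_ : ↑I.1 ⊆ Yn C n ρ) => WW e n ρ k I) I hI)
    obtain ⟨h, hh, hw⟩ := exists_hom (claim_pom n ρ k ha)
    have hT := tight_of_HP he hK hct hΩ hk hh (claim_HP he n ρ k hk hw)
    have hP := good_codes hA C n a h hh hT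
    rw [← le_bot_iff]
    refine hP.trans (iSup_le fun x => ?_)
    refine (hw {x}).trans ((claim_CLW_le n ρ k a (∅, {x.1}) (by simp) {x}).trans ?_)
    refine claim_CLT_le n ρ k _ _ fun x' hx' h1 h2 => ?_
    refine absurd ?_ h1
    rw [Set.mem_singleton_iff] at h2
    rw [Finset.mem_singleton, ← h2]
  exact compl_eq_bot.1 hbot

end PSI
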