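import Pool.Agent.H74.PSI.Codes

/-!
# COD: there is a system of codes
-/

set_option autoImplicit false
set_option linter.unusedSectionVars false

namespace PSI

abbrev CODL (Ω Y : Type) : Type := (Y → Ω) × (Y → ℕ → Bool) × (ℕ → ℕ → Bool) × Ω

def CODX (Ω : Type) : ℕ → Type
  | 0 => Unit
  | n + 1 => CODX Ω n ⊕ CODL Ω (CODX Ω n)

def CODY (Ω : Type) : ℕ → Type
  | 0 => Unit
  | n + 1 => CODL Ω (CODX Ω n)

abbrev CODH (Ω : Type) : Type := Σ n, CODY Ω n

/-- the class with given code of level at most `n` -/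
def CODof (Ω : Type) : (n : ℕ) → CODX Ω n → CODH Ω
  | 0 => fun _ => ⟨0, ()⟩
  | n + 1 => fun t => Sum.elim (CODof Ω n) (fun l => ⟨n + 1, l⟩) t

theorem CODof_inl (Ω : Type) (n : ℕ) (t : CODX Ω n) :
    CODof Ω (n + 1) (Sum.inl t : CODX Ω n ⊕ CODL Ω (CODX Ω n)) = CODof Ω n t := rfl

theorem CODof_inr (Ω : Type) (n : ℕ) (l : CODL Ω (CODX Ω n)) :
    CODof Ω (n + 1) (Sum.inr l : CODX Ω n ⊕ CODL Ω (CODX Ω n)) = ⟨n + 1, l⟩ := rfl

theorem COD_lev (Ω : Type) : ∀ (n : ℕ) (t : CODX Ω n), (CODof Ω n t).1 ≤ n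
  | 0, _ => le_rfl
  | n + 1, t => by
    have ht : ∀ t : CODX Ω n ⊕ CODL Ω (CODX Ω n), (CODof Ω (n + 1) t).1 ≤ n + 1 := by
      rintro (t | l)
      · rw [CODof_inl]
        exact (COD_lev Ω n t).trans (Nat.le_succ n)
      · rw [CODof_inr]
    exact ht t

theorem COD_inj (Ω : Type) : ∀ (n : ℕ), Function.Injective (CODof Ω n)
  | 0 => fun _ _ _ => rfl
  | n + 1 => by
    have ht : ∀ t t' : CODX Ω n ⊕ CODL Ω (CODX Ω n),
        CODof Ω (n + 1) t = CODof Ω (n + 1) t' → t = t' := by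
      rintro (t | l) (t' | l') h
      · rw [CODof_inl, CODof_inl] at h
        rw [COD_inj Ω n h]
      · rw [CODof_inl, CODof_inr] at h
        have h1 := COD_lev Ω n t
        rw [h] at h1
        exact absurd h1 (Nat.not_succ_le_self n)
      · rw [CODof_inl, CODof_inr] at h
        have h1 := COD_lev Ω n t'
        rw [← h] at h1
        exact absurd h1 (Nat.not_succ_le_self n)
      · rw [CODof_inr, CODof_inr] at h
        have := eq_of_heq (Sigma.mk.inj h).2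
        rw [this]
    exact fun t t' h => ht t t' h

theorem COD_surj (Ω : Type) : ∀ (n : ℕ) (x : CODH Ω), x.1 ≤ n → ∃ t, CODof Ω n t = x
  | 0, ⟨0, u⟩, _ => ⟨(), rfl⟩
  | 0, ⟨m + 1, u⟩, h => absurd h (Nat.not_succ_le_zero m)
  | n + 1, x, h => by
    by_cases h1 : x.1 ≤ n
    · obtain ⟨t, ht⟩ := COD_surj Ω n x h1
      exact ⟨(Sum.inl t : CODX Ω n ⊕ CODL Ω (CODX Ω n)), by rw [CODof_inl]; exact ht⟩
    · obtain ⟨m, l⟩ := x
      have hm : m = n + 1 := by
        simp only at h h1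
        omega
      subst hm
      exact ⟨(Sum.inr l : CODX Ω n ⊕ CODL Ω (CODX Ω n)), CODof_inr Ω n l⟩

theorem COD_nonempty (Ω : Type) : ∀ n, Nonempty (CODX Ω n)
  | 0 => ⟨()⟩
  | n + 1 => (COD_nonempty Ω n).elim fun t =>
      ⟨(Sum.inl t : CODX Ω n ⊕ CODL Ω (CODX Ω n))⟩

open Classical in
/-- inverse of `CODof` -/
noncomputable def CODto (Ω : Type) (n : ℕ) (x : CODH Ω) : CODX Ω n :=
  if h : ∃ t, CODof Ω n t = x then h.choose else (COD_nonempty Ω n).some

theorem CODof_to (Ω : Type) {n : ℕ} {x : CODH Ω} (h : x.1 ≤ n) :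
    CODof Ω n (CODto Ω n x) = x := by
  have h1 := COD_surj Ω n x h
  rw [CODto, dif_pos h1]
  exact h1.choose_spec

theorem CODto_of (Ω : Type) (n : ℕ) (t : CODX Ω n) : CODto Ω n (CODof Ω n t) = t :=
  COD_inj Ω n (CODof_to Ω (COD_lev Ω n t))

/-- the components of a class -/
noncomputable def CODrho {Ω : Type} [Nonempty Ω] (y x : CODH Ω) : Ω :=
  match y with
  | ⟨0, _⟩ => Classical.arbitrary Ω
  | ⟨n + 1, l⟩ => (l : CODL Ω (CODX Ω n)).1 (CODto Ω n x)

noncomputable def CODphi {Ω : Type} (y x : CODH Ω) : ℕ → Bool :=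
  match y with
  | ⟨0, _⟩ => fun _ => false
  | ⟨n + 1, l⟩ => (l : CODL Ω (CODX Ω n)).2.1 (CODto Ω n x)

def CODbb {Ω : Type} (y : CODH Ω) : ℕ → ℕ → Bool :=
  match y with
  | ⟨0, _⟩ => fun _ _ => false
  | ⟨n + 1, l⟩ => (l : CODL Ω (CODX Ω n)).2.2.1

noncomputable def CODjj {Ω : Type} [Nonempty Ω] (y : CODH Ω) : Ω :=
  match y with
  | ⟨0, _⟩ => Classical.arbitrary Ω
  | ⟨n + 1, l⟩ => (l : CODL Ω (CODX Ω n)).2.2.2

theorem CODrho_mk {Ω : Type} [Nonempty Ω] (n : ℕ) (l : CODL Ω (CODX Ω n)) (x : CODH Ω) :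
    CODrho ⟨n + 1, l⟩ x = l.1 (CODto Ω n x) := rfl

theorem CODphi_mk {Ω : Type} (n : ℕ) (l : CODL Ω (CODX Ω n)) (x : CODH Ω) :
    CODphi ⟨n + 1, l⟩ x = l.2.1 (CODto Ω n x) := rfl

theorem CODbb_mk {Ω : Type} (n : ℕ) (l : CODL Ω (CODX Ω n)) :
    CODbb (Ω := Ω) ⟨n + 1, l⟩ = l.2.2.1 := rfl

theorem CODjj_mk {Ω : Type} [Nonempty Ω] (n : ℕ) (l : CODL Ω (CODX Ω n)) :
    CODjj (Ω := Ω) ⟨n + 1, l⟩ = l.2.2.2 := rfl

theorem COD_ext {Ω : Type} [Nonempty Ω] {n : ℕ} {y z : CODH Ω} (hy : y.1 = n + 1)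
    (hz : z.1 = n + 1) (h1 : ∀ x : CODH Ω, x.1 ≤ n → CODrho y x = CODrho z x)
    (h2 : ∀ x : CODH Ω, x.1 ≤ n → CODphi y x = CODphi z x) (h3 : CODbb y = CODbb z)
    (h4 : CODjj y = CODjj z) : y = z := by
  obtain ⟨m, l⟩ := y
  obtain ⟨m', l'⟩ := z
  simp only at hy hz
  subst hy
  subst hz
  have e1 : (l : CODL Ω (CODX Ω n)).1 = (l' : CODL Ω (CODX Ω n)).1 := by
    funext t
    have h5 : (l : CODL Ω (CODX Ω n)).1 (CODto Ω n (CODof Ω n t)) =
        (l' : CODL Ω (CODX Ω n)).1 (CODto Ω n (CODof Ω n t)) :=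
      h1 (CODof Ω n t) (COD_lev Ω n t)
    rwa [CODto_of] at h5
  have e2 : (l : CODL Ω (CODX Ω n)).2.1 = (l' : CODL Ω (CODX Ω n)).2.1 := by
    funext t
    have h5 : (l : CODL Ω (CODX Ω n)).2.1 (CODto Ω n (CODof Ω n t)) =
        (l' : CODL Ω (CODX Ω n)).2.1 (CODto Ω n (CODof Ω n t)) :=
      h2 (CODof Ω n t) (COD_lev Ω n t)
    rwa [CODto_of] at h5
  have e3 : (l : CODL Ω (CODX Ω n)).2.2.1 = (l' : CODL Ω (CODX Ω n)).2.2.1 := h3
  have e4 : (l : CODL Ω (CODX Ω n)).2.2.2 = (l' : CODL Ω (CODX Ω n)).2.2.2 := h4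
  have : (l : CODL Ω (CODX Ω n)) = (l' : CODL Ω (CODX Ω n)) :=
    Prod.ext e1 (Prod.ext e2 (Prod.ext e3 e4))
  rw [this]

open Classical in
/-- the code of a class of level at most `n + 1` -/
noncomputable def CODF {Ω : Type} [Nonempty Ω] (i : Ω → ℕ → Bool) (n : ℕ)
    (y : {x : CODH Ω // x.1 ≤ n + 1}) :
    ({x : CODH Ω // x.1 ≤ n} ⊕ ℕ) × ℕ → Bool := fun w =>
  match w with
  | (.inl x, k) => if y.1.1 ≤ n then decide (x.1 = y.1) else
      if k % 2 = 0 then i (CODrho y.1 x.1) (k / 2) else CODphi y.1 x.1 (k / 2)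
  | (.inr 0, k) => if k = 0 then decide (y.1.1 ≤ n) else i (CODjj y.1) (k - 1)
  | (.inr (m + 1), k) => CODbb y.1 m k

theorem CODF_inj {Ω : Type} [Nonempty Ω] {i : Ω → ℕ → Bool} (hi : Function.Injective i)
    (n : ℕ) : Function.Injective (CODF i n) := by
  classical
  rintro ⟨y, hy⟩ ⟨z, hz⟩ h
  have hc : (y.1 ≤ n ↔ z.1 ≤ n) := by
    have := congrFun h (.inr 0, 0)
    simp only [CODF, if_true] at this
    exact decide_eq_decide.1 this
  by_cases hyn : y.1 ≤ n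
  · have hzn := hc.1 hyn
    have := congrFun h (.inl ⟨y, hyn⟩, 0)
    simp only [CODF, if_pos hyn, if_pos hzn, decide_true] at this
    have h2 : y = z := of_decide_eq_true this.symm
    exact Subtype.ext h2
  · have hzn : ¬ z.1 ≤ n := fun h => hyn (hc.2 h)
    apply Subtype.ext
    simp only at hyn hzn hy hz ⊢
    refine COD_ext (n := n) (by omega) (by omega) ?_ ?_ ?_ ?_
    · intro x hx
      apply hi
      funext k
      have := congrFun h (.inl ⟨x, hx⟩, 2 * k)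
      simp only [CODF, if_neg hyn, if_neg hzn] at this
      rw [if_pos (by omega), if_pos (by omega)] at this
      rw [show 2 * k / 2 = k by omega] at this
      exact this
    · intro x hx
      funext k
      have := congrFun h (.inl ⟨x, hx⟩, 2 * k + 1)
      simp only [CODF, if_neg hyn, if_neg hzn] at this
      rw [if_neg (by omega), if_neg (by omega)] at this
      rw [show (2 * k + 1) / 2 = k by omega] at this
      exact this
    · funext m k
      exact congrFun h (.inr (m + 1), k)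
    · apply hi
      funext k
      have := congrFun h (.inr 0, k + 1)
      simp only [CODF] at this
      rw [if_neg (by omega), if_neg (by omega)] at this
      exact this

/-- Let `X 0 = Unit`, `X (n + 1) = X n ⊕ L n`, `L n = (X n → Ω) × (X n → ℕ → Bool) × (ℕ → ℕ → Bool) × Ω` (recursion on `n`),
`H = Σ n, Y n` with `Y 0 = Unit`, `Y (n + 1) = L n`, `lev` the first coordinate; the classes of level at most `n` are in bijection with `X n`.
`rho`, `phi` are evaluated through this bijection (and arbitrary for the irrelevant pairs, `Ω` is nonempty).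
`emb`: `L n` and `X n` inject into `(X n ⊕ ℕ) × ℕ → Bool`: for `L n` use an injection `i : Ω → ℕ → Bool`, put `i (ρ x)` on the places
`((inl x, 3 * k))`, `φ x` on `(inl x, 3 * k + 1)`, `b` on `(inr l, 3 * k)`, `i j` on `(inr 0, 3 * k + 1)`; for `x ∈ X n` the indicator of
`(inl x, 2)`; a bit at `(inr 0, 2)` says which case. -/
theorem exists_codes (Ω : Type) [Nonempty Ω] (h : ∃ F : Ω → (ℕ → Bool), Function.Injective F) :
    Nonempty (Codes Ω) := by
  obtain ⟨i, hi⟩ := h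
  refine ⟨{
    H := CODH Ω
    lev := fun x => x.1
    rho := CODrho
    phi := CODphi
    bb := CODbb
    jj := CODjj
    surj := ?_
    emb0 := ?_
    emb := fun n => ⟨CODF i n, CODF_inj hi n⟩ }⟩
  · intro n ρ φ b j
    refine ⟨⟨n + 1, ((fun t => ρ (CODof Ω n t), fun t => φ (CODof Ω n t), b, j) :
      CODL Ω (CODX Ω n))⟩, rfl, ?_, ?_, rfl, rfl⟩
    · intro x hx
      rw [CODrho_mk]
      dsimp only
      rw [CODof_to Ω hx]
    · intro x hx
      rw [CODphi_mk]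
      dsimp only
      rw [CODof_to Ω hx]
  · refine ⟨fun _ _ => false, ?_⟩
    rintro ⟨⟨m, u⟩, hx⟩ ⟨⟨m', u'⟩, hy⟩ _
    simp only [nonpos_iff_eq_zero] at hx hy
    subst hx
    subst hy
    rfl

end PSI
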