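import Pool.Agent.H74.PSI.Amal

/-!
# COR: consequences of the amalgamation
-/

set_option autoImplicit false
set_option linter.unusedSectionVars false

namespace PSI

variable {K Ω : Type} [LinearOrder Ω] [WellFoundedLT Ω] {G : PD K Ω}

/-- `P_β ⊆ P_β'`: for coded frozen pairs `dl < β` (`Pl.low`), so the `c`-part of `TReq` at level `β` applies -/
theorem Pl.mono {β β' : WithTop Ω} (h : β ≤ β') {p : Cond K Ω} (hp : Pl G β p) : Pl G β' p := by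
  refine ⟨⟨⟨hp.ps.st.fin, fun γ hγ => (hp.ps.st.low γ hγ).trans_le h, hp.ps.st.A, hp.ps.st.out,
    hp.ps.st.D, fun x y hxy hcd => ?_⟩, fun r hr => ⟨(hp.ps.prom r hr).1.trans_le h,
    (hp.ps.prom r hr).2⟩⟩, fun x y hxy hcd => (hp.low x y hxy hcd).trans_le h⟩
  obtain ⟨k, hkx, hky, hk0, hs, hf, hc⟩ := hp.ps.st.T x y hxy hcd
  exact ⟨k, hkx, hky, hk0, hs, hf, fun _ => hc (hp.low x y hxy hcd)⟩

/-- Cor (i): apply `Adm.pre` to `cut β p` (`ps_cut`), then `amal` with `r = z.1 n i` -/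
theorem adm_ext {β : Ω} {β' : WithTop Ω} (h : (β : WithTop Ω) ≤ β') {z : Name K Ω}
    (hz : Adm G β z) {p : Cond K Ω} (hp : Ps G β' p) (n : ℕ) :
    ∃ i q, Ps G β' q ∧ Le q p ∧ Le q (z.1 n i) ∧
      (∀ γ : Ω, ¬ (γ < β) → q.st.c γ = p.st.c γ) ∧
      (∀ r ∈ q.prom, ¬ (r.1 < β) → r ∈ p.prom) := by
  obtain ⟨i, q, hq, hqp, hqz⟩ := hz.pre n (ps_cut h hp)
  obtain ⟨w, hw, hwp, hwr, hwc, hwprom⟩ := amal h hp hq hqp
  exact ⟨i, w, hw, hwp, hwr _ (hz.pl n i) hqz,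
    fun γ hγ => hwc γ fun h1 => hγ (WithTop.coe_lt_coe.1 h1),
    fun r hr hrβ => hwprom r hr fun h1 => hrβ (WithTop.coe_lt_coe.1 h1)⟩

/-- Cor (ii): `adm_iff`, `Pl.mono`, `adm_ext` -/
theorem Adm.mono {β β' : Ω} (h : β ≤ β') {z : Name K Ω} (hz : Adm G β z) : Adm G β' z := by
  have h' : ((β : Ω) : WithTop Ω) ≤ β' := WithTop.coe_le_coe.2 h
  rw [adm_iff]
  refine ⟨fun n i => (hz.pl n i).mono h', fun n p hp => ?_⟩
  obtain ⟨i, q, hq, hqp, hqz, -, -⟩ := adm_ext h' hz hp n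
  exact ⟨i, q, hq, hqp, hqz⟩

/-- Cor (iii), in the form used: if `q ∈ P*_β` is below `p|β` then there is a condition `w ≤ p` of the poset which is
below all `r ∈ P_β` with `q ≤ r` (`amal` with `β' = ⊤`); conversely if `w ≤ p` then `w|β ∈ P*_β` is below `p|β` and
below all `r ∈ P_β` with `w ≤ r` (`ps_cut`, `cut_le_cut`, `cut_le_of_le`) -/
theorem up {β : WithTop Ω} {p q : Cond K Ω} (hp : Ps G ⊤ p) (hq : Ps G β q)
    (hle : Le q (cut β p)) : ∃ w, Ps G ⊤ w ∧ Le w p ∧ ∀ r, Pl G β r → Le q r → Le w r := by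
  obtain ⟨w, hw, hwp, hwr, -, -⟩ := amal le_top hp hq hle
  exact ⟨w, hw, hwp, hwr⟩

theorem down {β : WithTop Ω} {p w : Cond K Ω} (hp : Ps G ⊤ p) (hw : Ps G ⊤ w) (hle : Le w p) :
    Ps G β (cut β w) ∧ Le (cut β w) (cut β p) ∧ ∀ r, Pl G β r → Le w r → Le (cut β w) r :=
  ⟨ps_cut le_top hw, cut_le_cut hp hle, fun _ hr h => cut_le_of_le hr h⟩

end PSI
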