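import Pool.Agent.H26.BV.Rop

/-!
# CSUP: Boolean values are suprema of countably many conditions
-/

set_option autoImplicit false
set_option linter.unusedSectionVars false

namespace PSI

open BV

/-- the Knaster property (for pairs of conditions) -/
def Kn (P : Type) [Preorder P] : Prop :=
  ∀ (ι : Type) (S : Set ι), ¬ S.Countable → ∀ p q : ι → P, ∃ T ⊆ S, ¬ T.Countable ∧
    ∀ i ∈ T, ∀ j ∈ T, (∃ w, w ≤ p i ∧ w ≤ p j) ∧ ∃ w, w ≤ q i ∧ w ≤ q j

/-- as in Pool/Agent/H71/FS/Frc.lean (`FS.Iter.exists_countable`): take a maximal set `D` of pairwise incompatible conditions `c` with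
`e c ≤ b` (`zorn_subset`); if `D` were uncountable, `hK` for `ι = P`, `S = D`, `p = q = id` would give two different compatible elements of
`D`; if `⨆ c ∈ D, e c` is not `b` there is a condition below `b ⊓ (⨆ c ∈ D, e c)ᶜ` -/
theorem exists_csup {P : Type} [Preorder P] (hK : Kn P) {B : Type} [CompleteBooleanAlgebra B]
    {e : P → B} (he : DenseEmb P B e) (b : B) :
    ∃ D : Set P, D.Countable ∧ b = ⨆ c ∈ D, e c := by
  let S : Set (Set P) := {A | (∀ c ∈ A, e c ≤ b) ∧
    ∀ p ∈ A, ∀ q ∈ A, p ≠ q → ¬ ∃ r : P, r ≤ p ∧ r ≤ q}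
  obtain ⟨D, hD⟩ := zorn_subset S (by
    intro C hC hch
    refine ⟨⋃₀ C, ⟨?_, ?_⟩, fun s hs => Set.subset_sUnion_of_mem hs⟩
    · rintro c ⟨A, hA, hc⟩
      exact (hC hA).1 c hc
    · rintro p ⟨A, hA, hp⟩ q ⟨A', hA', hq⟩ hne
      rcases hch.total hA hA' with h | h
      · exact (hC hA').2 p (h hp) q hq hne
      · exact (hC hA).2 p hp q (h hq) hne)
  refine ⟨D, ?_, ?_⟩
  · by_contra hcon
    obtain ⟨T, hTD, hT, hT2⟩ := hK P D hcon id id
    obtain ⟨i, hi, j, hj, hij⟩ : ∃ i ∈ T, ∃ j ∈ T, i ≠ j := by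
      by_contra h
      push Not at h
      refine hT (Set.Subsingleton.countable fun i hi j hj => h i hi j hj)
    obtain ⟨w, hw1, hw2⟩ := (hT2 i hi j hj).1
    exact hD.prop.2 i (hTD hi) j (hTD hj) hij ⟨w, hw1, hw2⟩
  · refine le_antisymm ?_ (iSup₂_le fun c hc => hD.prop.1 c hc)
    by_contra hcon
    have h1 : b ⊓ (⨆ c ∈ D, e c)ᶜ ≠ ⊥ := by
      intro h0
      exact hcon (disjoint_compl_right_iff.mp (disjoint_iff.mpr h0))
    obtain ⟨p, hp⟩ := he.dense _ h1
    have key : ∀ c ∈ D, ¬ ∃ r : P, r ≤ p ∧ r ≤ c := by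
      rintro c hc ⟨r, h2, h3⟩
      have h4 : e r ≤ ⊥ := by
        rw [← inf_compl_eq_bot (a := ⨆ c ∈ D, e c)]
        exact le_inf ((he.mono r c h3).trans (le_iSup₂_of_le c hc le_rfl))
          ((he.mono r p h2).trans (hp.trans inf_le_right))
      exact he.ne_bot r (le_bot_iff.1 h4)
    have hins : insert p D ∈ S := by
      refine ⟨?_, ?_⟩
      · intro c hc
        rcases Set.mem_insert_iff.1 hc with h2 | hc
        · rw [h2]
          exact hp.trans inf_le_left
        · exact hD.prop.1 c hc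
      · intro c hc c' hc' hne
        rcases Set.mem_insert_iff.1 hc with h2 | hc
        · rcases Set.mem_insert_iff.1 hc' with h3 | hc'
          · exact absurd (h2.trans h3.symm) hne
          · rw [h2]
            exact key c' hc'
        · rcases Set.mem_insert_iff.1 hc' with h3 | hc'
          · rw [h3]
            rintro ⟨r, h4, h5⟩
            exact key c hc ⟨r, h5, h4⟩
          · exact hD.prop.2 c hc c' hc' hne
    have hpD : p ∈ D := by
      have h6 : insert p D ⊆ D := hD.le_of_ge hins (Set.subset_insert p D)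
      exact h6 (Set.mem_insert p D)
    exact key p hpD ⟨p, le_rfl, le_rfl⟩

/-- general fact about dense embeddings (FS.Iter.le_iSup_iff) -/
theorem le_bsup_iff {P : Type} [Preorder P] {B : Type} [CompleteBooleanAlgebra B]
    {e : P → B} (he : DenseEmb P B e) (q : P) (D : Set P) :
    e q ≤ ⨆ c ∈ D, e c ↔ ∀ t, t ≤ q → ∃ u, u ≤ t ∧ ∃ c ∈ D, u ≤ c := by
  constructor
  · intro h t ht
    obtain ⟨u, hut, c, hc⟩ := he.exists_le_of_le_iSup ((he.mono t q ht).trans h)
    obtain ⟨v, hvu, hcD, hv⟩ := he.exists_le_of_le_iSup hc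
    obtain ⟨r, hr1, hr2⟩ := he.compat v c (by
      rw [inf_eq_left.2 hv]
      exact he.ne_bot v)
    exact ⟨r, hr1.trans (hvu.trans hut), c, hcD, hr2⟩
  · intro h
    by_contra hcon
    have h1 : e q ⊓ (⨆ c ∈ D, e c)ᶜ ≠ ⊥ := by
      intro h0
      exact hcon (disjoint_compl_right_iff.mp (disjoint_iff.mpr h0))
    obtain ⟨t, ht, ht2⟩ := he.exists_le_of_inf_ne_bot h1
    obtain ⟨u, hut, c, hc, huc⟩ := h t ht
    have h4 : e u ≤ ⊥ := by
      rw [← inf_compl_eq_bot (a := ⨆ c ∈ D, e c)]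
      exact le_inf ((he.mono u c huc).trans (le_iSup₂_of_le c hc le_rfl))
        ((he.mono u t hut).trans ht2)
    exact he.ne_bot u (le_bot_iff.1 h4)

/-- density: if below every `t ≤ q` there is `u` with `e u ≤ b` then `e q ≤ b` -/
theorem le_of_dense {P : Type} [Preorder P] {B : Type} [CompleteBooleanAlgebra B]
    {e : P → B} (he : DenseEmb P B e) {q : P} {b : B}
    (h : ∀ t, t ≤ q → ∃ u, u ≤ t ∧ e u ≤ b) : e q ≤ b := by
  by_contra hcon
  have h1 : e q ⊓ bᶜ ≠ ⊥ := by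
    intro h0
    exact hcon (disjoint_compl_right_iff.mp (disjoint_iff.mpr h0))
  obtain ⟨t, ht, ht2⟩ := he.exists_le_of_inf_ne_bot h1
  obtain ⟨u, hut, hu⟩ := h t ht
  have h4 : e u ≤ ⊥ := by
    rw [← inf_compl_eq_bot (a := b)]
    exact le_inf hu ((he.mono u t hut).trans ht2)
  exact he.ne_bot u (le_bot_iff.1 h4)

theorem eq_top_of_dense {P : Type} [Preorder P] {B : Type} [CompleteBooleanAlgebra B]
    {e : P → B} (he : DenseEmb P B e) {b : B} (h : ∀ t, ∃ u, u ≤ t ∧ e u ≤ b) : b = ⊤ := by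
  by_contra hcon
  have h1 : bᶜ ≠ ⊥ := fun h0 => hcon (compl_eq_bot.1 h0)
  obtain ⟨t, ht⟩ := he.dense _ h1
  obtain ⟨u, hut, hu⟩ := h t
  have h4 : e u ≤ ⊥ := by
    rw [← inf_compl_eq_bot (a := b)]
    exact le_inf hu ((he.mono u t hut).trans ht)
  exact he.ne_bot u (le_bot_iff.1 h4)

end PSI
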