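import Pool.Agent.H74.PSI.Loc

/-!
# CUT: restriction of a condition to a level
-/

set_option autoImplicit false
set_option linter.unusedSectionVars false

namespace PSI

variable {K Ω : Type} [LinearOrder Ω] [WellFoundedLT Ω] {G : PD K Ω}

open Classical in
/-- the stem below level `β` (all frozen pairs are kept) -/
noncomputable def cutS (β : WithTop Ω) (s : Stem K Ω) : Stem K Ω :=
  { s with c := fun γ => if ((γ : Ω) : WithTop Ω) < β then s.c γ else [] }

/-- `p|β` -/
noncomputable def cut (β : WithTop Ω) (p : Cond K Ω) : Cond K Ω :=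
  mkc (cutS β p.st) {r ∈ p.prom | (r.1 : WithTop Ω) < β} (p.prom_finite.subset fun _ h => h.1)

@[simp] theorem cut_st (β : WithTop Ω) (p : Cond K Ω) : (cut β p).st = cutS β p.st := rfl

@[simp] theorem cut_prom (β : WithTop Ω) (p : Cond K Ω) :
    (cut β p).prom = {r ∈ p.prom | (r.1 : WithTop Ω) < β} := mkc_prom _ _ _

/-- `p|β ∈ P*_β`: everything is immediate (`TReq` at level `β` follows from `TReq` at level `β' ≥ β` with the same
number `k`) -/
theorem ps_cut {β β' : WithTop Ω} (h : β ≤ β') {p : Cond K Ω} (hp : Ps G β' p) :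
    Ps G β (cut β p) := by
  have hc : ∀ γ : Ω, (cutS β p.st).c γ = if ((γ : Ω) : WithTop Ω) < β then p.st.c γ else [] :=
    fun γ => rfl
  refine ⟨⟨?_, ?_, hp.st.A, hp.st.out, hp.st.D, ?_⟩, ?_⟩
  · refine hp.st.fin.subset fun γ hγ => ?_
    have hγ' : (cutS β p.st).c γ ≠ [] := hγ
    rw [hc] at hγ'
    by_cases h1 : ((γ : Ω) : WithTop Ω) < β
    · rwa [if_pos h1] at hγ'
    · rw [if_neg h1] at hγ'
      exact absurd rfl hγ'
  · intro γ hγ
    have hγ' : (cutS β p.st).c γ ≠ [] := hγ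
    rw [hc] at hγ'
    by_contra h1
    rw [if_neg h1] at hγ'
    exact hγ' rfl
  · intro x y hxy hcd
    obtain ⟨k, hkx, hky, hk0, hs, hf, hcc⟩ := hp.st.T x y hxy hcd
    refine ⟨k, hkx, hky, hk0, hs, hf, fun hdl => ?_⟩
    have h1 : (cut β p).st.c (G.dl x y) = p.st.c (G.dl x y) := if_pos hdl
    rw [h1]
    exact hcc (hdl.trans_le h)
  · intro r hr
    rw [cut_prom] at hr
    exact ⟨hr.2, (hp.prom r hr.1).2⟩

/-- the cut agrees with the condition below `β` -/
theorem agr_cut (β : WithTop Ω) (q : Cond K Ω) : Agr G β q (cut β q) where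
  m := rfl
  a := rfl
  A := rfl
  s := rfl
  f := rfl
  c γ hγ := if_pos hγ
  D _ _ hxy _ := hxy
  prom r hr hrβ := by
    rw [cut_prom]
    exact ⟨hr, hrβ⟩

/-- `le_local`, `agr_cut` -/
theorem cut_le_of_le {β : WithTop Ω} {q r : Cond K Ω} (hr : Pl G β r) (h : Le q r) :
    Le (cut β q) r := le_local hr h (agr_cut β q)

/-- `le_iff`; the promises `r` of `p|β` are the promises of `p` with `r.1 < β`; for a new `n` there is `j` with
`Le q (z n j)`, `Pl G r.1 (z n j)`, so `Le (cut β q) (z n j)` (`le_local` with `(agr_cut β q).mono`) -/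
theorem cut_le_cut {β β' : WithTop Ω} {p q : Cond K Ω} (hp : Ps G β' p) (h : Le q p) :
    Le (cut β q) (cut β p) := by
  rw [le_iff] at h ⊢
  obtain ⟨h1, h2, h3⟩ := h
  refine ⟨⟨fun γ => ?_, h1.m, h1.a, h1.A, h1.s, h1.sf, h1.f, h1.D, h1.fr⟩, ?_, ?_⟩
  · show (if ((γ : Ω) : WithTop Ω) < β then p.st.c γ else []) <+:
      (if ((γ : Ω) : WithTop Ω) < β then q.st.c γ else [])
    by_cases hγ : ((γ : Ω) : WithTop Ω) < β
    · rw [if_pos hγ, if_pos hγ]
      exact h1.c γ
    · rw [if_neg hγ, if_neg hγ]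
  · rw [cut_prom, cut_prom]
    exact fun r hr => ⟨h2 hr.1, hr.2⟩
  · intro r hr n hn1 hn2
    rw [cut_prom] at hr
    have e1 : (cut β p).st.c r.1 = p.st.c r.1 := if_pos hr.2
    have e2 : (cut β q).st.c r.1 = q.st.c r.1 := if_pos hr.2
    rw [e1] at hn1
    rw [e2] at hn2 ⊢
    obtain ⟨j, hj1, hj2⟩ := h3 r hr.1 n hn1 hn2
    exact ⟨j, le_local ((hp.prom r hr.1).2.pl n j) hj1 ((agr_cut β q).mono hr.2.le), hj2⟩

/-- a condition of level `β` is equivalent to its cut: `le_congr` (`cutS β p.st = p.st` by `SOk.low`) -/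
theorem le_cut_self {β : WithTop Ω} {p : Cond K Ω} (hp : Ps G β p) (q : Cond K Ω) :
    Le q (cut β p) ↔ Le q p := by
  refine le_congr rfl rfl ?_ ?_
  · rw [cut_st]
    unfold cutS
    have h : (fun γ : Ω => if ((γ : Ω) : WithTop Ω) < β then p.st.c γ else []) = p.st.c := by
      funext γ
      by_cases hγ : p.st.c γ = []
      · rw [hγ]
        simp
      · rw [if_pos (hp.st.low γ hγ)]
    rw [h]
  · rw [cut_prom]
    ext r
    exact ⟨fun h => h.1, fun h => ⟨h, (hp.prom r h).1⟩⟩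

end PSI
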