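import Mathlib

/-!
# Forcing a star-Menger Psi-space of cardinality at least the dominating number: definitions

Paper proof: /team-store/H74_PSI.md.

`Ω` is the (well-ordered) index set of the scale `c β`, `K` the index set of the almost disjoint
family `A x`. `PD K Ω` is the data attached to pairs of indices: `cd x y` the pair is coded,
`dl x y : Ω` and `nu x y : ℕ` (the common part of `A x`, `A y` must contain a number above the value of
`c (dl x y)` at `nu x y`), and `g x y : ℕ → ℕ`.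
-/

set_option autoImplicit false
set_option linter.unusedSectionVars false

namespace PSI

/-- the data attached to pairs of indices -/
structure PD (K Ω : Type) where
  cd : K → K → Prop
  dl : K → K → Ω
  nu : K → K → ℕ
  g : K → K → ℕ → ℕ

/-- the stem (finite part) of a condition: `c β` finite initial segment of the scale, `A x` is
decided below `m` for `x ∈ a`, `(s x, f x)` Hechler condition over the ground model, `D` the frozen
pairs -/
structure Stem (K Ω : Type) where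
  c : Ω → List ℕ
  m : ℕ
  a : Finset K
  A : K → Finset ℕ
  s : K → List ℕ
  f : K → ℕ → ℕ
  D : Finset (Sym2 K)

/-- raw conditions: a stem and finitely many promises `(lv i, z i, v i)` -/
inductive Cond (K Ω : Type) : Type
  | mk (st : Stem K Ω) (N : ℕ) (lv : Fin N → Ω) (z : Fin N → ℕ → ℕ → Cond K Ω)
      (v : Fin N → ℕ → ℕ → ℕ) : Cond K Ω

/-- promises: level and name; the name `(z, v)` of a function `ℕ → ℕ` takes at `n` the value `v n i` if
the condition `z n i` is in the generic filter -/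
abbrev Name (K Ω : Type) : Type := (ℕ → ℕ → Cond K Ω) × (ℕ → ℕ → ℕ)

abbrev Prom (K Ω : Type) : Type := Ω × Name K Ω

variable {K Ω : Type}

namespace Cond

/-- the stem -/
def st : Cond K Ω → Stem K Ω
  | mk st _ _ _ _ => st

/-- the set of promises -/
def prom : Cond K Ω → Set (Prom K Ω)
  | mk _ _ lv z v => Set.range fun i => (lv i, z i, v i)

end Cond

/-- order of stems, `q` stronger than `p` -/
structure SLe (q p : Stem K Ω) : Prop where
  c : ∀ β, p.c β <+: q.c β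
  m : p.m ≤ q.m
  a : p.a ⊆ q.a
  A : ∀ x ∈ p.a, ∀ k < p.m, (k ∈ q.A x ↔ k ∈ p.A x)
  s : ∀ x ∈ p.a, p.s x <+: q.s x
  sf : ∀ x ∈ p.a, ∀ i, (p.s x).length ≤ i → i < (q.s x).length → p.f x i ≤ (q.s x).getD i 0
  f : ∀ x ∈ p.a, ∀ i, p.f x i ≤ q.f x i
  D : p.D ⊆ q.D
  fr : ∀ x y, s(x, y) ∈ p.D → ∀ k, p.m ≤ k → k ∈ q.A x → k ∉ q.A y

/-- order of raw conditions, `q` stronger than `p` (structural recursion on `p`) -/
def Le (q : Cond K Ω) : Cond K Ω → Prop
  | .mk st _ lv z v => SLe q.st st ∧ (∀ i, (lv i, z i, v i) ∈ q.prom) ∧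
      ∀ i n, (st.c (lv i)).length ≤ n → n < (q.st.c (lv i)).length →
        ∃ j, Le q (z i n j) ∧ v i n j < (q.st.c (lv i)).getD n 0

/-- the requirement for a frozen coded pair `x, y`, at level `β` -/
def TReq [LT Ω] (G : PD K Ω) (β : WithTop Ω) (s : Stem K Ω) (x y : K) : Prop :=
  ∃ k, k ∈ s.A x ∧ k ∈ s.A y ∧ 0 < k ∧
    (∀ i < (s.s y).length, G.g x y i ≤ (s.s y).getD i 0 + k) ∧
    (∀ i, (s.s y).length ≤ i → G.g x y i ≤ s.f y i) ∧
    (((G.dl x y : Ω) : WithTop Ω) < β →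
      G.nu x y < (s.c (G.dl x y)).length ∧ (s.c (G.dl x y)).getD (G.nu x y) 0 < k)

/-- valid stems of level `β` -/
structure SOk [LT Ω] (G : PD K Ω) (β : WithTop Ω) (s : Stem K Ω) : Prop where
  fin : {γ | s.c γ ≠ []}.Finite
  low : ∀ γ, s.c γ ≠ [] → (γ : WithTop Ω) < β
  A : ∀ x, s.A x ⊆ Finset.range s.m
  out : ∀ x, x ∉ s.a → s.A x = ∅ ∧ s.s x = [] ∧ s.f x = fun _ => 0
  D : ∀ x y, s(x, y) ∈ s.D → x ≠ y ∧ x ∈ s.a ∧ y ∈ s.a
  T : ∀ x y, s(x, y) ∈ s.D → G.cd x y → TReq G β s x y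

/-- all coded frozen pairs are of level less than `β` -/
def DLow [LT Ω] (G : PD K Ω) (β : WithTop Ω) (s : Stem K Ω) : Prop :=
  ∀ x y, s(x, y) ∈ s.D → G.cd x y → ((G.dl x y : Ω) : WithTop Ω) < β

variable [LinearOrder Ω] [WellFoundedLT Ω]

/-- `Adm G β z` (`z ∈ N_β` in the paper): admissible names of level `β` (well-founded recursion) -/
noncomputable def Adm (G : PD K Ω) : Ω → Name K Ω → Prop :=
  WellFounded.fix (C := fun _ => Name K Ω → Prop) wellFounded_lt fun β ih z =>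
    (∀ n i, (SOk G β (z.1 n i).st ∧ ∀ r ∈ (z.1 n i).prom, ∃ h : r.1 < β, ih r.1 h r.2) ∧
      DLow G β (z.1 n i).st) ∧
    ∀ n p, (SOk G β p.st ∧ ∀ r ∈ p.prom, ∃ h : r.1 < β, ih r.1 h r.2) →
      ∃ i q, (SOk G β q.st ∧ ∀ r ∈ q.prom, ∃ h : r.1 < β, ih r.1 h r.2) ∧
        Le q p ∧ Le q (z.1 n i)

/-- `P*_β`: conditions of level `β`, with arbitrary frozen pairs -/
structure Ps (G : PD K Ω) (β : WithTop Ω) (p : Cond K Ω) : Prop where
  st : SOk G β p.st
  prom : ∀ r ∈ p.prom, (r.1 : WithTop Ω) < β ∧ Adm G r.1 r.2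

/-- `P_β`: conditions of level `β` -/
structure Pl (G : PD K Ω) (β : WithTop Ω) (p : Cond K Ω) : Prop where
  ps : Ps G β p
  low : DLow G β p.st

theorem adm_iff (G : PD K Ω) (β : Ω) (z : Name K Ω) :
    Adm G β z ↔ (∀ n i, Pl G β (z.1 n i)) ∧
      ∀ n p, Ps G β p → ∃ i q, Ps G β q ∧ Le q p ∧ Le q (z.1 n i) := by
  have h : ∀ (p : Cond K Ω), Ps G β p ↔
      (SOk G β p.st ∧ ∀ r ∈ p.prom, ∃ _ : r.1 < β, Adm G r.1 r.2) := by
    intro p
    constructor
    · rintro ⟨h1, h2⟩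
      exact ⟨h1, fun r hr => ⟨WithTop.coe_lt_coe.1 (h2 r hr).1, (h2 r hr).2⟩⟩
    · rintro ⟨h1, h2⟩
      exact ⟨h1, fun r hr => ⟨WithTop.coe_lt_coe.2 (h2 r hr).1, (h2 r hr).2⟩⟩
  have h' : ∀ (p : Cond K Ω), Pl G β p ↔
      (SOk G β p.st ∧ ∀ r ∈ p.prom, ∃ _ : r.1 < β, Adm G r.1 r.2) ∧ DLow G β p.st := by
    intro p
    rw [← h]
    exact ⟨fun h => ⟨h.1, h.2⟩, fun h => ⟨h.1, h.2⟩⟩
  simp only [h, h']
  unfold Adm
  rw [WellFounded.fix_eq]

/-- the forcing poset -/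
def Pos (G : PD K Ω) : Type := {p : Cond K Ω // Ps G ⊤ p}

end PSI
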