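import Pool.Agent.H74.PSI.Cor

/-!
# DENA: density of the simple extensions (Lemma 3, D3, D4)
-/

set_option autoImplicit false
set_option linter.unusedSectionVars false

namespace PSI

variable {K Ω : Type} [LinearOrder Ω] [WellFoundedLT Ω] {G : PD K Ω}

/-- if `q` is a valid condition with the same `c` and the same promises as `p` and a stronger stem then `q ≤ p`
(`le_iff`, there are no new `n`) -/
theorem le_of_st {p q : Cond K Ω} (hst : SLe q.st p.st) (hc : q.st.c = p.st.c)
    (hp : p.prom ⊆ q.prom) : Le q p := by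
  rw [le_iff]
  refine ⟨hst, hp, fun r _ n h1 h2 => ?_⟩
  rw [hc] at h2
  exact absurd h2 (not_lt.2 h1)

theorem DENA_ps {p : Cond K Ω} (hp : Ps G ⊤ p) {s : Stem K Ω} (hs : SOk G ⊤ s) :
    Ps G ⊤ (mkc s p.prom p.prom_finite) :=
  ⟨by rw [mkc_st]; exact hs, by rw [mkc_prom]; exact hp.prom⟩

theorem DENA_le {p : Cond K Ω} {s : Stem K Ω} (hst : SLe s p.st) (hc : s.c = p.st.c) :
    Le (mkc s p.prom p.prom_finite) p :=
  le_of_st (by rw [mkc_st]; exact hst) (by rw [mkc_st]; exact hc) (by rw [mkc_prom])

/-- add `x` to `a` (with `A x = ∅`, `s x = []`, `f x = 0`, they have these values already by `SOk.out`) -/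
theorem ext_a {p : Cond K Ω} (hp : Ps G ⊤ p) (x : K) :
    ∃ q, Ps G ⊤ q ∧ Le q p ∧ x ∈ q.st.a := by
  classical
  have h0 := SLe.refl' p.st hp.st.A
  refine ⟨mkc { p.st with a := insert x p.st.a } p.prom p.prom_finite, DENA_ps hp ?_,
    DENA_le ?_ rfl, ?_⟩
  · refine ⟨hp.st.fin, hp.st.low, hp.st.A, ?_, ?_, ?_⟩
    · intro y hy
      exact hp.st.out y (fun h => hy (Finset.mem_insert_of_mem h))
    · intro y z hyz
      obtain ⟨h1, h2, h3⟩ := hp.st.D y z hyz
      exact ⟨h1, Finset.mem_insert_of_mem h2, Finset.mem_insert_of_mem h3⟩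
    · intro y z hyz hc
      exact hp.st.T y z hyz hc
  · exact ⟨h0.c, h0.m, Finset.subset_insert _ _, h0.A, h0.s, h0.sf, h0.f, h0.D, h0.fr⟩
  · rw [mkc_st]
    exact Finset.mem_insert_self _ _

/-- put a number `k ≥ n, m` into `A x` only (`m := k + 1`) -/
theorem ext_A {p : Cond K Ω} (hp : Ps G ⊤ p) {x : K} (hx : x ∈ p.st.a) (n : ℕ) :
    ∃ q, Ps G ⊤ q ∧ Le q p ∧ ∃ k, n ≤ k ∧ k ∈ q.st.A x := by
  classical
  have h0 := SLe.refl' p.st hp.st.A
  have hsub : ∀ y, p.st.A y ⊆ Function.update p.st.A x (insert (max n p.st.m) (p.st.A x)) y := by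
    intro y
    by_cases h : y = x
    · subst h
      rw [Function.update_self]
      exact Finset.subset_insert _ _
    · rw [Function.update_of_ne h]
  refine ⟨mkc { p.st with
      m := max n p.st.m + 1
      A := Function.update p.st.A x (insert (max n p.st.m) (p.st.A x)) } p.prom p.prom_finite,
    DENA_ps hp ?_, DENA_le ?_ rfl, max n p.st.m, le_max_left _ _, ?_⟩
  · refine ⟨hp.st.fin, hp.st.low, ?_, ?_, hp.st.D, ?_⟩
    · intro y k hk
      dsimp only at hk ⊢
      by_cases h : y = x
      · subst h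
        rw [Function.update_self, Finset.mem_insert] at hk
        rcases hk with rfl | hk
        · exact Finset.mem_range.2 (Nat.lt_succ_self _)
        · have := Finset.mem_range.1 (hp.st.A y hk)
          exact Finset.mem_range.2 (by omega)
      · rw [Function.update_of_ne h] at hk
        have := Finset.mem_range.1 (hp.st.A y hk)
        exact Finset.mem_range.2 (by omega)
    · intro y hy
      dsimp only at hy ⊢
      have hyx : y ≠ x := fun h => hy (h ▸ hx)
      rw [Function.update_of_ne hyx]
      exact hp.st.out y hy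
    · intro y z hyz hc
      obtain ⟨k, h1, h2, h3⟩ := hp.st.T y z hyz hc
      exact ⟨k, hsub y h1, hsub z h2, h3⟩
  · refine ⟨h0.c, ?_, h0.a, ?_, h0.s, h0.sf, h0.f, h0.D, ?_⟩
    · dsimp only
      omega
    · intro y _ k hk
      dsimp only
      by_cases h : y = x
      · subst h
        rw [Function.update_self, Finset.mem_insert]
        constructor
        · rintro (h1 | h1)
          · omega
          · exact h1
        · exact fun h1 => Or.inr h1
      · rw [Function.update_of_ne h]
    · intro y z hyz k hk hy hz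
      obtain ⟨hne, -, -⟩ := hp.st.D y z hyz
      dsimp only at hy hz
      have key : ∀ w, k ∈ Function.update p.st.A x (insert (max n p.st.m) (p.st.A x)) w →
          w = x := by
        intro w hw
        by_contra h
        rw [Function.update_of_ne h] at hw
        have := Finset.mem_range.1 (hp.st.A w hw)
        omega
      exact hne ((key y hy).trans (key z hz).symm)
  · rw [mkc_st]
    dsimp only
    rw [Function.update_self]
    exact Finset.mem_insert_self _ _

/-- increase `m` -/
theorem ext_m {p : Cond K Ω} (hp : Ps G ⊤ p) (n : ℕ) :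
    ∃ q, Ps G ⊤ q ∧ Le q p ∧ n ≤ q.st.m ∧ q.st.a = p.st.a := by
  have h0 := SLe.refl' p.st hp.st.A
  refine ⟨mkc { p.st with m := max n p.st.m } p.prom p.prom_finite, DENA_ps hp ?_,
    DENA_le ?_ rfl, ?_, ?_⟩
  · refine ⟨hp.st.fin, hp.st.low, ?_, hp.st.out, hp.st.D, fun y z hyz hc => hp.st.T y z hyz hc⟩
    intro y
    refine (hp.st.A y).trans ?_
    intro k hk
    have := Finset.mem_range.1 hk
    exact Finset.mem_range.2 (lt_of_lt_of_le this (le_max_right _ _))
  · exact ⟨h0.c, le_max_right _ _, h0.a, h0.A, h0.s, h0.sf, h0.f, h0.D, h0.fr⟩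
  · rw [mkc_st]
    exact le_max_left _ _
  · rw [mkc_st]

/-- extend `s x` by the values of `f x` (and leave everything else unchanged) -/
theorem ext_s {p : Cond K Ω} (hp : Ps G ⊤ p) {x : K} (hx : x ∈ p.st.a) (n : ℕ) :
    ∃ q, Ps G ⊤ q ∧ Le q p ∧ n < (q.st.s x).length ∧ q.st.c = p.st.c ∧ q.st.m = p.st.m ∧
      q.st.a = p.st.a ∧ q.st.A = p.st.A ∧ (∀ y, y ≠ x → q.st.s y = p.st.s y) := by
  classical
  have h0 := SLe.refl' p.st hp.st.A
  set l : List ℕ := p.st.s x ++ (List.range (n + 1)).map
    (fun i => p.st.f x ((p.st.s x).length + i)) with hl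
  have hlen : l.length = (p.st.s x).length + (n + 1) := by simp [hl]
  have hpre : p.st.s x <+: l := List.prefix_append _ _
  have hval : ∀ i, (p.st.s x).length ≤ i → i < l.length → l.getD i 0 = p.st.f x i := by
    intro i h1 h2
    rw [hl, List.getD_append_right _ _ _ _ h1, List.getD_eq_getElem _ _ (by simp; omega)]
    simp only [List.getElem_map, List.getElem_range]
    congr 1
    omega
  refine ⟨mkc { p.st with s := Function.update p.st.s x l } p.prom p.prom_finite, DENA_ps hp ?_,
    DENA_le ?_ rfl, ?_, rfl, rfl, rfl, rfl, ?_⟩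
  · refine ⟨hp.st.fin, hp.st.low, hp.st.A, ?_, hp.st.D, ?_⟩
    · intro y hy
      have hyx : y ≠ x := fun h => hy (h ▸ hx)
      dsimp only
      rw [Function.update_of_ne hyx]
      exact hp.st.out y hy
    · intro y z hyz hc
      obtain ⟨k, h1, h2, h3, h4, h5, h6⟩ := hp.st.T y z hyz hc
      refine ⟨k, h1, h2, h3, ?_, ?_, h6⟩
      · intro i hi
        dsimp only at hi ⊢
        by_cases h : z = x
        · subst h
          rw [Function.update_self] at hi ⊢
          by_cases hi2 : i < (p.st.s z).length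
          · rw [getD_of_prefix hpre hi2]
            exact h4 i hi2
          · rw [hval i (not_lt.1 hi2) hi]
            exact (h5 i (not_lt.1 hi2)).trans (Nat.le_add_right _ _)
        · rw [Function.update_of_ne h] at hi ⊢
          exact h4 i hi
      · intro i hi
        dsimp only at hi ⊢
        by_cases h : z = x
        · subst h
          rw [Function.update_self] at hi
          exact h5 i (hpre.length_le.trans hi)
        · rw [Function.update_of_ne h] at hi
          exact h5 i hi
  · refine ⟨h0.c, h0.m, h0.a, h0.A, ?_, ?_, h0.f, h0.D, h0.fr⟩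
    · intro y _
      dsimp only
      by_cases h : y = x
      · subst h
        rw [Function.update_self]
        exact hpre
      · rw [Function.update_of_ne h]
    · intro y _ i h1 h2
      dsimp only at h2 ⊢
      by_cases h : y = x
      · subst h
        rw [Function.update_self] at h2 ⊢
        exact (hval i h1 h2).ge
      · rw [Function.update_of_ne h] at h2
        exact absurd h2 (not_lt.2 h1)
  · rw [mkc_st]
    dsimp only
    rw [Function.update_self, hlen]
    omega
  · intro y hy
    rw [mkc_st]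
    dsimp only
    rw [Function.update_of_ne hy]

/-- replace `f x` by the maximum of `f x` and `h` (and leave everything else unchanged) -/
theorem ext_f {p : Cond K Ω} (hp : Ps G ⊤ p) {x : K} (hx : x ∈ p.st.a) (h : ℕ → ℕ) :
    ∃ q, Ps G ⊤ q ∧ Le q p ∧ (∀ i, h i ≤ q.st.f x i) ∧ q.st.c = p.st.c ∧ q.st.m = p.st.m ∧
      q.st.a = p.st.a ∧ q.st.A = p.st.A ∧ q.st.s = p.st.s ∧ q.st.D = p.st.D := by
  classical
  have h0 := SLe.refl' p.st hp.st.A
  have hf : ∀ y i, p.st.f y i ≤
      Function.update p.st.f x (fun i => max (p.st.f x i) (h i)) y i := by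
    intro y i
    by_cases hy : y = x
    · subst hy
      rw [Function.update_self]
      exact le_max_left _ _
    · rw [Function.update_of_ne hy]
  refine ⟨mkc { p.st with f := Function.update p.st.f x (fun i => max (p.st.f x i) (h i)) }
    p.prom p.prom_finite, DENA_ps hp ?_, DENA_le ?_ rfl, ?_, rfl, rfl, rfl, rfl, rfl, rfl⟩
  · refine ⟨hp.st.fin, hp.st.low, hp.st.A, ?_, hp.st.D, ?_⟩
    · intro y hy
      have hyx : y ≠ x := fun h => hy (h ▸ hx)
      dsimp only
      rw [Function.update_of_ne hyx]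
      exact hp.st.out y hy
    · intro y z hyz hc
      obtain ⟨k, h1, h2, h3, h4, h5, h6⟩ := hp.st.T y z hyz hc
      exact ⟨k, h1, h2, h3, h4, fun i hi => (h5 i hi).trans (hf z i), h6⟩
  · exact ⟨h0.c, h0.m, h0.a, h0.A, h0.s, h0.sf, fun y _ i => hf y i, h0.D, h0.fr⟩
  · intro i
    rw [mkc_st]
    dsimp only
    rw [Function.update_self]
    exact le_max_right _ _

/-- add a promise -/
theorem ext_prom {p : Cond K Ω} (hp : Ps G ⊤ p) {β : Ω} {z : Name K Ω} (hz : Adm G β z) :
    ∃ q, Ps G ⊤ q ∧ Le q p ∧ (β, z) ∈ q.prom := by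
  have hfin : (insert ((β, z) : Prom K Ω) p.prom).Finite := p.prom_finite.insert _
  refine ⟨mkc p.st (insert (β, z) p.prom) hfin, ⟨?_, ?_⟩, le_of_st ?_ ?_ ?_, ?_⟩
  · rw [mkc_st]
    exact hp.st
  · rw [mkc_prom]
    rintro r (rfl | hr)
    · exact ⟨WithTop.coe_lt_top _, hz⟩
    · exact hp.prom r hr
  · rw [mkc_st]
    exact SLe.refl' p.st hp.st.A
  · rw [mkc_st]
  · rw [mkc_prom]
    exact Set.subset_insert _ _
  · rw [mkc_prom]
    exact Set.mem_insert _ _

end PSI
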