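import Pool.Agent.H74.PSI.Cor

/-!
# DENC: the functions `c β` are total (Lemma 3, D1)
-/

set_option autoImplicit false
set_option linter.unusedSectionVars false

namespace PSI

variable {K Ω : Type} [LinearOrder Ω] [WellFoundedLT Ω] {G : PD K Ω}

/-- for a finite set `I` of promises of level `β` of `p` and `n` there is `q ≤ p` which decides all names of `I` at
`n`, with `q.c γ = p.c γ` for `γ ≥ β`: induction on `I`, `adm_ext`, `le_trans` -/
theorem decide_all {β : Ω} {p : Cond K Ω} (hp : Ps G ⊤ p) (I : Finset (Name K Ω))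
    (hI : ∀ z ∈ I, Adm G β z) (n : ℕ) : ∃ q, Ps G ⊤ q ∧ Le q p ∧
      (∀ γ : Ω, ¬ (γ < β) → q.st.c γ = p.st.c γ) ∧ (∀ z ∈ I, ∃ i, Le q (z.1 n i)) := by
  classical
  induction I using Finset.induction_on with
  | empty => exact ⟨p, hp, le_refl hp, fun _ _ => rfl, fun z hz => absurd hz (Finset.notMem_empty z)⟩
  | insert z I hzI ih =>
    obtain ⟨q, hq, hqp, hqc, hqI⟩ := ih fun z hz => hI z (Finset.mem_insert_of_mem hz)
    obtain ⟨i, w, hw, hwq, hwz, hwc, -⟩ := adm_ext le_top (hI z (Finset.mem_insert_self z I)) hq n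
    refine ⟨w, hw, le_trans hp hwq hqp, fun γ hγ => (hwc γ hγ).trans (hqc γ hγ), fun z' hz' => ?_⟩
    rcases Finset.mem_insert.1 hz' with rfl | hz'
    · exact ⟨i, hwz⟩
    · obtain ⟨j, hj⟩ := hqI z' hz'
      exact ⟨j, le_trans ((hI z' (Finset.mem_insert_of_mem hz')).pl n j).ps hwq hj⟩

theorem denc_getD (l : List ℕ) (v : ℕ) : (l ++ [v]).getD l.length 0 = v := by
  simp

/-- D1. Let `n = (p.c β).length`, `I` = the names of the promises of level `β` of `p` (`Cond.prom_finite`), `q0` from `decide_all`,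
for `z ∈ I` choose `i z` with `Le q0 (z.1 n (i z))`, let `v` be larger than all `z.2 n (i z)`, and let `q` be `q0` with
`c β` replaced by `p.c β ++ [v]` (`Function.update`) and the promises of `p` or of level `≠ β` of `q0` only: put
`q.prom = p.prom ∪ {r ∈ q0.prom | r.1 < β}`, `q.D = q0.D`. Then `Ps G ⊤ q` (`TReq`: at `dl x y = β` the list only grows, `getD_of_prefix`),
`Agr G β q0 q`, so `Le q (z.1 n (i z))` by `le_local` (`Adm.pl`), and `Le q p` by `le_iff`: for a promise `r` of `p` with `r.1 = β` the only new `n` is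
`(p.c β).length`; for `r.1 ≠ β`: the new `n` are new for `q0`, so `Le q0 (z n j)` and `r.1 < β` (for `r.1 > β` there is no new `n`), `le_local` again
with `Agr.mono`. -/
theorem ext_c1 {p : Cond K Ω} (hp : Ps G ⊤ p) (β : Ω) :
    ∃ q, Ps G ⊤ q ∧ Le q p ∧ (p.st.c β).length < (q.st.c β).length := by
  classical
  have hfin : {r ∈ p.prom | r.1 = β}.Finite := p.prom_finite.subset fun _ h => h.1
  let I : Finset (Name K Ω) := hfin.toFinset.image Prod.snd
  have hI1 : ∀ r ∈ p.prom, r.1 = β → r.2 ∈ I := fun r hr hrβ =>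
    Finset.mem_image.2 ⟨r, hfin.mem_toFinset.2 ⟨hr, hrβ⟩, rfl⟩
  have hI2 : ∀ z ∈ I, Adm G β z := by
    intro z hz
    obtain ⟨r, hr, rfl⟩ := Finset.mem_image.1 hz
    obtain ⟨hr1, hr2⟩ := hfin.mem_toFinset.1 hr
    rw [← hr2]
    exact (hp.prom r hr1).2
  obtain ⟨q0, hq0, hqp, hqc, hqI⟩ := decide_all hp I hI2 (p.st.c β).length
  choose! i hi using hqI
  let v : ℕ := (I.sup fun z => z.2 (p.st.c β).length (i z)) + 1
  have hv : ∀ z ∈ I, z.2 (p.st.c β).length (i z) < v := fun z hz =>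
    Nat.lt_succ_of_le (Finset.le_sup (f := fun z : Name K Ω => z.2 (p.st.c β).length (i z)) hz)
  let S : Stem K Ω := { q0.st with c := Function.update q0.st.c β (p.st.c β ++ [v]) }
  have hfin2 : (p.prom ∪ {r ∈ q0.prom | r.1 < β}).Finite :=
    p.prom_finite.union (q0.prom_finite.subset fun _ h => h.1)
  have hcβ : S.c β = p.st.c β ++ [v] := Function.update_self _ _ _
  have hcne : ∀ γ, γ ≠ β → S.c γ = q0.st.c γ := fun γ hγ => Function.update_of_ne hγ _ _
  have hq0β : q0.st.c β = p.st.c β := hqc β (lt_irrefl β)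
  have hag : Agr G (β : WithTop Ω) q0 (mkc S (p.prom ∪ {r ∈ q0.prom | r.1 < β}) hfin2) := by
    refine ⟨rfl, rfl, rfl, rfl, rfl, fun γ hγ => ?_, fun x y hxy _ => hxy, fun r hr hrβ => ?_⟩
    · exact hcne γ (WithTop.coe_lt_coe.1 hγ).ne
    · rw [mkc_prom]
      exact Or.inr ⟨hr, WithTop.coe_lt_coe.1 hrβ⟩
  have hpref : ∀ γ, q0.st.c γ <+: S.c γ := by
    intro γ
    by_cases hγ : γ = β
    · rw [hγ, hcβ, hq0β]
      exact List.prefix_append _ _
    · rw [hcne γ hγ]
  have hle0 := (le_iff _ _).1 hqp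
  refine ⟨mkc S (p.prom ∪ {r ∈ q0.prom | r.1 < β}) hfin2, ⟨⟨?_, ?_, hq0.st.A, hq0.st.out, hq0.st.D,
    ?_⟩, ?_⟩, ?_, ?_⟩
  · refine (hq0.st.fin.union (Set.finite_singleton β)).subset fun γ hγ => ?_
    by_cases h : γ = β
    · exact Or.inr h
    · left
      have hγ' : S.c γ ≠ [] := hγ
      rw [hcne γ h] at hγ'
      exact hγ'
  · exact fun γ _ => WithTop.coe_lt_top γ
  · intro x y hxy hcd
    obtain ⟨k, hkx, hky, hk0, hs, hf, hc⟩ := hq0.st.T x y hxy hcd
    refine ⟨k, hkx, hky, hk0, hs, hf, fun hdl => ?_⟩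
    have h1 := hc hdl
    have h2 := hpref (G.dl x y)
    refine ⟨h1.1.trans_le h2.length_le, ?_⟩
    show (S.c (G.dl x y)).getD (G.nu x y) 0 < k
    rw [getD_of_prefix h2 h1.1]
    exact h1.2
  · intro r hr
    rw [mkc_prom] at hr
    rcases hr with hr | hr
    · exact hp.prom r hr
    · exact hq0.prom r hr.1
  · rw [le_iff]
    have hst := hle0.1
    refine ⟨⟨fun γ => ?_, hst.m, hst.a, hst.A, hst.s, hst.sf, hst.f, hst.D, hst.fr⟩, ?_, ?_⟩
    · exact (hst.c γ).trans (hpref γ)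
    · rw [mkc_prom]
      exact Set.subset_union_left
    · intro r hr n hn1 hn2
      have hn2' : n < (S.c r.1).length := hn2
      by_cases hrβ : r.1 = β
      · rw [hrβ] at hn1
        rw [hrβ, hcβ, List.length_append, List.length_singleton] at hn2'
        have hn : n = (p.st.c β).length := by omega
        subst hn
        refine ⟨i r.2, le_local ((hI2 r.2 (hI1 r hr hrβ)).pl _ _) (hi r.2 (hI1 r hr hrβ)) hag, ?_⟩
        show r.2.2 _ _ < (S.c r.1).getD _ 0
        rw [hrβ, hcβ, denc_getD]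
        exact hv r.2 (hI1 r hr hrβ)
      · rw [hcne r.1 hrβ] at hn2'
        obtain ⟨j, hj1, hj2⟩ := hle0.2.2 r hr n hn1 hn2'
        have hlt : r.1 < β := by
          by_contra h
          rw [hqc r.1 h] at hn2'
          exact absurd hn2' (not_lt.2 hn1)
        refine ⟨j, le_local ((hp.prom r hr).2.pl n j) hj1 (hag.mono (WithTop.coe_le_coe.2 hlt.le)), ?_⟩
        show r.2.2 n j < (S.c r.1).getD n 0
        rw [hcne r.1 hrβ]
        exact hj2
  · show (p.st.c β).length < (S.c β).length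
    rw [hcβ, List.length_append, List.length_singleton]
    exact Nat.lt_succ_self _

/-- iterate `ext_c1` (the length of `c β` does not decrease: `SLe.c`) -/
theorem ext_c {p : Cond K Ω} (hp : Ps G ⊤ p) (β : Ω) (n : ℕ) :
    ∃ q, Ps G ⊤ q ∧ Le q p ∧ n < (q.st.c β).length := by
  induction n with
  | zero =>
    obtain ⟨q, hq, hqp, h⟩ := ext_c1 hp β
    exact ⟨q, hq, hqp, lt_of_le_of_lt (Nat.zero_le _) h⟩
  | succ n ih =>
    obtain ⟨q, hq, hqp, h⟩ := ih
    obtain ⟨w, hw, hwq, h'⟩ := ext_c1 hq β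
    exact ⟨w, hw, le_trans hp hwq hqp, by omega⟩

end PSI
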