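import Pool.Agent.H74.PSI.DenC
import Pool.Agent.H74.PSI.DenA

/-!
# DENF: any two indices can be frozen (Lemma 3, D2)
-/

set_option autoImplicit false
set_option linter.unusedSectionVars false

namespace PSI

variable {K Ω : Type} [LinearOrder Ω] [WellFoundedLT Ω] {G : PD K Ω}

/-- uncoded pairs -/
theorem ext_fr_un {p : Cond K Ω} (hp : Ps G ⊤ p) {x y : K} (h1 : ¬ G.cd x y) (h2 : ¬ G.cd y x)
    (hxy : x ≠ y) (hx : x ∈ p.st.a) (hy : y ∈ p.st.a) :
    ∃ q, Ps G ⊤ q ∧ Le q p ∧ s(x, y) ∈ q.st.D := by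
  classical
  refine ⟨mkc { p.st with D := insert s(x, y) p.st.D } p.prom p.prom_finite,
    ⟨⟨hp.st.fin, hp.st.low, hp.st.A, hp.st.out, ?_, ?_⟩, ?_⟩, ?_, Finset.mem_insert_self _ _⟩
  · intro z w hzw
    rcases Finset.mem_insert.1 hzw with h | h
    · rcases Sym2.eq_iff.1 h with ⟨rfl, rfl⟩ | ⟨rfl, rfl⟩
      · exact ⟨hxy, hx, hy⟩
      · exact ⟨hxy.symm, hy, hx⟩
    · exact hp.st.D z w h
  · intro z w hzw hcd
    rcases Finset.mem_insert.1 hzw with h | h
    · rcases Sym2.eq_iff.1 h with ⟨rfl, rfl⟩ | ⟨rfl, rfl⟩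
      · exact absurd hcd h1
      · exact absurd hcd h2
    · exact hp.st.T z w h hcd
  · intro r hr
    rw [mkc_prom] at hr
    exact hp.prom r hr
  · refine le_of_st ?_ rfl (by rw [mkc_prom])
    have h := SLe.refl' p.st hp.st.A
    exact ⟨h.c, h.m, h.a, h.A, h.s, h.sf, h.f, Finset.subset_insert _ _, h.fr⟩

/-- coded pairs -/
theorem ext_fr_cd {p : Cond K Ω} (hp : Ps G ⊤ p) {x y : K} (h1 : G.cd x y) (h2 : ¬ G.cd y x)
    (hxy : x ≠ y) (hx : x ∈ p.st.a) (hy : y ∈ p.st.a) :
    ∃ q, Ps G ⊤ q ∧ Le q p ∧ s(x, y) ∈ q.st.D := by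
  classical
  obtain ⟨p1, hp1, hle1, hlen⟩ := ext_c hp (G.dl x y) (G.nu x y)
  by_cases hfr : s(x, y) ∈ p1.st.D
  · exact ⟨p1, hp1, hle1, hfr⟩
  have hx1 : x ∈ p1.st.a := ((le_iff _ _).1 hle1).1.a hx
  have hy1 : y ∈ p1.st.a := ((le_iff _ _).1 hle1).1.a hy
  obtain ⟨p2, hp2, hle2, hf, hc, hm, ha, hA, hs, hD⟩ := ext_f hp1 hy1 (G.g x y)
  have hx2 : x ∈ p2.st.a := by rw [ha]; exact hx1
  have hy2 : y ∈ p2.st.a := by rw [ha]; exact hy1
  have hfr2 : s(x, y) ∉ p2.st.D := by rw [hD]; exact hfr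
  set k : ℕ := p2.st.m + 1 + (p2.st.c (G.dl x y)).getD (G.nu x y) 0 +
    ∑ i ∈ Finset.range (p2.st.s y).length, G.g x y i with hk
  have hkm : p2.st.m ≤ k := by omega
  have hkc : (p2.st.c (G.dl x y)).getD (G.nu x y) 0 < k := by omega
  have hkg : ∀ i < (p2.st.s y).length, G.g x y i ≤ k := by
    intro i hi
    have : G.g x y i ≤ ∑ i ∈ Finset.range (p2.st.s y).length, G.g x y i :=
      Finset.single_le_sum (f := fun i => G.g x y i) (fun _ _ => Nat.zero_le _)
        (Finset.mem_range.2 hi)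
    omega
  set A' : K → Finset ℕ := fun z => if z = x ∨ z = y then insert k (p2.st.A z) else p2.st.A z
    with hA'
  have hA1 : ∀ z, p2.st.A z ⊆ A' z := by
    intro z
    simp only [hA']
    split_ifs
    · exact Finset.subset_insert _ _
    · exact Finset.Subset.refl _
  have hA2 : ∀ z j, j ∈ A' z → j ∈ p2.st.A z ∨ (j = k ∧ (z = x ∨ z = y)) := by
    intro z j hj
    simp only [hA'] at hj
    split_ifs at hj with h
    · rcases Finset.mem_insert.1 hj with h3 | h3
      · exact Or.inr ⟨h3, h⟩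
      · exact Or.inl h3
    · exact Or.inl hj
  have hAx : k ∈ A' x := by
    show k ∈ (if x = x ∨ x = y then insert k (p2.st.A x) else p2.st.A x)
    rw [if_pos (Or.inl rfl)]
    exact Finset.mem_insert_self _ _
  have hAy : k ∈ A' y := by
    show k ∈ (if y = x ∨ y = y then insert k (p2.st.A y) else p2.st.A y)
    rw [if_pos (Or.inr rfl)]
    exact Finset.mem_insert_self _ _
  have hlt : ∀ z j, j ∈ p2.st.A z → j < p2.st.m := fun z j hj =>
    Finset.mem_range.1 (hp2.st.A z hj)
  refine ⟨mkc { p2.st with m := k + 1, A := A', D := insert s(x, y) p2.st.D } p2.prom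
    p2.prom_finite, ⟨⟨hp2.st.fin, hp2.st.low, ?_, ?_, ?_, ?_⟩, ?_⟩, ?_,
    Finset.mem_insert_self _ _⟩
  · intro z j hj
    have h3 := hA2 z j hj
    refine Finset.mem_range.2 ?_
    show j < k + 1
    rcases h3 with h3 | h3
    · have := hlt z j h3
      omega
    · omega
  · intro z hz
    have h3 : ¬ (z = x ∨ z = y) := by
      rintro (rfl | rfl)
      · exact hz hx2
      · exact hz hy2
    have h4 := hp2.st.out z hz
    refine ⟨?_, h4.2⟩
    show A' z = ∅
    simp only [hA']
    rw [if_neg h3]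
    exact h4.1
  · intro z w hzw
    rcases Finset.mem_insert.1 hzw with h | h
    · rcases Sym2.eq_iff.1 h with ⟨rfl, rfl⟩ | ⟨rfl, rfl⟩
      · exact ⟨hxy, hx2, hy2⟩
      · exact ⟨hxy.symm, hy2, hx2⟩
    · exact hp2.st.D z w h
  · intro z w hzw hcd
    rcases Finset.mem_insert.1 hzw with h | h
    · rcases Sym2.eq_iff.1 h with ⟨rfl, rfl⟩ | ⟨rfl, rfl⟩
      · refine ⟨k, hAx, hAy, by omega, ?_, ?_, ?_⟩
        · intro i hi
          exact (hkg i hi).trans (Nat.le_add_left _ _)
        · intro i _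
          exact hf i
        · intro _
          refine ⟨?_, hkc⟩
          show G.nu z w < (p2.st.c (G.dl z w)).length
          rw [hc]
          exact hlen
      · exact absurd hcd h2
    · obtain ⟨j, hj1, hj2, hj3⟩ := hp2.st.T z w h hcd
      exact ⟨j, hA1 z hj1, hA1 w hj2, hj3⟩
  · intro r hr
    rw [mkc_prom] at hr
    exact hp2.prom r hr
  · refine le_trans hp (le_trans (p := p2) hp1 ?_ hle2) hle1
    refine le_of_st ?_ rfl (by rw [mkc_prom])
    have h := SLe.refl' p2.st hp2.st.A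
    refine ⟨h.c, ?_, h.a, ?_, h.s, h.sf, h.f, Finset.subset_insert _ _, ?_⟩
    · show p2.st.m ≤ k + 1
      omega
    · intro z _ j hj
      refine ⟨fun h3 => ?_, fun h3 => hA1 z h3⟩
      rcases hA2 z j h3 with h4 | h4
      · exact h4
      · omega
    · intro z w hzw j hj hz hw
      have hj' : p2.st.m ≤ j := hj
      have hz1 : z = x ∨ z = y := by
        rcases hA2 z j hz with h4 | h4
        · have := hlt z j h4
          omega
        · exact h4.2
      have hw1 : w = x ∨ w = y := by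
        rcases hA2 w j hw with h4 | h4
        · have := hlt w j h4
          omega
        · exact h4.2
      have hne := (hp2.st.D z w hzw).1
      apply hfr2
      rcases hz1 with rfl | rfl
      · rcases hw1 with rfl | rfl
        · exact absurd rfl hne
        · exact hzw
      · rcases hw1 with rfl | rfl
        · rw [Sym2.eq_swap]
          exact hzw
        · exact absurd rfl hne

/-- D2. At most one of `G.cd x y`, `G.cd y x` holds; by symmetry (`Sym2.eq_swap`) let `¬ G.cd y x`. If `s(x, y) ∈ p.D`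
nothing is to be done. If the pair is uncoded add it to `D`. If `G.cd x y`: `ext_c` at `G.dl x y` beyond `G.nu x y`
(if the pair is frozen in the extension we are done), then `ext_f` at `y` with `G.g x y`; call the result `p'`. Let `k` be
`≥ p'.m`, `≥ 1`, larger than `(p'.c (dl x y)).getD (nu x y) 0` and `≥ g x y i` for all `i < (p'.s y).length`. Let `q` be `p'` with `k` put
into `A x` and `A y` (only), `m := k + 1`, `s(x, y)` added to `D`. `TReq` for `x, y` holds with this `k`; for the other frozen pairs with the old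
numbers. `Le q p'` by `le_of_st`: a frozen pair of `p'` is different from `{x, y}`, so `k` is not in both sets. -/
theorem ext_fr (hG : ∀ x y, G.cd x y → ¬ G.cd y x) {p : Cond K Ω} (hp : Ps G ⊤ p) {x y : K}
    (hxy : x ≠ y) (hx : x ∈ p.st.a) (hy : y ∈ p.st.a) :
    ∃ q, Ps G ⊤ q ∧ Le q p ∧ s(x, y) ∈ q.st.D := by
  by_cases h1 : G.cd x y
  · exact ext_fr_cd hp h1 (hG x y h1) hxy hx hy
  · by_cases h2 : G.cd y x
    · rw [Sym2.eq_swap]
      exact ext_fr_cd hp h2 h1 hxy.symm hy hx
    · exact ext_fr_un hp h1 h2 hxy hx hy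

end PSI
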