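import Pool.Agent.H74.PSI.Gen
import Pool.Agent.H74.PSI.Nam

/-!
# DOML: the scale dominates (E1)
-/

set_option autoImplicit false
set_option linter.unusedSectionVars false

namespace PSI

open BV

variable {K Ω : Type} [LinearOrder Ω] [WellFoundedLT Ω] {G : PD K Ω}
  {B : Type} [CompleteBooleanAlgebra B] {e : Pos G → B} (he : DenseEmb (Pos G) B e)

/-- the trivial condition -/
private theorem doml_nonempty (G : PD K Ω) : Nonempty (Pos G) := by
  refine ⟨⟨.mk ⟨fun _ => [], 0, ∅, fun _ => ∅, fun _ => [], fun _ _ => 0, ∅⟩ 0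
    (fun i => i.elim0) (fun i => i.elim0) (fun i => i.elim0), ⟨⟨?_, ?_, ?_, ?_, ?_, ?_⟩, ?_⟩⟩⟩
  · have : {γ : Ω | (([] : List ℕ)) ≠ []} = ∅ := by
      ext γ
      simp
    show {γ : Ω | (([] : List ℕ)) ≠ []}.Finite
    rw [this]
    exact Set.finite_empty
  · intro γ hγ
    exact absurd rfl hγ
  · intro x
    exact Finset.empty_subset _
  · intro x _
    exact ⟨rfl, rfl, rfl⟩
  · intro x y hxy
    exact absurd hxy (Finset.notMem_empty _)
  · intro x y hxy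
    exact absurd hxy (Finset.notMem_empty _)
  · rintro r ⟨i, rfl⟩
    exact i.elim0

include he

/-- a name with the values `z n v`: every `z n v` is the supremum of countably many conditions (`exists_csup`); for fixed `n` enumerate the
countable (nonempty) set of all pairs `(c, v)`, `c` one of the conditions for `z n v`; the conditions are predense since
`⨆ v, z n v = ⊤` (`le_bsup_iff`) -/
theorem exists_name (hK : Kn (Pos G)) (z : ℕ → ℕ → B) (hz : ∀ n, (⨆ v, z n v) = ⊤) :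
    ∃ y : Name K Ω, (∀ n i, ∃ h : Ps G ⊤ (y.1 n i), e ⟨y.1 n i, h⟩ ≤ z n (y.2 n i)) ∧
      ∀ n p, Ps G ⊤ p → ∃ i q, Ps G ⊤ q ∧ Le q p ∧ Le q (y.1 n i) := by
  choose D hD1 hD2 using fun n v => exists_csup hK he (z n v)
  -- below every condition there is one below a member of `D n v`, some `v`
  have key : ∀ n (p : Pos G), ∃ q, q ≤ p ∧ ∃ v, ∃ c ∈ D n v, q ≤ c := by
    intro n p
    obtain ⟨q, hqp, v, hqv⟩ := he.exists_le_of_le_iSup (p := p) (f := z n)
      (by rw [hz n]; exact le_top)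
    rw [hD2 n v] at hqv
    obtain ⟨u, huq, c, hc, huc⟩ := (le_bsup_iff he q (D n v)).1 hqv q (_root_.le_refl q)
    exact ⟨u, _root_.le_trans huq hqp, v, c, hc, huc⟩
  have hcount : ∀ n, {r : Pos G × ℕ | r.1 ∈ D n r.2}.Countable := by
    intro n
    have : {r : Pos G × ℕ | r.1 ∈ D n r.2} ⊆ ⋃ v, (fun c : Pos G => (c, v)) '' D n v := by
      rintro ⟨c, v⟩ hc
      exact Set.mem_iUnion.2 ⟨v, c, hc, rfl⟩
    exact (Set.countable_iUnion fun v => (hD1 n v).image _).mono this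
  have hne : ∀ n, {r : Pos G × ℕ | r.1 ∈ D n r.2}.Nonempty := by
    intro n
    obtain ⟨p⟩ := doml_nonempty G
    obtain ⟨_, _, v, c, hc, _⟩ := key n p
    exact ⟨(c, v), hc⟩
  choose f hf using fun n => (hcount n).exists_eq_range (hne n)
  have hf' : ∀ n i, (f n i).1 ∈ D n (f n i).2 := by
    intro n i
    have : f n i ∈ {r : Pos G × ℕ | r.1 ∈ D n r.2} := by
      rw [hf n]
      exact ⟨i, rfl⟩
    exact this
  refine ⟨(fun n i => (f n i).1.1, fun n i => (f n i).2), ?_, ?_⟩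
  · intro n i
    refine ⟨(f n i).1.2, ?_⟩
    show e (f n i).1 ≤ z n (f n i).2
    rw [hD2 n (f n i).2]
    exact le_biSup e (hf' n i)
  · intro n p hp
    obtain ⟨q, hqp, v, c, hc, hqc⟩ := key n ⟨p, hp⟩
    have hmem : (c, v) ∈ {r : Pos G × ℕ | r.1 ∈ D n r.2} := hc
    rw [hf n] at hmem
    obtain ⟨i, hi⟩ := hmem
    refine ⟨i, q.1, q.2, hqp, ?_⟩
    show Le q.1 (f n i).1.1
    rw [hi]
    exact hqc

/-- `exists_name`, `exists_adm` (Lemma 5) gives `β0`; for `β ≥ β0` `Adm.mono`; below every condition there is `p` with the promise `(β, y)`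
(`ext_prom`); let `m = (p.c β).length`; for `n ≥ m` and `t ≤ p` let `u ≤ t` with `n < (u.c β).length` (`ext_c`); by `le_iff` for `u ≤ p` there is
`j` with `Le u (y.1 n j)` and `v = y.2 n j < w = (u.c β).getD n 0`, so `e u ≤ z n v ⊓ ce e β n w`; `le_of_dense` -/
theorem dom_level (hK : Kn (Pos G))
    (hΩ : ∀ s : Set Ω, s.Countable → ∃ β, ∀ γ ∈ s, γ < β)
    (z : ℕ → ℕ → B) (hz : ∀ n, (⨆ v, z n v) = ⊤) : ∃ β0 : Ω, ∀ β, β0 ≤ β →
      (⨆ m, ⨅ n, ⨅ _ : m ≤ n, ⨆ v, ⨆ w, ⨆ _ : v < w, z n v ⊓ ce e β n w) = ⊤ := by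
  obtain ⟨y, hy1, hy2⟩ := exists_name he hK z hz
  obtain ⟨β0, hβ0⟩ := exists_adm hΩ y (fun n i => (hy1 n i).1) hy2
  refine ⟨β0, fun β hβ => eq_top_of_dense he fun t => ?_⟩
  obtain ⟨p, hp, hpt, hprom⟩ := ext_prom t.2 (hβ0.mono hβ)
  refine ⟨⟨p, hp⟩, hpt, ?_⟩
  refine le_iSup_of_le (p.st.c β).length (le_iInf fun n => le_iInf fun hn => ?_)
  refine le_of_dense he fun q hq => ?_
  obtain ⟨u, hu, huq, hun⟩ := ext_c q.2 β n
  have hup : Le u p := le_trans hp huq hq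
  obtain ⟨j, hj1, hj2⟩ := ((le_iff u p).1 hup).2.2 (β, y) hprom n hn hun
  refine ⟨⟨u, hu⟩, huq, ?_⟩
  refine le_iSup_of_le (y.2 n j) (le_iSup_of_le ((u.st.c β).getD n 0) (le_iSup_of_le hj2
    (le_inf ?_ (le_ce hun rfl))))
  obtain ⟨h, h'⟩ := hy1 n j
  exact _root_.le_trans (he.mono ⟨u, hu⟩ ⟨y.1 n j, h⟩ hj1) h'

end PSI
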