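import Mathlib

/-!
# DSYS: the Delta-system lemma for finite sets
-/

set_option autoImplicit false
set_option linter.unusedSectionVars false

namespace PSI

theorem dsys_disj {ι α : Type} (S : Set ι) (hS : ¬ S.Countable) (F : ι → Finset α)
    (h : ∀ a, {i ∈ S | a ∈ F i}.Countable) :
    ∃ T ⊆ S, ¬ T.Countable ∧ T.PairwiseDisjoint F := by
  obtain ⟨T, hT⟩ := zorn_subset {T : Set ι | T ⊆ S ∧ T.PairwiseDisjoint F} (by
    intro c hc hchain
    refine ⟨⋃₀ c, ⟨Set.sUnion_subset fun t ht => (hc ht).1, ?_⟩, fun s hs => Set.subset_sUnion_of_mem hs⟩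
    rw [Set.pairwiseDisjoint_sUnion hchain.directedOn]
    exact fun t ht => (hc ht).2)
  refine ⟨T, hT.prop.1, fun hTc => ?_, hT.prop.2⟩
  have h1 : (T ∪ ⋃ i ∈ T, ⋃ a ∈ F i, {j ∈ S | a ∈ F j}).Countable :=
    hTc.union (hTc.biUnion fun i _ => (F i).countable_toSet.biUnion fun a _ => h a)
  obtain ⟨j, hjS, hj⟩ : ∃ j ∈ S, j ∉ T ∪ ⋃ i ∈ T, ⋃ a ∈ F i, {j ∈ S | a ∈ F j} := by
    by_contra hcon
    push Not at hcon
    exact hS (h1.mono hcon)
  have hjT : j ∉ T := fun h => hj (Or.inl h)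
  have hdis : ∀ i ∈ T, Disjoint (F j) (F i) := by
    intro i hi
    rw [Finset.disjoint_left]
    intro a haj hai
    exact hj (Or.inr (Set.mem_biUnion hi (Set.mem_biUnion hai ⟨hjS, haj⟩)))
  have h2 : insert j T ∈ {T : Set ι | T ⊆ S ∧ T.PairwiseDisjoint F} := by
    refine ⟨Set.insert_subset hjS hT.prop.1, ?_⟩
    rw [Set.pairwiseDisjoint_insert]
    exact ⟨hT.prop.2, fun i hi _ => hdis i hi⟩
  exact hjT (hT.le_of_ge h2 (Set.subset_insert j T) (Set.mem_insert j T))

theorem dsys_card {ι α : Type} (n : ℕ) : ∀ (S : Set ι) (_ : ¬ S.Countable) (F : ι → Finset α)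
    (_ : ∀ i ∈ S, (F i).card = n), ∃ T ⊆ S, ¬ T.Countable ∧ ∃ r : Finset α, ∀ i ∈ T, ∀ j ∈ T, i ≠ j →
      ∀ a, (a ∈ F i ∧ a ∈ F j ↔ a ∈ r) := by
  classical
  induction n with
  | zero =>
    intro S hS F hF
    refine ⟨S, subset_rfl, hS, ∅, fun i hi j _ _ a => ?_⟩
    rw [Finset.card_eq_zero.1 (hF i hi)]
    simp
  | succ n ih =>
    intro S hS F hF
    by_cases h : ∀ a, {i ∈ S | a ∈ F i}.Countable
    · obtain ⟨T, hTS, hT, hd⟩ := dsys_disj S hS F h
      refine ⟨T, hTS, hT, ∅, fun i hi j hj hij a => ?_⟩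
      have h1 := Finset.disjoint_left.1 (hd hi hj hij)
      constructor
      · rintro ⟨h2, h3⟩
        exact absurd h3 (h1 h2)
      · exact fun h2 => absurd h2 (Finset.notMem_empty a)
    · push Not at h
      obtain ⟨a, ha⟩ := h
      obtain ⟨T, hTS, hT, r, hr⟩ := ih {i ∈ S | a ∈ F i} ha (fun i => (F i).erase a) (by
        rintro i ⟨hi, hai⟩
        rw [Finset.card_erase_of_mem hai, hF i hi]
        rfl)
      refine ⟨T, fun i hi => (hTS hi).1, hT, insert a r, fun i hi j hj hij b => ?_⟩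
      rw [Finset.mem_insert, ← hr i hi j hj hij b, Finset.mem_erase, Finset.mem_erase]
      by_cases hb : b = a
      · subst hb
        simp [(hTS hi).2, (hTS hj).2]
      · simp [hb]

/-- uncountably many finite sets: an uncountable subfamily has a root. Some `n` is the cardinality of uncountably
many `F i`; induction on `n`. If some `a` is in `F i` for uncountably many `i`, apply the induction hypothesis to the sets
`(F i).erase a`. Otherwise every `a` is in `F i` for only countably many `i`; by Zorn's lemma take a maximal set `T` of indices with pairwise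
disjoint `F i`; if `T` were countable then `⋃_{i ∈ T} F i` would be countable and only countably many `F j` could meet it (for `n ≥ 1`);
for `n = 0` all sets are empty and `T = univ`. -/
theorem delta_system {ι α : Type} (S : Set ι) (hS : ¬ S.Countable) (F : ι → Finset α) :
    ∃ T ⊆ S, ¬ T.Countable ∧ ∃ r : Finset α, ∀ i ∈ T, ∀ j ∈ T, i ≠ j →
      ∀ a, (a ∈ F i ∧ a ∈ F j ↔ a ∈ r) := by
  obtain ⟨n, hn⟩ : ∃ n, ¬ {i ∈ S | (F i).card = n}.Countable := by
    by_contra hcon
    push Not at hcon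
    refine hS ((Set.countable_iUnion hcon).mono fun i hi => ?_)
    exact Set.mem_iUnion.2 ⟨(F i).card, hi, rfl⟩
  obtain ⟨T, hTS, hT, r, hr⟩ := dsys_card n {i ∈ S | (F i).card = n} hn F fun i hi => hi.2
  exact ⟨T, fun i hi => (hTS hi).1, hT, r, hr⟩

end PSI
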