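import Pool.Agent.H74.PSI.Gen

/-!
# GENI: the sets `A x` are infinite and almost disjoint
-/

set_option autoImplicit false
set_option linter.unusedSectionVars false

namespace PSI

open BV

variable {K Ω : Type} [LinearOrder Ω] [WellFoundedLT Ω] {G : PD K Ω}
  {B : Type} [CompleteBooleanAlgebra B] {e : Pos G → B} (he : DenseEmb (Pos G) B e)
include he

/-- `eq_top_of_dense`, `ext_a`, `ext_A` -/
theorem Ae_inf (x : K) (m : ℕ) : (⨆ k, ⨆ _ : m ≤ k, Ae e x k) = ⊤ := by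
  refine eq_top_of_dense he fun t => ?_
  obtain ⟨q, hq, hqt, hx⟩ := ext_a t.2 x
  obtain ⟨u, hu, huq, k, hk, hkA⟩ := ext_A hq hx m
  refine ⟨⟨u, hu⟩, le_trans t.2 huq hqt, ?_⟩
  exact le_iSup_of_le k (le_iSup_of_le hk (le_Ae (((le_iff _ _).1 huq).1.a hx) hkA))

/-- `eq_top_of_dense`: below every condition there is `p` with `x, y ∈ a` and `s(x, y)` frozen (`ext_a`, `ext_fr`); let `m = p.m`; for `k ≥ m` and
every `t ≤ p` increase `t.m` beyond `k` (`ext_m`): `k` is not in both `A x` and `A y` by `SLe.fr`, so `e t ≤ (Ae e x k)ᶜ` or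
`e t ≤ (Ae e y k)ᶜ` (`le_Ae_compl`); `le_of_dense` -/
theorem Ae_ad (hG : ∀ x y, G.cd x y → ¬ G.cd y x) (x y : K) (hxy : x ≠ y) :
    (⨆ m, ⨅ k, ⨅ _ : m ≤ k, (Ae e x k ⊓ Ae e y k)ᶜ) = ⊤ := by
  refine eq_top_of_dense he fun t => ?_
  obtain ⟨q1, hq1, hq1t, hx1⟩ := ext_a t.2 x
  obtain ⟨q2, hq2, hq21, hy2⟩ := ext_a hq1 y
  have hx2 : x ∈ q2.st.a := ((le_iff _ _).1 hq21).1.a hx1
  obtain ⟨p, hp, hp2, hfr⟩ := ext_fr hG hq2 hxy hx2 hy2
  have hxp : x ∈ p.st.a := ((le_iff _ _).1 hp2).1.a hx2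
  have hyp : y ∈ p.st.a := ((le_iff _ _).1 hp2).1.a hy2
  refine ⟨⟨p, hp⟩, le_trans t.2 hp2 (le_trans t.2 hq21 hq1t), ?_⟩
  refine le_iSup_of_le p.st.m (le_iInf fun k => le_iInf fun hk => ?_)
  refine le_of_dense he fun r hr => ?_
  obtain ⟨u, hu, hur, hum, hua⟩ := ext_m r.2 (k + 1)
  have hup : Le u p := le_trans hp hur hr
  have hS := ((le_iff _ _).1 hup).1
  refine ⟨⟨u, hu⟩, hur, ?_⟩
  by_cases hkx : k ∈ u.st.A x
  · have hky : k ∉ u.st.A y := hS.fr x y hfr k hk hkx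
    exact _root_.le_trans
      (le_Ae_compl he (p := ⟨u, hu⟩) (x := y) (k := k) (hS.a hyp) hum hky)
      (compl_le_compl inf_le_right)
  · exact _root_.le_trans
      (le_Ae_compl he (p := ⟨u, hu⟩) (x := x) (k := k) (hS.a hxp) hum hkx)
      (compl_le_compl inf_le_left)

end PSI
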