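import Pool.Agent.H74.PSI.Uni
import Pool.Agent.H74.PSI.Dsys

/-!
# KNA: the Knaster property
-/

set_option autoImplicit false
set_option linter.unusedSectionVars false

namespace PSI

variable {K Ω : Type} [LinearOrder Ω] [WellFoundedLT Ω] {G : PD K Ω}

theorem KNA_lvs_finite {p : Cond K Ω} (hp : Ps G ⊤ p) : (lvs p).Finite := by
  have h : lvs p ⊆ {γ | p.st.c γ ≠ []} ∪ (fun r : Prom K Ω => r.1) '' p.prom := by
    rintro γ (h | ⟨r, hr, rfl⟩)
    · exact Or.inl h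
    · exact Or.inr ⟨r, hr, rfl⟩
  exact (hp.st.fin.union (p.prom_finite.image _)).subset h

theorem KNA_fiber {ι C : Type} [Countable C] (S : Set ι) (hS : ¬ S.Countable) (col : ι → C) :
    ∃ T ⊆ S, ¬ T.Countable ∧ ∀ i ∈ T, ∀ j ∈ T, col i = col j := by
  by_contra hcon
  push Not at hcon
  apply hS
  have h : S = ⋃ c : C, {i ∈ S | col i = c} := by
    ext i
    simp
  rw [h]
  refine Set.countable_iUnion fun c => ?_
  by_contra hc
  obtain ⟨i, hi, j, hj, hne⟩ := hcon {i ∈ S | col i = c} (fun _ h => h.1) hc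
  exact hne (hi.2.trans hj.2.symm)

/-- `delta_system` for the sets `a` of the conditions and for the finite sets `lvs (p i)`; then uncountably many of the conditions have
the same `m`, the same `A x`, `s x` for `x` in the root, and the same `c γ` for `γ` in the root (countably many possibilities:
functions from a finite set to a countable set). For `i = j` `Cmp` is trivial. -/
theorem knaster {ι : Type} (S : Set ι) (hS : ¬ S.Countable) (p : ι → Cond K Ω)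
    (hp : ∀ i ∈ S, Ps G ⊤ (p i)) : ∃ T ⊆ S, ¬ T.Countable ∧
      ∀ i ∈ T, ∀ j ∈ T, Cmp (p i) (p j) := by
  classical
  obtain ⟨T1, hT1, hT1c, r1, hr1⟩ := delta_system S hS fun i => (p i).st.a
  obtain ⟨T2, hT2, hT2c, r2, hr2⟩ := delta_system T1 hT1c
    fun i => if h : (lvs (p i)).Finite then h.toFinset else ∅
  obtain ⟨T, hT, hTc, hcol⟩ := KNA_fiber T2 hT2c
    (fun i => (((p i).st.m, fun x : {x // x ∈ r1} => ((p i).st.A x.1, (p i).st.s x.1),
      fun γ : {γ // γ ∈ r2} => (p i).st.c γ.1) :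
      ℕ × ({x // x ∈ r1} → Finset ℕ × List ℕ) × ({γ // γ ∈ r2} → List ℕ)))
  refine ⟨T, (hT.trans hT2).trans hT1, hTc, fun i hi j hj => ?_⟩
  by_cases hij : i = j
  · subst hij
    exact ⟨rfl, fun _ _ _ => rfl, fun _ _ _ => rfl, fun _ _ _ => rfl⟩
  have hc := hcol i hi j hj
  have hm : (p i).st.m = (p j).st.m := congrArg Prod.fst hc
  have hA := congrArg (fun t => t.2.1) hc
  have hcc := congrArg (fun t => t.2.2) hc
  have hi2 := hT hi
  have hj2 := hT hj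
  refine ⟨hm, ?_, ?_, ?_⟩
  · intro x hxi hxj
    have hx := (hr1 i (hT2 hi2) j (hT2 hj2) hij x).1 ⟨hxi, hxj⟩
    exact congrArg Prod.fst (congrFun hA ⟨x, hx⟩)
  · intro x hxi hxj
    have hx := (hr1 i (hT2 hi2) j (hT2 hj2) hij x).1 ⟨hxi, hxj⟩
    exact congrArg Prod.snd (congrFun hA ⟨x, hx⟩)
  · intro γ hγi hγj
    have hfi : (lvs (p i)).Finite := KNA_lvs_finite (hp i (hT1 (hT2 hi2)))
    have hfj : (lvs (p j)).Finite := KNA_lvs_finite (hp j (hT1 (hT2 hj2)))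
    have hγ := (hr2 i hi2 j hj2 hij γ).1
      ⟨by rw [dif_pos hfi]; exact hfi.mem_toFinset.2 hγi,
        by rw [dif_pos hfj]; exact hfj.mem_toFinset.2 hγj⟩
    exact congrFun hcc ⟨γ, hγ⟩

/-- the form used below (apply `knaster` twice, `union2`) -/
theorem knaster2 {ι : Type} (S : Set ι) (hS : ¬ S.Countable) (p q : ι → Pos G) :
    ∃ T ⊆ S, ¬ T.Countable ∧ ∀ i ∈ T, ∀ j ∈ T,
      (∃ w : Pos G, w ≤ p i ∧ w ≤ p j) ∧ ∃ w : Pos G, w ≤ q i ∧ w ≤ q j := by
  obtain ⟨T1, hT1, hT1c, h1⟩ := knaster (G := G) S hS (fun i => (p i).1) fun i _ => (p i).2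
  obtain ⟨T2, hT2, hT2c, h2⟩ := knaster (G := G) T1 hT1c (fun i => (q i).1) fun i _ => (q i).2
  refine ⟨T2, hT2.trans hT1, hT2c, fun i hi j hj => ⟨?_, ?_⟩⟩
  · obtain ⟨w, hw, hwi, hwj⟩ := union2 (p i).2 (p j).2 (h1 i (hT2 hi) j (hT2 hj))
    exact ⟨⟨w, hw⟩, hwi, hwj⟩
  · obtain ⟨w, hw, hwi, hwj⟩ := union2 (q i).2 (q j).2 (h2 i hi j hj)
    exact ⟨⟨w, hw⟩, hwi, hwj⟩

end PSI
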