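import Mathlib

/-!
# OMG: the first uncountable ordinal as a type
-/

set_option autoImplicit false

namespace PSI

/-- `Ω = (Cardinal.aleph 1).ord.toType` (or `Set.Iio (ω_ 1)` made small); it injects into `ℕ → Bool` because `ℵ₁ ≤ 𝔠` -/
theorem exists_omega : ∃ (Ω : Type) (_ : LinearOrder Ω) (_ : WellFoundedLT Ω),
    (∀ β : Ω, (Set.Iio β).Countable) ∧
    (∀ s : Set Ω, s.Countable → ∃ β, ∀ γ ∈ s, γ < β) ∧
    ∃ F : Ω → (ℕ → Bool), Function.Injective F := by
  have hc : ∀ β : (Cardinal.aleph.{0} 1).ord.ToType, (Set.Iio β).Countable := by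
    intro β
    rw [← Cardinal.le_aleph0_iff_set_countable]
    have := Cardinal.mk_Iio_toType_ord_lt β
    exact Cardinal.lt_aleph_one_iff.1 this
  have hU : ¬ (Set.univ : Set (Cardinal.aleph.{0} 1).ord.ToType).Countable := by
    rw [← Cardinal.le_aleph0_iff_set_countable, Cardinal.mk_univ, Cardinal.mk_ord_toType, not_le]
    exact Cardinal.aleph0_lt_aleph_one
  refine ⟨(Cardinal.aleph.{0} 1).ord.ToType, inferInstance, inferInstance, hc, ?_, ?_⟩
  · intro s hs
    by_contra hcon
    push Not at hcon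
    apply hU
    have h1 : (⋃ γ ∈ s, (insert γ (Set.Iio γ))).Countable :=
      hs.biUnion fun γ _ => (hc γ).insert γ
    refine h1.mono fun β _ => ?_
    obtain ⟨γ, hγ, h⟩ := hcon β
    refine Set.mem_iUnion₂.2 ⟨γ, hγ, ?_⟩
    rcases h.eq_or_lt with h | h
    · exact Or.inl h
    · exact Or.inr h
  · have h : Cardinal.mk (Cardinal.aleph.{0} 1).ord.ToType ≤ Cardinal.mk (ℕ → Bool) := by
      rw [Cardinal.mk_ord_toType]
      have : Cardinal.mk (ℕ → Bool) = Cardinal.continuum := by simp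
      rw [this]
      exact Cardinal.aleph_one_le_continuum
    obtain ⟨F⟩ := Cardinal.le_def _ _ |>.1 h
    exact ⟨F, F.injective⟩

end PSI
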