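import Pool.Agent.H74.PSI.Catf
import Pool.Agent.H74.PSI.Geni
import Pool.Agent.H74.PSI.Kna
import Pool.Agent.H74.PSI.Cod
import Pool.Agent.H74.PSI.Omg

/-!
# EXI: existence of the Boolean algebra
-/

set_option autoImplicit false
set_option linter.unusedSectionVars false

namespace PSI

open BV

/-- the trivial condition -/
theorem nonempty_pos {K Ω : Type} [LinearOrder Ω] [WellFoundedLT Ω] (G : PD K Ω) :
    Nonempty (Pos G) := by
  refine ⟨⟨mkc ⟨fun _ => [], 0, ∅, fun _ => ∅, fun _ => [], fun _ _ => 0, ∅⟩ ∅ Set.finite_empty,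
    ⟨⟨?_, ?_, ?_, ?_, ?_, ?_⟩, ?_⟩⟩⟩
  · simp
  · intro γ h
    exact absurd rfl h
  · intro x
    exact Finset.empty_subset _
  · intro x _
    exact ⟨rfl, rfl, rfl⟩
  · intro x y h
    exact absurd h (Finset.notMem_empty _)
  · intro x y h
    exact absurd h (Finset.notMem_empty _)
  · intro r hr
    simp at hr

theorem exists_alg : ∃ (B : Type) (_ : CompleteBooleanAlgebra B), Nontrivial B ∧
    ∃ (K Ω : Type) (A : K → ℕ → B) (c : Ω → ℕ → ℕ → B) (π : K → Ω), IsPsiAlg B K Ω A c π := by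
  obtain ⟨Ω, iL, iW, hct, hΩ, hinj⟩ := exists_omega
  obtain ⟨β0, -⟩ := hΩ ∅ Set.countable_empty
  have hne0 : Nonempty Ω := ⟨β0⟩
  obtain ⟨C⟩ := exists_codes Ω hinj
  obtain ⟨B, iB, e, he⟩ := exists_denseEmb (Pos C.G)
  have hK : Kn (Pos C.G) := fun ι S hS p q => knaster2 S hS p q
  have hA : Apx B := apx_of_kn hK he
  have hne : Nonempty (Pos C.G) := nonempty_pos C.G
  obtain ⟨p0⟩ := hne
  refine ⟨B, iB, ⟨⟨e p0, ⊥, he.ne_bot p0⟩⟩, C.K, Ω, Ae e, ce e, fun x => C.jj x.1, ?_⟩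
  refine ⟨fun β n => part_ce he β n, fun z hz => ?_, ?_, fun x m => Ae_inf he x m,
    fun x y hxy => Ae_ad he (cd_asymm C) x y hxy, fun f hf => catching he hK hA hct hΩ f hf⟩
  · obtain ⟨β1, hβ⟩ := dom_level he hK hΩ z (fun n => (hz n).top)
    rw [eq_top_iff, ← hβ β1 le_rfl]
    refine le_iSup_of_le β1 ?_
    refine iSup_mono fun m => iInf_mono fun n => iInf_mono fun _ => iSup_mono fun v =>
      iSup_mono fun w => iSup_mono' fun h => ⟨h.le, le_rfl⟩
  · intro j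
    obtain ⟨y, -, -, -, -, hj⟩ := C.surj 0 (fun _ => j) (fun _ _ => false) (fun _ _ => false) j
    exact ⟨(y, 0), hj⟩

end PSI
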