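import Pool.Agent.H74.PSI.Alg
import Pool.Agent.H74.PSI.DenF
import Pool.Agent.H74.PSI.Csup

/-!
# GEN: the generic objects

`Ae e x k` = the value of `k ∈ A x`, `ce e β n v` = the value of `c β n = v`, `se e x i v` = the value of `e_x(i) = v`.
-/

set_option autoImplicit false
set_option linter.unusedSectionVars false

namespace PSI

open BV

variable {K Ω : Type} [LinearOrder Ω] [WellFoundedLT Ω] {G : PD K Ω}
  {B : Type} [CompleteBooleanAlgebra B]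

noncomputable def Ae (e : Pos G → B) (x : K) (k : ℕ) : B :=
  ⨆ p ∈ {p : Pos G | x ∈ p.1.st.a ∧ k ∈ p.1.st.A x}, e p

noncomputable def ce (e : Pos G → B) (β : Ω) (n v : ℕ) : B :=
  ⨆ p ∈ {p : Pos G | n < (p.1.st.c β).length ∧ (p.1.st.c β).getD n 0 = v}, e p

noncomputable def se (e : Pos G → B) (x : K) (i v : ℕ) : B :=
  ⨆ p ∈ {p : Pos G | x ∈ p.1.st.a ∧ i < (p.1.st.s x).length ∧ (p.1.st.s x).getD i 0 = v}, e p

variable {e : Pos G → B}

theorem le_Ae {p : Pos G} {x : K} {k : ℕ} (h : x ∈ p.1.st.a) (h' : k ∈ p.1.st.A x) :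
    e p ≤ Ae e x k := le_biSup e (show p ∈ {p : Pos G | x ∈ p.1.st.a ∧ k ∈ p.1.st.A x} from ⟨h, h'⟩)

theorem le_ce {p : Pos G} {β : Ω} {n v : ℕ} (h : n < (p.1.st.c β).length)
    (h' : (p.1.st.c β).getD n 0 = v) : e p ≤ ce e β n v :=
  le_biSup e (show p ∈ {p : Pos G | n < (p.1.st.c β).length ∧ (p.1.st.c β).getD n 0 = v} from
    ⟨h, h'⟩)

theorem le_se {p : Pos G} {x : K} {i v : ℕ} (h0 : x ∈ p.1.st.a) (h : i < (p.1.st.s x).length)
    (h' : (p.1.st.s x).getD i 0 = v) : e p ≤ se e x i v :=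
  le_biSup e (show p ∈ {p : Pos G | x ∈ p.1.st.a ∧ i < (p.1.st.s x).length ∧
    (p.1.st.s x).getD i 0 = v} from ⟨h0, h, h'⟩)

variable (he : DenseEmb (Pos G) B e)
include he

/-- if `e p` met `Ae e x k` there would be a common extension of `p` and of a condition with `k ∈ A x` (`he.compat`), but `SLe.A` for `p` says
`k ∉ A x` -/
theorem le_Ae_compl {p : Pos G} {x : K} {k : ℕ} (h : x ∈ p.1.st.a) (h1 : k < p.1.st.m)
    (h2 : k ∉ p.1.st.A x) : e p ≤ (Ae e x k)ᶜ := by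
  rw [le_compl_iff_disjoint_right, disjoint_iff, Ae, inf_iSup₂_eq]
  rw [iSup_eq_bot]
  intro q
  rw [iSup_eq_bot]
  rintro ⟨hq1, hq2⟩
  by_contra hne
  obtain ⟨r, hrp, hrq⟩ := he.compat p q hne
  have e1 := ((le_iff _ _).1 hrp).1.A x h k h1
  have e2 := ((le_iff _ _).1 hrq).1.A x hq1 k (Finset.mem_range.1 (q.2.st.A x hq2))
  exact h2 (e1.1 (e2.2 hq2))

omit he in
theorem gen_disj (he : DenseEmb (Pos G) B e) (S T : Set (Pos G))
    (h : ∀ p ∈ S, ∀ q ∈ T, ∀ r : Pos G, r ≤ p → r ≤ q → False) :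
    (⨆ p ∈ S, e p) ⊓ (⨆ q ∈ T, e q) = ⊥ := by
  rw [iSup₂_inf_eq, iSup_eq_bot]
  intro p
  rw [iSup_eq_bot]
  intro hp
  rw [inf_iSup₂_eq, iSup_eq_bot]
  intro q
  rw [iSup_eq_bot]
  intro hq
  by_contra hne
  obtain ⟨r, hrp, hrq⟩ := he.compat p q hne
  exact h p hp q hq r hrp hrq

/-- density (`ext_c`) and for two different values: a common extension of two conditions (`he.compat`), `getD_of_prefix` -/
theorem part_ce (β : Ω) (n : ℕ) : Part (ce e β n) := by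
  refine ⟨eq_top_of_dense he fun t => ?_, fun v w hvw => gen_disj he _ _ ?_⟩
  · obtain ⟨q, hq, hqt, hn⟩ := ext_c t.2 β n
    exact ⟨⟨q, hq⟩, hqt, (le_ce (p := ⟨q, hq⟩) hn rfl).trans
      (le_iSup (fun v => ce e β n v) ((q.st.c β).getD n 0))⟩
  · rintro p ⟨hp1, hp2⟩ q ⟨hq1, hq2⟩ r hrp hrq
    apply hvw
    rw [← hp2, ← hq2, ← getD_of_prefix (((le_iff _ _).1 hrp).1.c β) hp1,
      ← getD_of_prefix (((le_iff _ _).1 hrq).1.c β) hq1]

/-- density (`ext_a`, `ext_s`) -/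
theorem part_se (x : K) (i : ℕ) : Part (se e x i) := by
  refine ⟨eq_top_of_dense he fun t => ?_, fun v w hvw => gen_disj he _ _ ?_⟩
  · obtain ⟨q0, hq0, hq0t, hx0⟩ := ext_a t.2 x
    obtain ⟨q, hq, hqq0, hi, -⟩ := ext_s hq0 hx0 i
    have hx : x ∈ q.st.a := ((le_iff _ _).1 hqq0).1.a hx0
    exact ⟨⟨q, hq⟩, le_trans t.2 hqq0 hq0t, (le_se (p := ⟨q, hq⟩) hx hi rfl).trans
      (le_iSup (fun v => se e x i v) ((q.st.s x).getD i 0))⟩
  · rintro p ⟨hp0, hp1, hp2⟩ q ⟨hq0, hq1, hq2⟩ r hrp hrq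
    apply hvw
    rw [← hp2, ← hq2, ← getD_of_prefix (((le_iff _ _).1 hrp).1.s x hp0) hp1,
      ← getD_of_prefix (((le_iff _ _).1 hrq).1.s x hq0) hq1]

end PSI
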