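import Pool.Agent.H74.PSI.Gen

/-!
# GENT: the generic family satisfies the requirement for coded pairs
-/

set_option autoImplicit false
set_option linter.unusedSectionVars false

namespace PSI

open BV

variable {K Ω : Type} [LinearOrder Ω] [WellFoundedLT Ω] {G : PD K Ω}
  {B : Type} [CompleteBooleanAlgebra B] {e : Pos G → B} (he : DenseEmb (Pos G) B e)
include he

/-- `eq_top_of_dense`: below every condition there is `p` with `x, y ∈ a` and `s(x, y)` frozen (`ext_a`, `ext_fr`; `x ≠ y` by `hG`); take `k` from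
`TReq` at level `⊤` (`SOk.T`); `e p ≤ ce (dl x y) (nu x y) w` for `w = (p.c (dl x y)).getD (nu x y) 0 < k`. For every `i`: if
`i < (p.s y).length` then `e p ≤ se e y i v` with `v` the value; otherwise for every `t ≤ p` there is `u ≤ t` with `i < (u.s y).length` (`ext_s`),
and the value `v` of `u` at `i` is `≥ p.f y i ≥ g x y i` (`SLe.sf` for `u ≤ p`); `le_of_dense` -/
theorem gen_T (hG : ∀ x y, G.cd x y → ¬ G.cd y x) (x y : K) (h : G.cd x y) :
    (⨆ k, Ae e x k ⊓ Ae e y k ⊓ (⨆ w, ⨆ _ : w < k, ce e (G.dl x y) (G.nu x y) w) ⊓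
      ⨅ i, ⨆ v, ⨆ _ : G.g x y i ≤ v + k, se e y i v) = ⊤ := by
  have hxy : x ≠ y := by
    rintro rfl
    exact hG x x h h
  refine eq_top_of_dense he ?_
  intro t
  obtain ⟨q1, hq1, hle1, hx1⟩ := ext_a t.2 x
  obtain ⟨q2, hq2, hle2, hy2⟩ := ext_a hq1 y
  have hx2 : x ∈ q2.st.a := ((le_iff _ _).1 hle2).1.a hx1
  obtain ⟨p, hp, hle3, hD⟩ := ext_fr hG hq2 hxy hx2 hy2
  have hxp : x ∈ p.st.a := ((le_iff _ _).1 hle3).1.a hx2
  have hyp : y ∈ p.st.a := ((le_iff _ _).1 hle3).1.a hy2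
  have hpt : Le p t.1 :=
    le_trans t.2 hle3 (le_trans t.2 hle2 hle1)
  refine ⟨⟨p, hp⟩, hpt, ?_⟩
  obtain ⟨k, hkx, hky, -, hk1, hk2, hk3⟩ := hp.st.T x y hD h
  obtain ⟨hk4, hk5⟩ := hk3 (WithTop.coe_lt_top _)
  refine le_iSup_of_le k (le_inf (le_inf (le_inf ?_ ?_) ?_) ?_)
  · exact le_Ae hxp hkx
  · exact le_Ae hyp hky
  · exact le_iSup₂_of_le ((p.st.c (G.dl x y)).getD (G.nu x y) 0) hk5 (le_ce hk4 rfl)
  · refine le_iInf fun i => ?_
    by_cases hi : i < (p.st.s y).length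
    · exact le_iSup₂_of_le ((p.st.s y).getD i 0) (hk1 i hi) (le_se hyp hi rfl)
    · refine le_of_dense he ?_
      intro t' ht'
      have ht1 : y ∈ t'.1.st.a := ((le_iff _ _).1 ht').1.a hyp
      obtain ⟨u, hu, hle, hlen, -, -, hua, -, -⟩ := ext_s t'.2 ht1 i
      have huy : y ∈ u.st.a := by rw [hua]; exact ht1
      refine ⟨⟨u, hu⟩, hle, ?_⟩
      have hup : Le u p := le_trans hp hle ht'
      refine le_iSup₂_of_le ((u.st.s y).getD i 0) ?_ (le_se huy hlen rfl)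
      have h1 := ((le_iff _ _).1 hup).1.sf y hyp i (not_lt.1 hi) hlen
      have h2 := hk2 i (not_lt.1 hi)
      omega

end PSI
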