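import Pool.Agent.H74.PSI.Ult

/-!
# GOOD: good sets (section 4)
-/

set_option autoImplicit false
set_option linter.unusedSectionVars false

namespace PSI

variable {B : Type} [CompleteBooleanAlgebra B] {X : Type}

/-- every ground model function `φ : X → 2 ^ ω` is constant on a set of the ultrafilter -/
def Tight (a : B) (h : Set X → B) : Prop :=
  ∀ φ : X → (ℕ → Bool), a ≤ ⨆ z : ℕ → Bool, h {x | φ x = z}

/-- all tight ultrafilters on `X` are principal -/
def Good (B : Type) [CompleteBooleanAlgebra B] (X : Type) : Prop :=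
  ∀ (a : B) (h : Set X → B), BHom a h → Tight a h → a ≤ ⨆ x, h {x}

/-- image of an ultrafilter -/
theorem BHom.image {Y : Type} {a : B} {h : Set X → B} (hh : BHom a h) (f : X → Y) :
    BHom a (fun Z : Set Y => h (f ⁻¹' Z)) where
  empty := hh.empty
  univ := hh.univ
  union _ _ := hh.union _ _
  inter _ _ := hh.inter _ _

theorem Tight.image {Y : Type} {a : B} {h : Set X → B} (hh : Tight a h) (f : X → Y) :
    Tight a (fun Z : Set Y => h (f ⁻¹' Z)) := fun φ => hh (φ ∘ f)

/-- the image on `Y` is principal, `f ⁻¹' {y}` has at most one element, `h ∅ = ⊥` -/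
theorem good_of_inj {Y : Type} (f : X → Y) (hf : Function.Injective f) (hY : Good B Y) :
    Good B X := by
  intro a h hh ht
  refine (hY a _ (hh.image f) (ht.image f)).trans (iSup_le fun y => ?_)
  by_cases hy : ∃ x, f x = y
  · obtain ⟨x, rfl⟩ := hy
    have h1 : f ⁻¹' {f x} = {x} := by
      ext x'
      exact hf.eq_iff
    show h (f ⁻¹' {f x}) ≤ _
    rw [h1]
    exact le_iSup (fun x => h {x}) x
  · have h1 : f ⁻¹' {y} = ∅ := by
      ext x'
      exact ⟨fun h => hy ⟨x', h⟩, fun h => h.elim⟩
    show h (f ⁻¹' {y}) ≤ _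
    rw [h1, hh.empty]
    exact bot_le

/-- `Tight` for `φ = id` -/
theorem good_bool : Good B (ℕ → Bool) := fun a h _ ht => ht id

/-- both projections are principal; `h {(x, y)} = h (fst⁻¹ {x}) ⊓ h (snd⁻¹ {y})` -/
theorem good_prod {Y : Type} (hX : Good B X) (hY : Good B Y) : Good B (X × Y) := by
  intro a h hh ht
  have h1 := hX a _ (hh.image Prod.fst) (ht.image Prod.fst)
  have h2 := hY a _ (hh.image Prod.snd) (ht.image Prod.snd)
  refine (le_inf h1 h2).trans ?_
  rw [iSup_inf_eq]
  refine iSup_le fun x => ?_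
  rw [inf_iSup_eq]
  refine iSup_le fun y => ?_
  have h3 : Prod.fst ⁻¹' {x} ∩ Prod.snd ⁻¹' {y} = {((x, y) : X × Y)} := by
    ext ⟨x', y'⟩
    simp
  show h (Prod.fst ⁻¹' {x}) ⊓ h (Prod.snd ⁻¹' {y}) ≤ _
  rw [← hh.inter, h3]
  exact le_iSup (fun p => h {p}) (x, y)

theorem good_restrict {Y : Type} (f : X → Y) (hf : Function.Injective f) {a : B} {h : Set Y → B}
    (hh : BHom a h) (ht : Tight a h) (hX : Good B X) : h (Set.range f) ≤ ⨆ y, h {y} := by
  classical
  have h1 : BHom (h (Set.range f)) (fun Z : Set X => h (f '' Z)) := by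
    refine ⟨?_, ?_, fun Y Z => ?_, fun Y Z => ?_⟩
    · show h (f '' ∅) = ⊥
      rw [Set.image_empty, hh.empty]
    · show h (f '' Set.univ) = _
      rw [Set.image_univ]
    · show h (f '' (Y ∪ Z)) = _
      rw [Set.image_union, hh.union]
    · show h (f '' (Y ∩ Z)) = _
      rw [Set.image_inter hf, hh.inter]
  have h2 : Tight (h (Set.range f)) (fun Z : Set X => h (f '' Z)) := by
    intro φ
    have h3 := ht (Function.extend f φ fun _ _ => false)
    refine (le_inf le_rfl ((hh.le _).trans h3)).trans ?_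
    rw [inf_iSup_eq]
    refine iSup_mono fun z => ?_
    rw [← hh.inter]
    refine hh.mono ?_
    rintro y ⟨⟨x, rfl⟩, hx⟩
    refine ⟨x, ?_, rfl⟩
    have hx' : Function.extend f φ (fun _ _ => false) (f x) = z := hx
    rw [hf.extend_apply] at hx'
    exact hx'
  refine (hX _ _ h1 h2).trans (iSup_le fun x => ?_)
  show h (f '' {x}) ≤ _
  rw [Set.image_singleton]
  exact le_iSup (fun y => h {y}) (f x)

/-- `h (range inl)` and `h (range inr)` have union `a`; below `a' = h (range inl)` the map `Z ↦ h (inl '' Z)` is a tight ultrafilter of mass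
`a'` on `X`, similarly for `Y` -/
theorem good_sum {Y : Type} (hX : Good B X) (hY : Good B Y) : Good B (X ⊕ Y) := by
  intro a h hh ht
  have h1 : a = h (Set.range Sum.inl) ⊔ h (Set.range Sum.inr) := by
    rw [← hh.union, Set.range_inl_union_range_inr, hh.univ]
  rw [h1]
  exact sup_le (good_restrict Sum.inl Sum.inl_injective hh ht hX)
    (good_restrict Sum.inr Sum.inr_injective hh ht hY)

end PSI
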