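import Pool.Agent.H74.PSI.Good
import Pool.Agent.H74.PSI.Apx

/-!
# GOODP: powers of good sets are good; the sets of the codes are good
-/

set_option autoImplicit false
set_option linter.unusedSectionVars false

namespace PSI

variable {B : Type} [CompleteBooleanAlgebra B] {X : Type}

theorem goodp_lit_disj {B : Type} [CompleteBooleanAlgebra B] (b : B) (e : Bool) :
    lit b e ⊓ lit b (!e) = ⊥ := by
  cases e
  · simp [lit]
  · simp [lit]

theorem goodp_le_lit {a : B} {h : Set (X → Bool) → B} (hh : BHom a h) (ξ : X) (e : Bool) :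
    h {x | x ξ = e} ≤ lit (h {x | x ξ = true}) e := by
  cases e
  · show h {x | x ξ = false} ≤ (h {x | x ξ = true})ᶜ
    rw [le_compl_iff_disjoint_right, disjoint_iff, ← hh.inter]
    have : ({x | x ξ = false} ∩ {x | x ξ = true} : Set (X → Bool)) = ∅ := by
      ext x
      simp
    rw [this, hh.empty]
  · exact le_rfl

theorem goodp_countable {a : B} {h : Set (X → Bool) → B} (hh : BHom a h) (ht : Tight a h)
    (C : Set X) (hC : C.Countable) :
    a ≤ ⨆ z : X → Bool, ⨅ ξ ∈ C, lit (h {x | x ξ = true}) (z ξ) := by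
  rcases C.eq_empty_or_nonempty with hC0 | hC0
  · subst hC0
    refine le_trans ?_ (le_iSup _ (fun _ => false))
    simp
  · obtain ⟨f, rfl⟩ := hC.exists_eq_range hC0
    refine le_trans (ht (fun x n => x (f n))) (iSup_le fun z => ?_)
    rcases ({x : X → Bool | (fun n => x (f n)) = z}).eq_empty_or_nonempty with h0 | ⟨x0, hx0⟩
    · rw [h0, hh.empty]
      exact bot_le
    · refine le_trans ?_ (le_iSup _ x0)
      refine le_iInf₂ fun ξ hξ => ?_
      obtain ⟨n, rfl⟩ := hξ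
      refine le_trans (hh.mono ?_) (goodp_le_lit hh (f n) (x0 (f n)))
      intro x hx
      have h1 := congrFun hx n
      have h2 := congrFun hx0 n
      show x (f n) = x0 (f n)
      exact h1.trans h2.symm

/-- Let `h` be tight of mass `a` on `X → Bool`, `b ξ = h {x | x ξ = true}`. For a countable set `C` of `X` let `φ x = x|C` (coded as an element of
`ℕ → Bool`, `C` enumerated): tightness gives `a ≤ ⨆ z : ℕ → Bool, h {x | φ x = z}`, and if `{x | φ x = z}` is nonempty, containing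
`x0`, then `h {x | φ x = z} ≤ ⨅ ξ ∈ C, lit (b ξ) (x0 ξ)` (monotonicity, `BHom.compl`). So by `Apx B` `a ≤ ⨆ z : X → Bool, a_z`,
`a_z = ⨅ ξ, lit (b ξ) (z ξ)`. Fix `z`, let `a' = a ⊓ a_z ⊓ h {z}ᶜ` and let `Δ x` be the least `ξ` (well-order of `X`, `WellOrderingRel`, or any choice function) with
`x ξ ≠ z ξ` for `x ≠ z` (arbitrary for `x = z`; if `X` is empty everything is trivial). `Z ↦ h ({x | x ≠ z} ∩ Δ⁻¹ Z) ⊓ a'` is a tight ultrafilter of mass `a'` on `X`; by `Good`
`a' ≤ ⨆ ξ, h ({x | x ≠ z} ∩ Δ⁻¹ {ξ}) ⊓ a'`, but `{x | x ≠ z} ∩ Δ⁻¹ {ξ} ⊆ {x | x ξ ≠ z ξ}`, whose value is disjoint from `a_z`; so `a' = ⊥`, i.e.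
`a ⊓ a_z ≤ h {z}`. -/
theorem good_pow (hB : Apx B) (hX : Good B X) : Good B (X → Bool) := by
  classical
  intro a h hh ht
  have h1 := hB X (fun ξ => h {x | x ξ = true}) a (fun C hC => goodp_countable hh ht C hC)
  have key : ∀ z : X → Bool, a ⊓ (⨅ ξ, lit (h {x | x ξ = true}) (z ξ)) ≤ h {z} := by
    intro z
    set az : B := ⨅ ξ, lit (h {x | x ξ = true}) (z ξ) with haz
    have hsplit : a = h {z} ⊔ h {z}ᶜ := by
      rw [← hh.union, Set.union_compl_self, hh.univ]
    have hbot : h {z}ᶜ ⊓ az = ⊥ := by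
      rcases isEmpty_or_nonempty X with hE | hN
      · have : ({z}ᶜ : Set (X → Bool)) = ∅ := by
          ext x
          simp only [Set.mem_compl_iff, Set.mem_singleton_iff, Set.mem_empty_iff_false, iff_false,
            not_not]
          exact Subsingleton.elim _ _
        rw [this, hh.empty, bot_inf_eq]
      · obtain ⟨ξ0⟩ := hN
        let Δ : (X → Bool) → X := fun x => if hx : ∃ ξ, x ξ ≠ z ξ then hx.choose else ξ0
        have hΔ : ∀ x, x ≠ z → x (Δ x) ≠ z (Δ x) := by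
          intro x hx
          have hx' : ∃ ξ, x ξ ≠ z ξ := by
            by_contra hcon
            push Not at hcon
            exact hx (funext hcon)
          have hD : Δ x = hx'.choose := dif_pos hx'
          rw [hD]
          exact hx'.choose_spec
        let h' : Set X → B := fun Z => h ({z}ᶜ ∩ Δ ⁻¹' Z) ⊓ az
        have hh' : BHom (h {z}ᶜ ⊓ az) h' := by
          refine ⟨?_, ?_, ?_, ?_⟩
          · show h ({z}ᶜ ∩ Δ ⁻¹' ∅) ⊓ az = ⊥
            rw [Set.preimage_empty, Set.inter_empty, hh.empty, bot_inf_eq]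
          · show h ({z}ᶜ ∩ Δ ⁻¹' Set.univ) ⊓ az = _
            rw [Set.preimage_univ, Set.inter_univ]
          · intro Y Z
            show h ({z}ᶜ ∩ Δ ⁻¹' (Y ∪ Z)) ⊓ az = _
            rw [Set.preimage_union, Set.inter_union_distrib_left, hh.union, inf_sup_right]
          · intro Y Z
            show h ({z}ᶜ ∩ Δ ⁻¹' (Y ∩ Z)) ⊓ az = (h ({z}ᶜ ∩ Δ ⁻¹' Y) ⊓ az) ⊓ (h ({z}ᶜ ∩ Δ ⁻¹' Z) ⊓ az)
            rw [Set.preimage_inter, Set.inter_inter_distrib_left, hh.inter, inf_inf_distrib_right]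
        have ht' : Tight (h {z}ᶜ ⊓ az) h' := by
          intro φ
          have h2 := ht (φ ∘ Δ)
          calc h {z}ᶜ ⊓ az ≤ (h {z}ᶜ ⊓ az) ⊓ ⨆ w : ℕ → Bool, h {x | (φ ∘ Δ) x = w} :=
                le_inf le_rfl (le_trans (le_trans inf_le_left (hh.le _)) h2)
            _ = ⨆ w : ℕ → Bool, (h {z}ᶜ ⊓ az) ⊓ h {x | (φ ∘ Δ) x = w} := inf_iSup_eq _ _
            _ ≤ ⨆ w : ℕ → Bool, h' {ξ | φ ξ = w} := by
                refine iSup_mono fun w => ?_
                show _ ≤ h ({z}ᶜ ∩ Δ ⁻¹' {ξ | φ ξ = w}) ⊓ az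
                rw [hh.inter]
                refine le_inf (le_inf (le_trans inf_le_left inf_le_left) ?_)
                  (le_trans inf_le_left inf_le_right)
                exact inf_le_right
        have h3 := hX _ h' hh' ht'
        rw [eq_bot_iff]
        refine le_trans h3 (iSup_le fun ξ => ?_)
        show h ({z}ᶜ ∩ Δ ⁻¹' {ξ}) ⊓ az ≤ ⊥
        have h4 : h ({z}ᶜ ∩ Δ ⁻¹' {ξ}) ≤ lit (h {x | x ξ = true}) (!z ξ) := by
          refine le_trans (hh.mono ?_) (goodp_le_lit hh ξ (!z ξ))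
          intro x hx
          have h5 := hΔ x hx.1
          have h6 : Δ x = ξ := hx.2
          rw [h6] at h5
          show x ξ = !z ξ
          revert h5
          cases x ξ <;> cases z ξ <;> simp
        have h7 : az ≤ lit (h {x | x ξ = true}) (z ξ) := iInf_le _ ξ
        calc h ({z}ᶜ ∩ Δ ⁻¹' {ξ}) ⊓ az
            ≤ lit (h {x | x ξ = true}) (!z ξ) ⊓ lit (h {x | x ξ = true}) (z ξ) :=
              inf_le_inf h4 h7
          _ = ⊥ := by rw [inf_comm, goodp_lit_disj]
    calc a ⊓ az = (h {z} ⊔ h {z}ᶜ) ⊓ az := by rw [← hsplit]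
      _ = (h {z} ⊓ az) ⊔ (h {z}ᶜ ⊓ az) := inf_sup_right _ _ _
      _ = h {z} ⊓ az := by rw [hbot, sup_bot_eq]
      _ ≤ h {z} := inf_le_left
  calc a ≤ a ⊓ ⨆ z : X → Bool, ⨅ ξ, lit (h {x | x ξ = true}) (z ξ) := le_inf le_rfl h1
    _ = ⨆ z : X → Bool, a ⊓ ⨅ ξ, lit (h {x | x ξ = true}) (z ξ) := inf_iSup_eq _ _
    _ ≤ ⨆ z, h {z} := iSup_mono key

end PSI
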