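import Pool.Agent.H74.PSI.Hita

/-!
# HIT: the countable hitting set (Lemma 6)
-/

set_option autoImplicit false
set_option linter.unusedSectionVars false

namespace PSI

variable {Ω : Type} [LinearOrder Ω] [WellFoundedLT Ω]

/-- fewer bits -/
theorem Hit_mono {K : Type} {G : PD K Ω} {β0 : Ω} {R : ℕ → Bool → Set (Cond K Ω)} {p : Cond K Ω}
    {t t' : ℕ} {u u' : ℕ → Bool} (h : t' ≤ t) (hu : ∀ l < t', u' l = u l)
    (hp : Poss G β0 R p t u) : Poss G β0 R p t' u' := by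
  obtain ⟨q, hq, hqp, hqr⟩ := hp
  refine ⟨q, hq, hqp, fun l hl => ?_⟩
  rw [hu l hl]
  exact hqr l (hl.trans_le h)

/-- the set of the `u` with `Poss p t u` is closed -/
theorem Hit_isClosed {K : Type} {G : PD K Ω} {β0 : Ω} {R : ℕ → Bool → Set (Cond K Ω)}
    (p : Cond K Ω) (t : ℕ) : IsClosed {u : ℕ → Bool | Poss G β0 R p t u} := by
  have hcont : Continuous (fun (u : ℕ → Bool) (i : Fin t) => u i) :=
    continuous_pi fun i => continuous_apply _
  have heq : {u : ℕ → Bool | Poss G β0 R p t u} =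
      (fun (u : ℕ → Bool) (i : Fin t) => u i) ⁻¹'
        {v : Fin t → Bool | Poss G β0 R p t (fun l => if h : l < t then v ⟨l, h⟩ else false)} := by
    ext u
    constructor
    · intro h
      exact Hit_mono le_rfl (fun l hl => by simp [hl]) h
    · intro h
      exact Hit_mono le_rfl (fun l hl => by simp [hl]) h
  rw [heq]
  exact (isClosed_discrete _).preimage hcont

/-- Lemma 6. `S` = the classes of the elements of the hereditary supports (`hsupp_countable`), `τ` from `exists_type` for the set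
`fst⁻¹ S`. For a type `k` let `b k` be an element of `2 ^ ω` with `Poss (cut β0 p) t (b k)` for all `p` with `τ p = k` and all `t`: it exists by compactness of
`ℕ → Bool`: the sets `{u | Poss (cut β0 p) t u}` (`p` of type `k`, `t`) are closed (they depend only on the first `t` bits, so clopen), decreasing in `t`, and finite
intersections are nonempty by `poss_common` (`t` = the maximum). Then pass from `P*_β0` to the poset by `up`. -/
theorem hit (C : Codes Ω) {β0 : Ω} (hβ : (Set.Iio β0).Countable)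
    {R : ℕ → Bool → Set (Cond C.K Ω)}
    (hR : ∀ l ε, ∀ r ∈ R l ε, Pl C.G β0 r) (hc : ∀ l ε, (R l ε).Countable)
    (hpre : ∀ l p, Ps C.G β0 p → ∃ q, Ps C.G β0 q ∧ Le q p ∧ ∃ ε, ∃ r ∈ R l ε, Le q r) :
    ∃ (S : Set C.H) (τ : Cond C.K Ω → ℕ) (b : ℕ → ℕ → Bool), S.Countable ∧
      (∀ p p', Ps C.G ⊤ p → Ps C.G ⊤ p' → AgOn β0 (Prod.fst ⁻¹' S) p p' → τ p = τ p') ∧
      ∀ p, Ps C.G ⊤ p → ∀ t, ∃ q, Ps C.G ⊤ q ∧ Le q p ∧
        ∀ l < t, ∃ r ∈ R l (b (τ p) l), Le q r := by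
  classical
  set S : Set C.H := ⋃ l : ℕ, ⋃ ε : Bool, ⋃ r ∈ R l ε, Prod.fst '' hsupp r with hSdef
  have hScount : S.Countable :=
    Set.countable_iUnion fun l => Set.countable_iUnion fun ε =>
      (hc l ε).biUnion fun r _ => (hsupp_countable r).image _
  have hS : ∀ l ε, ∀ r ∈ R l ε, ∀ x ∈ hsupp r, x.1 ∈ S := by
    intro l ε r hr x hx
    exact Set.mem_iUnion.2 ⟨l, Set.mem_iUnion.2 ⟨ε, Set.mem_biUnion hr ⟨x, hx, rfl⟩⟩⟩
  have hScount' : (Prod.fst ⁻¹' S : Set C.K).Countable := by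
    have : (Prod.fst ⁻¹' S : Set C.K) = S ×ˢ (Set.univ : Set ℕ) := by
      ext x; simp
    rw [this]
    exact hScount.prod Set.countable_univ
  obtain ⟨τ, hτ⟩ := exists_type (G := C.G) β0 hβ (Prod.fst ⁻¹' S : Set C.K) hScount'
  have hb : ∀ k : ℕ, ∃ u : ℕ → Bool, ∀ p, Ps C.G ⊤ p → τ p = k → ∀ t,
      Poss C.G β0 R (cut β0 p) t u := by
    intro k
    have hne := isCompact_univ.inter_iInter_nonempty
      (fun i : {p : Cond C.K Ω // Ps C.G ⊤ p ∧ τ p = k} × ℕ =>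
        {u : ℕ → Bool | Poss C.G β0 R (cut β0 i.1.1) i.2 u})
      (fun i => Hit_isClosed _ _) (by
        intro U
        set F : Set (Cond C.K Ω) := (fun i : {p : Cond C.K Ω // Ps C.G ⊤ p ∧ τ p = k} × ℕ =>
          i.1.1) '' (U : Set _) with hF
        obtain ⟨u, hu⟩ := poss_common C (β0 := β0) hR hpre S hS F (U.finite_toSet.image _)
          (by rintro _ ⟨i, _, rfl⟩; exact i.1.2.1)
          (by
            rintro _ ⟨i, _, rfl⟩ _ ⟨j, _, rfl⟩
            exact (hτ _ _ i.1.2.1 j.1.2.1).1 (i.1.2.2.trans j.1.2.2.symm))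
          (U.sup fun i => i.2)
        refine ⟨u, Set.mem_univ _, Set.mem_iInter₂.2 fun i hi => ?_⟩
        exact Hit_mono (Finset.le_sup (f := fun i => i.2) hi) (fun _ _ => rfl)
          (hu _ ⟨i, hi, rfl⟩))
    obtain ⟨u, _, hu⟩ := hne
    exact ⟨u, fun p hp hk t => Set.mem_iInter.1 hu (⟨p, hp, hk⟩, t)⟩
  choose b hb using hb
  refine ⟨S, τ, b, hScount, fun p p' hp hp' h => (hτ p p' hp hp').2 h, fun p hp t => ?_⟩
  obtain ⟨q, hq, hqp, hqr⟩ := hb (τ p) p hp rfl t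
  obtain ⟨w, hw, hwp, hwr⟩ := up hp hq hqp
  refine ⟨w, hw, hwp, fun l hl => ?_⟩
  obtain ⟨r, hr, hqr'⟩ := hqr l hl
  exact ⟨r, hr, hwr r (hR _ _ r hr) hqr'⟩

end PSI
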