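import Pool.Agent.H74.PSI.Twm

/-!
# HSP: hereditary supports
-/

set_option autoImplicit false
set_option linter.unusedSectionVars false

namespace PSI

variable {K Ω : Type} [LinearOrder Ω] [WellFoundedLT Ω] {G : PD K Ω}

/-! ### hereditary supports -/

/-- the hereditary support of a condition -/
def hsupp : Cond K Ω → Set K
  | .mk st _ _ z _ => (st.a : Set K) ∪ ⋃ i, ⋃ n, ⋃ j, hsupp (z i n j)

theorem hsupp_countable (p : Cond K Ω) : (hsupp p).Countable := by
  induction p with
  | mk st N lv z v ih =>
    rw [hsupp.eq_1]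
    exact st.a.countable_toSet.union (Set.countable_iUnion fun i => Set.countable_iUnion fun n =>
      Set.countable_iUnion fun j => ih i n j)

theorem hsp_stem {β : WithTop Ω} (π : K ≃ K) (s : Stem K Ω) (hs : SOk G β s)
    (h : ∀ x ∈ s.a, π x = x) : s.map π = s := by
  classical
  have h1 : ∀ x ∈ s.a, π.symm x = x := fun x hx => by
    rw [Equiv.symm_apply_eq]
    exact (h x hx).symm
  have h2 : ∀ x, x ∉ s.a → π.symm x ∉ s.a := by
    intro x hx hx'
    have := h _ hx'
    rw [Equiv.apply_symm_apply] at this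
    rw [← this] at hx'
    exact hx hx'
  have ha : s.a.map π.toEmbedding = s.a := by
    ext x
    rw [Finset.mem_map]
    constructor
    · rintro ⟨y, hy, rfl⟩
      show π y ∈ s.a
      rw [h y hy]
      exact hy
    · intro hx
      exact ⟨x, hx, h x hx⟩
  have hA : (fun x => s.A (π.symm x)) = s.A := by
    funext x
    by_cases hx : x ∈ s.a
    · rw [h1 x hx]
    · rw [(hs.out x hx).1, (hs.out _ (h2 x hx)).1]
  have hss : (fun x => s.s (π.symm x)) = s.s := by
    funext x
    by_cases hx : x ∈ s.a
    · rw [h1 x hx]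
    · rw [(hs.out x hx).2.1, (hs.out _ (h2 x hx)).2.1]
  have hf : (fun x => s.f (π.symm x)) = s.f := by
    funext x
    by_cases hx : x ∈ s.a
    · rw [h1 x hx]
    · rw [(hs.out x hx).2.2, (hs.out _ (h2 x hx)).2.2]
  have hD : s.D.image (Sym2.map π) = s.D := by
    have key : ∀ e ∈ s.D, Sym2.map π e = e := by
      intro e
      refine Sym2.ind (fun x y he => ?_) e
      obtain ⟨-, hx, hy⟩ := hs.D x y he
      rw [Sym2.map_pair_eq, h x hx, h y hy]
    ext e
    rw [Finset.mem_image]
    constructor
    · rintro ⟨e', he', rfl⟩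
      rw [key e' he']
      exact he'
    · intro he
      exact ⟨e, he, key e he⟩
  unfold Stem.map
  rw [ha, hA, hss, hf]
  congr 1

/-- induction on `p` (`Cond.rec`): the stem is fixed since `A x`, `s x`, `f x` are trivial outside `a` (`SOk.out`) and the frozen
pairs consist of elements of `a` (`SOk.D`); the names of the promises are fixed by the induction hypothesis (`Adm.pl`) -/
theorem map_eq_self (π : K ≃ K) : ∀ (p : Cond K Ω) {β : WithTop Ω}, Ps G β p →
    (∀ x ∈ hsupp p, π x = x) → p.map π = p := by
  intro p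
  induction p with
  | mk st N lv z v ih =>
    intro β hp h
    rw [hsupp.eq_1] at h
    rw [Cond.map.eq_1]
    have h1 : st.map π = st := hsp_stem π st hp.st fun x hx => h x (Or.inl hx)
    have h2 : (fun i n j => (z i n j).map π) = z := by
      funext i n j
      refine ih i n j ((hp.prom (lv i, z i, v i) ⟨i, rfl⟩).2.pl n j).ps fun x hx => ?_
      exact h x (Or.inr (Set.mem_iUnion.2 ⟨i, Set.mem_iUnion.2 ⟨n, Set.mem_iUnion.2 ⟨j, hx⟩⟩⟩))
    rw [h1, h2]

end PSI
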