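import Pool.Agent.H74.PSI.Twm

/-!
# TWA: permutations of the indices preserve the admissible names
-/

set_option autoImplicit false
set_option linter.unusedSectionVars false

namespace PSI

variable {K Ω : Type}

variable [LinearOrder Ω] [WellFoundedLT Ω] {G : PD K Ω}

theorem twa_dlow [LT Ω] {β : WithTop Ω} {π : K ≃ K} (h : Inv G π) {s : Stem K Ω}
    (hs : DLow G β s) : DLow G β (s.map π) := by
  classical
  intro x y hxy hcd
  have hxy' : s(x, y) ∈ s.D.image (Sym2.map π) := by
    have := hxy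
    unfold Stem.map at this
    convert this
  obtain ⟨e, he, hexy⟩ := Finset.mem_image.1 hxy'
  revert he hexy
  refine Sym2.ind (fun x' y' he hexy => ?_) e
  rw [Sym2.map_pair_eq] at hexy
  rcases Sym2.eq_iff.1 hexy with ⟨rfl, rfl⟩ | ⟨rfl, rfl⟩
  · rw [h.dl]
    exact hs x' y' he ((h.cd x' y').1 hcd)
  · rw [h.dl]
    exact hs y' x' (by rw [Sym2.eq_swap]; exact he) ((h.cd y' x').1 hcd)

theorem twa_ps {β : WithTop Ω} (ih : ∀ γ : Ω, (γ : WithTop Ω) < β → ∀ π : K ≃ K, Inv G π →
    ∀ z : Name K Ω, Adm G γ z → Adm G γ (z.map π)) {π : K ≃ K} (h : Inv G π) {p : Cond K Ω}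
    (hp : Ps G β p) : Ps G β (p.map π) := by
  refine ⟨?_, fun r hr => ?_⟩
  · rw [map_st]
    exact sok_map h hp.st
  · rw [map_prom] at hr
    obtain ⟨r', hr', rfl⟩ := hr
    exact ⟨(hp.prom r' hr').1, ih r'.1 (hp.prom r' hr').1 π h r'.2 (hp.prom r' hr').2⟩

theorem twa_map_map_symm (π : K ≃ K) (p : Cond K Ω) : (p.map π.symm).map π = p := by
  have h := map_symm_map π.symm p
  rwa [Equiv.symm_symm] at h

/-- by well-founded induction on `β`: `Adm G β z → Adm G β (z.map π)` for all `π` with `Inv G π` (use `adm_iff`; for the predensity let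
`p ∈ P*_β`, apply the predensity of `z` to `p.map π.symm` and move the result back; `le_map_iff`, `map_symm_map`), together with the
corresponding statements for `Ps G β`, `Pl G β` -/
theorem adm_map (β : Ω) : ∀ {π : K ≃ K} (_ : Inv G π) {z : Name K Ω}, Adm G β z →
    Adm G β (z.map π) := by
  induction β using WellFoundedLT.induction with
  | ind β ih =>
    intro π h z hz
    have ih' : ∀ γ : Ω, (γ : WithTop Ω) < β → ∀ π : K ≃ K, Inv G π →
        ∀ z : Name K Ω, Adm G γ z → Adm G γ (z.map π) :=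
      fun γ hγ π hπ z hz => ih γ (WithTop.coe_lt_coe.1 hγ) hπ hz
    rw [adm_iff]
    refine ⟨fun n i => ?_, fun n p hp => ?_⟩
    · show Pl G β ((z.1 n i).map π)
      refine ⟨twa_ps ih' h (hz.pl n i).ps, ?_⟩
      rw [map_st]
      exact twa_dlow h (hz.pl n i).low
    · obtain ⟨i, q, hq, hqp, hqz⟩ := hz.pre n (twa_ps ih' h.symm hp)
      refine ⟨i, q.map π, twa_ps ih' h hq, ?_, (le_map_iff π q _).2 hqz⟩
      have h1 := (le_map_iff π q (p.map π.symm)).2 hqp
      rwa [twa_map_map_symm] at h1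

theorem ps_map {β : WithTop Ω} {π : K ≃ K} (h : Inv G π) {p : Cond K Ω} (hp : Ps G β p) :
    Ps G β (p.map π) :=
  twa_ps (fun γ _ _ hπ _ hz => adm_map γ hπ hz) h hp

end PSI
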