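import Mathlib

/-!
# TWE: permutations of the twins
-/

set_option autoImplicit false

namespace PSI

/-- exchange of the intervals `[0, M)` and `[j * M, (j + 1) * M)` -/
def twF (M j i : ℕ) : ℕ :=
  if i < M then i + j * M else if j * M ≤ i ∧ i < (j + 1) * M then i - j * M else i

theorem twF_twF (M j i : ℕ) : twF M j (twF M j i) = i := by
  rcases Nat.eq_zero_or_pos j with rfl | hj
  · unfold twF
    simp only [zero_mul, add_zero, zero_add, one_mul, Nat.zero_le, true_and, Nat.sub_zero]
    split_ifs <;> rfl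
  · have hM : M ≤ j * M := Nat.le_mul_of_pos_left M hj
    have hs : (j + 1) * M = j * M + M := by ring
    unfold twF
    rw [hs]
    by_cases h1 : i < M
    · rw [if_pos h1, if_neg (by omega), if_pos (by omega)]
      omega
    · rw [if_neg h1]
      by_cases h2 : j * M ≤ i ∧ i < j * M + M
      · rw [if_pos h2, if_pos (by omega)]
        omega
      · rw [if_neg h2, if_neg h1, if_neg h2]

/-- let all second coordinates of elements of `F` be less than `M`; `π j` does not move `(h, i)` with `h ∈ S`, and for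
`h ∉ S` it acts on the second coordinate by exchanging the intervals `[0, M)` and `[j * M, (j + 1) * M)` (an involution) -/
theorem exists_twin {H : Type} (S : Set H) (F : Finset (H × ℕ)) :
    ∃ π : ℕ → (H × ℕ ≃ H × ℕ), (∀ j x, (π j x).1 = x.1) ∧ (∀ j x, x.1 ∈ S → π j x = x) ∧
      ∀ i j, i ≠ j → ∀ x ∈ F, ∀ y ∈ F, x.1 ∉ S → π i x ≠ π j y := by
  classical
  let M : ℕ := (F.sup fun x => x.2) + 1
  have hM : ∀ x ∈ F, x.2 < M := fun x hx =>
    Nat.lt_succ_of_le (Finset.le_sup (f := fun x : H × ℕ => x.2) hx)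
  let f : ℕ → H × ℕ → H × ℕ := fun j x => if x.1 ∈ S then x else (x.1, twF M j x.2)
  have hf1 : ∀ j x, (f j x).1 = x.1 := by
    intro j x
    show (if x.1 ∈ S then x else (x.1, twF M j x.2)).1 = x.1
    split_ifs <;> rfl
  have hfS : ∀ j x, x.1 ∈ S → f j x = x := fun j x hx => if_pos hx
  have hfn : ∀ j x, x.1 ∉ S → f j x = (x.1, twF M j x.2) := fun j x hx => if_neg hx
  have hff : ∀ j x, f j (f j x) = x := by
    intro j x
    by_cases hx : x.1 ∈ S
    · rw [hfS j x hx, hfS j x hx]
    · rw [hfn j x hx, hfn j (x.1, twF M j x.2) hx]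
      show (x.1, twF M j (twF M j x.2)) = x
      rw [twF_twF]
  refine ⟨fun j => ⟨f j, f j, hff j, hff j⟩, fun j x => hf1 j x, fun j x hx => hfS j x hx, ?_⟩
  intro i j hij x hx y hy hxS h
  have h' : f i x = f j y := h
  have h1 : x.1 = y.1 := by rw [← hf1 i x, h', hf1 j y]
  rw [hfn i x hxS, hfn j y (by rw [← h1]; exact hxS)] at h'
  have h2 : twF M i x.2 = twF M j y.2 := congrArg Prod.snd h'
  unfold twF at h2
  rw [if_pos (hM x hx), if_pos (hM y hy)] at h2
  have hMx := hM x hx
  have hMy := hM y hy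
  rcases lt_or_gt_of_ne hij with h3 | h3
  · have h4 : (i + 1) * M ≤ j * M := Nat.mul_le_mul_right M h3
    have h5 : (i + 1) * M = i * M + M := by ring
    omega
  · have h4 : (j + 1) * M ≤ i * M := Nat.mul_le_mul_right M h3
    have h5 : (j + 1) * M = j * M + M := by ring
    omega

end PSI
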