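import Pool.Agent.H74.PSI.Basic

/-!
# TYP: types of conditions over a countable set
-/

set_option autoImplicit false
set_option linter.unusedSectionVars false

namespace PSI

variable {K Ω : Type}

/-- `p` and `p'` agree on `S`, below `β0` -/
structure AgOn [LT Ω] (β0 : Ω) (S : Set K) (p p' : Cond K Ω) : Prop where
  c : ∀ γ < β0, p'.st.c γ = p.st.c γ
  m : p'.st.m = p.st.m
  a : ∀ x ∈ S, (x ∈ p'.st.a ↔ x ∈ p.st.a)
  A : ∀ x ∈ S, p'.st.A x = p.st.A x
  s : ∀ x ∈ S, p'.st.s x = p.st.s x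

/-- the data which determine the type -/
def typD [LinearOrder Ω] (β0 : Ω) (S : Set K) (p : Cond K Ω) :
    Set (Set.Iio β0 × List ℕ) × ℕ × Set S × Set (S × Finset ℕ) × Set (S × List ℕ) :=
  ({x | p.st.c x.1.1 = x.2 ∧ x.2 ≠ []}, p.st.m, {x | x.1 ∈ p.st.a},
    {x | p.st.A x.1.1 = x.2 ∧ x.2 ≠ ∅}, {x | p.st.s x.1.1 = x.2 ∧ x.2 ≠ []})

theorem typ_eq {α β : Type} {f g : α → β} {e : β}
    (h : {x : α × β | f x.1 = x.2 ∧ x.2 ≠ e} = {x : α × β | g x.1 = x.2 ∧ x.2 ≠ e}) (a : α) :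
    g a = f a := by
  by_cases hf : f a = e
  · by_contra hne
    have h1 : g a ≠ e := fun h2 => hne (h2.trans hf.symm)
    have h2 : (a, g a) ∈ {x : α × β | f x.1 = x.2 ∧ x.2 ≠ e} := by
      rw [h]
      exact ⟨rfl, h1⟩
    exact hne h2.1.symm
  · have h2 : (a, f a) ∈ {x : α × β | g x.1 = x.2 ∧ x.2 ≠ e} := by
      rw [← h]
      exact ⟨rfl, hf⟩
    exact h2.1

theorem typ_iff [LinearOrder Ω] (β0 : Ω) (S : Set K) (p p' : Cond K Ω) :
    typD β0 S p = typD β0 S p' ↔ AgOn β0 S p p' := by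
  constructor
  · intro h
    have h1 := congrArg Prod.fst h
    have h2 := congrArg (fun x => x.2.1) h
    have h3 := congrArg (fun x => x.2.2.1) h
    have h4 := congrArg (fun x => x.2.2.2.1) h
    have h5 := congrArg (fun x => x.2.2.2.2) h
    refine ⟨fun γ hγ => ?_, h2.symm, fun x hx => ?_, fun x hx => ?_, fun x hx => ?_⟩
    · exact typ_eq (f := fun γ : Set.Iio β0 => p.st.c γ.1) (g := fun γ : Set.Iio β0 => p'.st.c γ.1)
        h1 ⟨γ, hγ⟩
    · have h6 : (⟨x, hx⟩ : S) ∈ {x : S | x.1 ∈ p'.st.a} ↔ (⟨x, hx⟩ : S) ∈ {x : S | x.1 ∈ p.st.a} := by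
        have h3' : {x : S | x.1 ∈ p.st.a} = {x : S | x.1 ∈ p'.st.a} := h3
        rw [h3']
      exact h6
    · exact typ_eq (f := fun x : S => p.st.A x.1) (g := fun x : S => p'.st.A x.1) h4 ⟨x, hx⟩
    · exact typ_eq (f := fun x : S => p.st.s x.1) (g := fun x : S => p'.st.s x.1) h5 ⟨x, hx⟩
  · intro h
    unfold typD
    refine Prod.ext ?_ (Prod.ext h.m.symm (Prod.ext ?_ (Prod.ext ?_ ?_)))
    · ext x
      show p.st.c x.1.1 = x.2 ∧ x.2 ≠ [] ↔ p'.st.c x.1.1 = x.2 ∧ x.2 ≠ []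
      rw [h.c x.1.1 x.1.2]
    · ext x
      exact (h.a x.1 x.2).symm
    · ext x
      show p.st.A x.1.1 = x.2 ∧ x.2 ≠ ∅ ↔ p'.st.A x.1.1 = x.2 ∧ x.2 ≠ ∅
      rw [h.A x.1.1 x.1.2]
    · ext x
      show p.st.s x.1.1 = x.2 ∧ x.2 ≠ [] ↔ p'.st.s x.1.1 = x.2 ∧ x.2 ≠ []
      rw [h.s x.1.1 x.1.2]

theorem typ_countable (α : Type) [Countable α] : {s : Set α | s.Finite}.Countable := by
  have h := Set.countable_ofPred_finite_subset (s := (Set.univ : Set α)) Set.countable_univ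
  refine h.mono ?_
  intro s hs
  exact ⟨hs, Set.subset_univ s⟩

theorem typ_fin {α β : Type} (f : α → β) (e : β) (h : {a | f a ≠ e}.Finite) :
    {x : α × β | f x.1 = x.2 ∧ x.2 ≠ e}.Finite := by
  refine (h.image fun a => (a, f a)).subset ?_
  rintro ⟨a, b⟩ ⟨h1, h2⟩
  have h1' : f a = b := h1
  subst h1'
  exact ⟨a, h2, rfl⟩

/-- there are only countably many types: `p ↦` (the finite set of the `(γ, c γ)` with `γ < β0`, `c γ ≠ []`; `m`; `a ∩ S`; the finite
sets of the `(x, A x)`, `(x, s x)`, `x ∈ a ∩ S`) has values in a countable type; for `x ∉ a` `A x = ∅`, `s x = []` by `SOk.out` -/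
theorem exists_type [LinearOrder Ω] [WellFoundedLT Ω] {G : PD K Ω} (β0 : Ω)
    (hβ : (Set.Iio β0).Countable) (S : Set K) (hS : S.Countable) :
    ∃ τ : Cond K Ω → ℕ, ∀ p p', Ps G ⊤ p → Ps G ⊤ p' → (τ p = τ p' ↔ AgOn β0 S p p') := by
  have i1 : Countable (Set.Iio β0) := hβ.to_subtype
  have i2 : Countable S := hS.to_subtype
  have hc : (typD β0 S '' {p | Ps G ⊤ p}).Countable := by
    have h1 := (typ_countable (Set.Iio β0 × List ℕ)).prod ((Set.countable_univ (α := ℕ)).prod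
      ((typ_countable S).prod ((typ_countable (S × Finset ℕ)).prod (typ_countable (S × List ℕ)))))
    refine h1.mono ?_
    rintro _ ⟨p, hp, rfl⟩
    have hp' : Ps G ⊤ p := hp
    refine ⟨?_, Set.mem_univ _, ?_, ?_, ?_⟩
    · refine typ_fin (fun γ : Set.Iio β0 => p.st.c γ.1) [] ?_
      exact Set.Finite.preimage (f := fun γ : Set.Iio β0 => γ.1) Subtype.val_injective.injOn hp'.st.fin
    · exact Set.Finite.preimage (f := fun x : S => x.1) Subtype.val_injective.injOn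
        p.st.a.finite_toSet
    · refine typ_fin (fun x : S => p.st.A x.1) ∅ ?_
      refine (Set.Finite.preimage (f := fun x : S => x.1) Subtype.val_injective.injOn
        p.st.a.finite_toSet).subset fun x hx => ?_
      by_contra hxa
      exact hx (hp'.st.out x.1 hxa).1
    · refine typ_fin (fun x : S => p.st.s x.1) [] ?_
      refine (Set.Finite.preimage (f := fun x : S => x.1) Subtype.val_injective.injOn
        p.st.a.finite_toSet).subset fun x hx => ?_
      by_contra hxa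
      exact hx (hp'.st.out x.1 hxa).2.1
  obtain ⟨f, hf⟩ := (Set.countable_iff_exists_injOn).1 hc
  refine ⟨fun p => f (typD β0 S p), fun p p' hp hp' => ?_⟩
  rw [← typ_iff]
  constructor
  · exact fun h => hf ⟨p, hp, rfl⟩ ⟨p', hp', rfl⟩ h
  · intro h
    show f (typD β0 S p) = f (typD β0 S p')
    rw [h]

end PSI
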