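import Pool.Agent.H74.PSI.Uni
import Pool.Agent.H74.PSI.Twa
import Pool.Agent.H74.PSI.Hsp
import Pool.Agent.H74.PSI.Twe
import Pool.Agent.H74.PSI.Typ
import Pool.Agent.H74.PSI.Codes

/-!
# HITA: a real which is possible for finitely many conditions of the same type (Lemma 6)

`R l ε` is a set of conditions which decide that the `l`-th bit of the real is `ε`.
-/

set_option autoImplicit false
set_option linter.unusedSectionVars false

namespace PSI

variable {Ω : Type} [LinearOrder Ω] [WellFoundedLT Ω]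

/-- permutations of the twins preserve the pair data -/
theorem inv_of_fst (C : Codes Ω) (π : C.K ≃ C.K) (h : ∀ x, (π x).1 = x.1) : Inv C.G π where
  cd x y := by simp [Codes.G, h]
  dl x y := by simp [Codes.G, h]
  nu x y := by simp [Codes.G, h]
  g x y := by simp [Codes.G, h]

/-- in `P*_β0` below `p` it is possible that the first `t` bits are those of `u` -/
def Poss {K : Type} (G : PD K Ω) (β0 : Ω) (R : ℕ → Bool → Set (Cond K Ω)) (p : Cond K Ω)
    (t : ℕ) (u : ℕ → Bool) : Prop :=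
  ∃ q, Ps G β0 q ∧ Le q p ∧ ∀ l < t, ∃ r ∈ R l (u l), Le q r

/-- the bits below `t` can be decided: induction on `t` -/
theorem exists_poss {K : Type} {G : PD K Ω} {β0 : Ω} {R : ℕ → Bool → Set (Cond K Ω)}
    (hR : ∀ l ε, ∀ r ∈ R l ε, Pl G β0 r)
    (hpre : ∀ l p, Ps G β0 p → ∃ q, Ps G β0 q ∧ Le q p ∧ ∃ ε, ∃ r ∈ R l ε, Le q r)
    {p : Cond K Ω} (hp : Ps G β0 p) (t : ℕ) : ∃ u, Poss G β0 R p t u := by
  induction t with
  | zero => exact ⟨fun _ => false, p, hp, le_refl hp, fun l hl => absurd hl (Nat.not_lt_zero l)⟩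
  | succ t ih =>
    obtain ⟨u, q, hq, hqp, hqR⟩ := ih
    obtain ⟨q', hq', hq'q, ε, r, hr, hqr⟩ := hpre t q hq
    refine ⟨Function.update u t ε, q', hq', le_trans hp hq'q hqp, fun l hl => ?_⟩
    by_cases hlt : l = t
    · subst hlt
      rw [Function.update_self]
      exact ⟨r, hr, hqr⟩
    · rw [Function.update_of_ne hlt]
      obtain ⟨r', hr', hqr'⟩ := hqR l (by omega)
      exact ⟨r', hr', le_trans (hR l _ r' hr').ps hq'q hqr'⟩

theorem hita_map_map_symm {K : Type} (π : K ≃ K) (p : Cond K Ω) : (p.map π.symm).map π = p := by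
  have h := map_symm_map π.symm p
  rwa [Equiv.symm_symm] at h

theorem hita_cmp (C : Codes Ω) {β0 : Ω} (S : Set C.H) (Fa : Finset C.K) (π : ℕ → (C.K ≃ C.K))
    (h1 : ∀ j x, (π j x).1 = x.1) (h2 : ∀ j x, x.1 ∈ S → π j x = x)
    (h3 : ∀ i j, i ≠ j → ∀ x ∈ Fa, ∀ y ∈ Fa, x.1 ∉ S → π i x ≠ π j y)
    (p q : Cond C.K Ω) (i j : ℕ) (hij : i = j → p = q) (hpa : p.st.a ⊆ Fa) (hqa : q.st.a ⊆ Fa)
    (hag : AgOn β0 (Prod.fst ⁻¹' S) p q) :
    Cmp ((cut (β0 : WithTop Ω) p).map (π i)) ((cut (β0 : WithTop Ω) q).map (π j)) := by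
  -- common indices are fixed
  have key : i ≠ j → ∀ x, x ∈ ((cut (β0 : WithTop Ω) p).map (π i)).st.a →
      x ∈ ((cut (β0 : WithTop Ω) q).map (π j)).st.a →
      x.1 ∈ S ∧ (π i).symm x = x ∧ (π j).symm x = x := by
    intro hne x hx hy
    rw [map_st] at hx hy
    have hx' : x ∈ p.st.a.map (π i).toEmbedding := hx
    have hy' : x ∈ q.st.a.map (π j).toEmbedding := hy
    obtain ⟨x', hx1, hx2⟩ := Finset.mem_map.1 hx'
    obtain ⟨y', hy1, hy2⟩ := Finset.mem_map.1 hy'
    have hx3 : π i x' = x := hx2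
    have hy3 : π j y' = x := hy2
    have hS : x'.1 ∈ S := by
      by_contra hS
      exact h3 i j hne x' (hpa hx1) y' (hqa hy1) hS (hx3.trans hy3.symm)
    have e1 : x' = x := by rw [← hx3, h2 i x' hS]
    have hS2 : y'.1 ∈ S := by
      have : y'.1 = x'.1 := by rw [← h1 j y', hy3, ← hx3, h1 i x']
      rw [this]
      exact hS
    have e2 : y' = x := by rw [← hy3, h2 j y' hS2]
    refine ⟨by rw [← e1]; exact hS, ?_, ?_⟩
    · rw [Equiv.symm_apply_eq, ← e1]
      exact (h2 i x' hS).symm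
    · rw [Equiv.symm_apply_eq, ← e2]
      exact (h2 j y' hS2).symm
  refine ⟨?_, fun x hx hy => ?_, fun x hx hy => ?_, fun γ _ _ => ?_⟩
  · rw [map_st, map_st]
    exact hag.m.symm
  · by_cases hne : i = j
    · rw [hij hne, hne]
    · obtain ⟨hS, e1, e2⟩ := key hne x hx hy
      rw [map_st, map_st]
      show p.st.A ((π i).symm x) = q.st.A ((π j).symm x)
      rw [e1, e2]
      exact (hag.A x hS).symm
  · by_cases hne : i = j
    · rw [hij hne, hne]
    · obtain ⟨hS, e1, e2⟩ := key hne x hx hy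
      rw [map_st, map_st]
      show p.st.s ((π i).symm x) = q.st.s ((π j).symm x)
      rw [e1, e2]
      exact (hag.s x hS).symm
  · rw [map_st, map_st]
    show (cutS (β0 : WithTop Ω) p.st).c γ = (cutS (β0 : WithTop Ω) q.st).c γ
    by_cases hγ : ((γ : Ω) : WithTop Ω) < β0
    · have e1 : (cutS (β0 : WithTop Ω) p.st).c γ = p.st.c γ := if_pos hγ
      have e2 : (cutS (β0 : WithTop Ω) q.st).c γ = q.st.c γ := if_pos hγ
      rw [e1, e2]
      exact (hag.c γ (WithTop.coe_lt_coe.1 hγ)).symm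
    · have e1 : (cutS (β0 : WithTop Ω) p.st).c γ = [] := if_neg hγ
      have e2 : (cutS (β0 : WithTop Ω) q.st).c γ = [] := if_neg hγ
      rw [e1, e2]

/-- Let `F` be a finite set of conditions of the poset which have pairwise the same type (`AgOn β0 (fst⁻¹ S)`), where `S` contains the
classes of the hereditary supports of the conditions in the `R l ε`. Then for every `t` there is `u` which is possible for all `p|β0`, `p ∈ F`.
Enumerate `F` as `p 0, .., p (N-1)`; let `π j` be as in `exists_twin` for `S` and the union of the `a` of the conditions. The conditions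
`p'_j = (cut β0 (p j)).map (π j)` are in `P*_β0` (`ps_cut`, `ps_map`, `inv_of_fst`) and pairwise `Cmp` (if `x = π i x' = π j y'`, `x' ∈ (p i).a`,
`y' ∈ (p j).a`, `i ≠ j`, then the class is in `S` by `exists_twin`, so `x = x' = y'`), let `w` be below all of them (`union`), `u` with `Poss w t u`
(`exists_poss`), `q` the witness. `Le q p'_j` (`le_trans`), so `q.map (π j).symm` is below `cut β0 (p j)` (`le_map_iff`, `map_symm_map`) and below the
conditions of `R l ε` above `q`, which are fixed by `π j` (`map_eq_self`). -/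
theorem poss_common (C : Codes Ω) {β0 : Ω} {R : ℕ → Bool → Set (Cond C.K Ω)}
    (hR : ∀ l ε, ∀ r ∈ R l ε, Pl C.G β0 r)
    (hpre : ∀ l p, Ps C.G β0 p → ∃ q, Ps C.G β0 q ∧ Le q p ∧ ∃ ε, ∃ r ∈ R l ε, Le q r)
    (S : Set C.H) (hS : ∀ l ε, ∀ r ∈ R l ε, ∀ x ∈ hsupp r, x.1 ∈ S)
    (F : Set (Cond C.K Ω)) (hF : F.Finite) (hF1 : ∀ p ∈ F, Ps C.G ⊤ p)
    (hF2 : ∀ p ∈ F, ∀ p' ∈ F, AgOn β0 (Prod.fst ⁻¹' S) p p') (t : ℕ) :
    ∃ u, ∀ p ∈ F, Poss C.G β0 R (cut β0 p) t u := by
  classical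
  rcases F.eq_empty_or_nonempty with hFe | hFne
  · exact ⟨fun _ => false, fun p hp => by rw [hFe] at hp; exact absurd hp (Set.notMem_empty p)⟩
  obtain ⟨idx, hidx⟩ := (Set.countable_iff_exists_injOn).1 hF.countable
  let Fa : Finset C.K := hF.toFinset.biUnion fun p => p.st.a
  have hFa : ∀ p ∈ F, p.st.a ⊆ Fa := fun p hp =>
    Finset.subset_biUnion_of_mem (fun p : Cond C.K Ω => p.st.a) (hF.mem_toFinset.2 hp)
  obtain ⟨π, h1, h2, h3⟩ := exists_twin S Fa
  have hinv : ∀ j, Inv C.G (π j) := fun j => inv_of_fst C (π j) (h1 j)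
  let p' : Cond C.K Ω → Cond C.K Ω := fun p => (cut (β0 : WithTop Ω) p).map (π (idx p))
  have hp' : ∀ p ∈ F, Ps C.G β0 (p' p) := fun p hp => ps_map (hinv _) (ps_cut le_top (hF1 p hp))
  obtain ⟨w, hw, hwp⟩ := union (β := (β0 : WithTop Ω)) hF.toFinset
    (by obtain ⟨p, hp⟩ := hFne; exact ⟨p, hF.mem_toFinset.2 hp⟩) p'
    (fun p hp => hp' p (hF.mem_toFinset.1 hp))
    (fun p hp q hq => hita_cmp C S Fa π h1 h2 h3 p q (idx p) (idx q)
      (fun h => hidx (hF.mem_toFinset.1 hp) (hF.mem_toFinset.1 hq) h)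
      (hFa p (hF.mem_toFinset.1 hp)) (hFa q (hF.mem_toFinset.1 hq))
      (hF2 p (hF.mem_toFinset.1 hp) q (hF.mem_toFinset.1 hq)))
  obtain ⟨u, q, hq, hqw, hqR⟩ := exists_poss hR hpre hw t
  refine ⟨u, fun p hp => ⟨q.map (π (idx p)).symm, ps_map (hinv _).symm hq, ?_, fun l hl => ?_⟩⟩
  · rw [← le_map_iff (π (idx p)), hita_map_map_symm]
    exact le_trans (hp' p hp) hqw (hwp p (hF.mem_toFinset.2 hp))
  · obtain ⟨r, hr, hqr⟩ := hqR l hl
    refine ⟨r, hr, ?_⟩
    have e : r.map (π (idx p)) = r :=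
      map_eq_self (π (idx p)) r (hR l _ r hr).ps fun x hx => h2 _ x (hS l _ r hr x hx)
    rw [← le_map_iff (π (idx p)), hita_map_map_symm, e]
    exact hqr

end PSI
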