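import Pool.Agent.H74.PSI.Basic

/-!
# LOC: locality of the order (Lemma 1 of /team-store/H74_PSI.md)
-/

set_option autoImplicit false
set_option linter.unusedSectionVars false

namespace PSI

variable {K Ω : Type} [LinearOrder Ω] [WellFoundedLT Ω] {G : PD K Ω}

/-- the pair is uncoded or its `dl` is less than `β` (in both directions) -/
def LowPair (G : PD K Ω) (β : WithTop Ω) (x y : K) : Prop :=
  (G.cd x y → ((G.dl x y : Ω) : WithTop Ω) < β) ∧ (G.cd y x → ((G.dl y x : Ω) : WithTop Ω) < β)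

/-- `q'` agrees with `q` (or is larger) on everything of level less than `β` -/
structure Agr (G : PD K Ω) (β : WithTop Ω) (q q' : Cond K Ω) : Prop where
  m : q'.st.m = q.st.m
  a : q'.st.a = q.st.a
  A : q'.st.A = q.st.A
  s : q'.st.s = q.st.s
  f : q'.st.f = q.st.f
  c : ∀ γ : Ω, (γ : WithTop Ω) < β → q'.st.c γ = q.st.c γ
  D : ∀ x y, s(x, y) ∈ q.st.D → LowPair G β x y → s(x, y) ∈ q'.st.D
  prom : ∀ r ∈ q.prom, (r.1 : WithTop Ω) < β → r ∈ q'.prom

theorem Agr.mono {β γ : WithTop Ω} (h : γ ≤ β) {q q' : Cond K Ω} (hq : Agr G β q q') :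
    Agr G γ q q' where
  m := hq.m
  a := hq.a
  A := hq.A
  s := hq.s
  f := hq.f
  c δ hδ := hq.c δ (hδ.trans_le h)
  D x y hxy hl := hq.D x y hxy ⟨fun h1 => (hl.1 h1).trans_le h, fun h1 => (hl.2 h1).trans_le h⟩
  prom r hr h1 := hq.prom r hr (h1.trans_le h)

/-- Lemma 1. Induction on `r` (`Cond.ind`), for all `β` simultaneously. Use `le_iff`. Stems: for `γ` with
`γ < β` the value `q'.c γ = q.c γ`; for the other `γ` `r.c γ = []` (`SOk.low`), which is a prefix of everything. `D`: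
the frozen pairs of `r` are coded with `dl < β` or uncoded (`Pl.low`; note that `s(x,y) = s(y,x)`), so they are in
`q'.D`; use `Sym2.ind` for the inclusion of the finsets. Promises `ρ ∈ r.prom`: `ρ.1 < β` (`Ps.prom`), so they are in `q'.prom`; for
new `n` we have `Le q (z n j)` and `Pl G ρ.1 (z n j)` (`Adm.pl`), so `Le q' (z n j)` by the induction hypothesis at level `ρ.1` with
`Agr.mono`. -/
theorem le_local {β : WithTop Ω} {r q q' : Cond K Ω} (hr : Pl G β r) (h : Le q r)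
    (ha : Agr G β q q') : Le q' r := by
  revert β q q'
  refine Cond.ind (C := fun r => ∀ {β : WithTop Ω} {q q' : Cond K Ω}, Pl G β r → Le q r →
    Agr G β q q' → Le q' r) ?_ r
  intro r ih β q q' hr h ha
  rw [le_iff] at h ⊢
  obtain ⟨h1, h2, h3⟩ := h
  have hc : ∀ γ, r.st.c γ <+: q'.st.c γ := by
    intro γ
    by_cases hγ : r.st.c γ = []
    · rw [hγ]
      exact List.nil_prefix
    · rw [ha.c γ (hr.ps.st.low γ hγ)]
      exact h1.c γ
  have hlow : ∀ x y, s(x, y) ∈ r.st.D → LowPair G β x y := by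
    intro x y hxy
    exact ⟨hr.low x y hxy, hr.low y x (by rw [Sym2.eq_swap]; exact hxy)⟩
  refine ⟨⟨hc, ?_, ?_, ?_, ?_, ?_, ?_, ?_, ?_⟩, ?_, ?_⟩
  · rw [ha.m]; exact h1.m
  · rw [ha.a]; exact h1.a
  · rw [ha.A]; exact h1.A
  · rw [ha.s]; exact h1.s
  · rw [ha.s]; exact h1.sf
  · rw [ha.f]; exact h1.f
  · intro e
    refine Sym2.ind (fun x y hxy => ?_) e
    exact ha.D x y (h1.D hxy) (hlow x y hxy)
  · rw [ha.A]; exact h1.fr
  · intro ρ hρ
    exact ha.prom ρ (h2 hρ) (hr.ps.prom ρ hρ).1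
  · intro ρ hρ n hn1 hn2
    have hρβ := (hr.ps.prom ρ hρ).1
    rw [ha.c ρ.1 hρβ] at hn2 ⊢
    obtain ⟨j, hj1, hj2⟩ := h3 ρ hρ n hn1 hn2
    exact ⟨j, ih ρ hρ n j ((hr.ps.prom ρ hρ).2.pl n j) hj1 (ha.mono hρβ.le), hj2⟩

end PSI
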