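import Pool.Agent.H74.PSI.Basic

/-!
# TWM: permutations of the indices act on the conditions
-/

set_option autoImplicit false
set_option linter.unusedSectionVars false

namespace PSI

variable {K Ω : Type}

open Classical in
/-- action of a permutation on the stems -/
noncomputable def Stem.map (π : K ≃ K) (s : Stem K Ω) : Stem K Ω where
  c := s.c
  m := s.m
  a := s.a.map π.toEmbedding
  A x := s.A (π.symm x)
  s x := s.s (π.symm x)
  f x := s.f (π.symm x)
  D := s.D.image (Sym2.map π)

/-- action of a permutation on the conditions -/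
noncomputable def Cond.map (π : K ≃ K) : Cond K Ω → Cond K Ω
  | .mk st N lv z v => .mk (st.map π) N lv (fun i n j => (z i n j).map π) v

/-- action on names -/
noncomputable def Name.map (π : K ≃ K) (z : Name K Ω) : Name K Ω :=
  (fun n j => (z.1 n j).map π, z.2)

/-- action on promises -/
noncomputable def promMap (π : K ≃ K) (r : Prom K Ω) : Prom K Ω := (r.1, Name.map π r.2)

@[simp] theorem map_st (π : K ≃ K) (p : Cond K Ω) : (p.map π).st = p.st.map π := by
  cases p
  rw [Cond.map.eq_1]
  rfl

theorem map_prom (π : K ≃ K) (p : Cond K Ω) : (p.map π).prom = promMap π '' p.prom := by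
  cases p with
  | mk st N lv z v =>
    rw [Cond.map.eq_1]
    ext r
    constructor
    · rintro ⟨i, rfl⟩
      exact ⟨_, ⟨i, rfl⟩, rfl⟩
    · rintro ⟨_, ⟨i, rfl⟩, rfl⟩
      exact ⟨i, rfl⟩

theorem stem_map_symm_map (π : K ≃ K) (s : Stem K Ω) : (s.map π).map π.symm = s := by
  classical
  cases s with
  | mk c m a A s f D =>
    unfold Stem.map
    have h1 : (a.map π.toEmbedding).map π.symm.toEmbedding = a := by
      rw [Finset.map_map]
      convert Finset.map_refl
      ext x
      simp
    have h2 : (D.image (Sym2.map π)).image (Sym2.map π.symm) = D := by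
      rw [Finset.image_image, ← Sym2.map_comp]
      have : (π.symm : K → K) ∘ π = id := by
        funext x
        simp
      rw [this, Sym2.map_id]
      exact Finset.image_id
    simp only [Equiv.symm_symm, Equiv.symm_apply_apply, h1, h2]

/-- `Cond.rec`, `Equiv.symm_symm` -/
theorem map_symm_map (π : K ≃ K) (p : Cond K Ω) : (p.map π).map π.symm = p := by
  induction p with
  | mk st N lv z v ih =>
    rw [Cond.map.eq_1, Cond.map.eq_1, stem_map_symm_map]
    simp only [ih]

theorem stem_map_mem_D (π : K ≃ K) (s : Stem K Ω) (x y : K) :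
    s(x, y) ∈ (s.map π).D ↔ s(π.symm x, π.symm y) ∈ s.D := by
  classical
  unfold Stem.map
  simp only [Finset.mem_image]
  constructor
  · rintro ⟨e, he, h⟩
    have h1 := congrArg (Sym2.map π.symm) h
    rw [Sym2.map_map, Sym2.map_mk] at h1
    have : (π.symm : K → K) ∘ π = id := by
      funext x
      simp
    rw [this, Sym2.map_id, id] at h1
    rw [← h1]
    exact he
  · intro h
    refine ⟨_, h, ?_⟩
    rw [Sym2.map_mk]
    simp

theorem stem_map_mem_a (π : K ≃ K) (s : Stem K Ω) (x : K) :
    x ∈ (s.map π).a ↔ π.symm x ∈ s.a := by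
  show x ∈ s.a.map π.toEmbedding ↔ _
  rw [Finset.mem_map]
  constructor
  · rintro ⟨y, hy, rfl⟩
    simpa using hy
  · intro h
    exact ⟨_, h, by simp⟩

theorem sle_map (π : K ≃ K) (q p : Stem K Ω) (h : SLe q p) : SLe (q.map π) (p.map π) where
  c := h.c
  m := h.m
  a := Finset.map_subset_map.2 h.a
  A x hx k hk := h.A _ ((stem_map_mem_a π p x).1 hx) k hk
  s x hx := h.s _ ((stem_map_mem_a π p x).1 hx)
  sf x hx := h.sf _ ((stem_map_mem_a π p x).1 hx)
  f x hx := h.f _ ((stem_map_mem_a π p x).1 hx)
  D := by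
    classical
    exact Finset.image_subset_image h.D
  fr x y hxy := h.fr _ _ ((stem_map_mem_D π p x y).1 hxy)

/-- both directions of `SLe` are checked with `x ↦ π x`; the converse follows from the same for `π.symm` -/
theorem sle_map_iff (π : K ≃ K) (q p : Stem K Ω) : SLe (q.map π) (p.map π) ↔ SLe q p := by
  constructor
  · intro h
    have h1 := sle_map π.symm _ _ h
    rwa [stem_map_symm_map, stem_map_symm_map] at h1
  · exact sle_map π q p

theorem promMap_injective (π : K ≃ K) : Function.Injective (promMap (Ω := Ω) π) := by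
  have h : Function.LeftInverse (promMap (Ω := Ω) π.symm) (promMap π) := by
    rintro ⟨γ, z, v⟩
    show (γ, (fun n j => ((z n j).map π).map π.symm), v) = _
    simp only [map_symm_map]
  exact h.injective

/-- induction on `p` (`Cond.ind`), `le_iff`, `sle_map_iff`; `promMap π` is injective (`map_symm_map`) -/
theorem le_map_iff (π : K ≃ K) (q p : Cond K Ω) : Le (q.map π) (p.map π) ↔ Le q p := by
  revert p
  refine Cond.ind ?_
  intro p ih
  rw [le_iff, le_iff, map_st, map_st, sle_map_iff, map_prom, map_prom,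
    Set.image_subset_image_iff (promMap_injective π), Set.forall_mem_image]
  refine and_congr Iff.rfl (and_congr Iff.rfl ?_)
  refine forall₂_congr fun r hr => forall_congr' fun n => forall₂_congr fun _ _ => ?_
  exact exists_congr fun j => and_congr (ih r hr n j) Iff.rfl

/-- the pair data are invariant under `π` -/
structure Inv (G : PD K Ω) (π : K ≃ K) : Prop where
  cd : ∀ x y, G.cd (π x) (π y) ↔ G.cd x y
  dl : ∀ x y, G.dl (π x) (π y) = G.dl x y
  nu : ∀ x y, G.nu (π x) (π y) = G.nu x y
  g : ∀ x y, G.g (π x) (π y) = G.g x y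

theorem Inv.symm {G : PD K Ω} {π : K ≃ K} (h : Inv G π) : Inv G π.symm where
  cd x y := by simpa using (h.cd (π.symm x) (π.symm y)).symm
  dl x y := by simpa using (h.dl (π.symm x) (π.symm y)).symm
  nu x y := by simpa using (h.nu (π.symm x) (π.symm y)).symm
  g x y := by simpa using (h.g (π.symm x) (π.symm y)).symm

theorem sok_map {G : PD K Ω} [LT Ω] {π : K ≃ K} (h : Inv G π) {β : WithTop Ω} {s : Stem K Ω}
    (hs : SOk G β s) : SOk G β (s.map π) where
  fin := hs.fin
  low := hs.low
  A x := hs.A _
  out x hx := hs.out _ (fun h1 => hx ((stem_map_mem_a π s x).2 h1))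
  D x y hxy := by
    obtain ⟨h1, h2, h3⟩ := hs.D _ _ ((stem_map_mem_D π s x y).1 hxy)
    exact ⟨fun h4 => h1 (by rw [h4]), (stem_map_mem_a π s x).2 h2, (stem_map_mem_a π s y).2 h3⟩
  T x y hxy hcd := by
    obtain ⟨k, hk1, hk2, hk3, hk4, hk5, hk6⟩ := hs.T _ _ ((stem_map_mem_D π s x y).1 hxy)
      ((h.symm.cd x y).2 hcd)
    rw [h.symm.g x y] at hk4 hk5
    rw [h.symm.dl x y, h.symm.nu x y] at hk6
    exact ⟨k, hk1, hk2, hk3, hk4, hk5, hk6⟩

end PSI
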