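import Mathlib

/-!
# ULT: ultrafilters of the extension as Boolean-valued finitely additive maps
-/

set_option autoImplicit false
set_option linter.unusedSectionVars false

namespace PSI

variable {B : Type} [CompleteBooleanAlgebra B] {X : Type}

/-- Boolean-valued possibility measures of total mass `a` -/
structure PoM (a : B) (w : Set X → B) : Prop where
  empty : w ∅ = ⊥
  univ : w Set.univ = a
  union : ∀ Y Z, w (Y ∪ Z) = w Y ⊔ w Z

/-- `h Z` is the Boolean value of `Z ∈ U` for an ultrafilter `U` -/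
structure BHom (a : B) (h : Set X → B) : Prop where
  empty : h ∅ = ⊥
  univ : h Set.univ = a
  union : ∀ Y Z, h (Y ∪ Z) = h Y ⊔ h Z
  inter : ∀ Y Z, h (Y ∩ Z) = h Y ⊓ h Z

theorem BHom.mono {a : B} {h : Set X → B} (hh : BHom a h) {Y Z : Set X} (hYZ : Y ⊆ Z) :
    h Y ≤ h Z := by
  rw [← Set.union_eq_self_of_subset_left hYZ, hh.union]
  exact le_sup_left

theorem BHom.le {a : B} {h : Set X → B} (hh : BHom a h) (Z : Set X) : h Z ≤ a := by
  rw [← hh.univ]
  exact hh.mono (Set.subset_univ Z)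

/-- `h Zᶜ = a ⊓ (h Z)ᶜ` -/
theorem BHom.compl {a : B} {h : Set X → B} (hh : BHom a h) (Z : Set X) :
    h Zᶜ = a ⊓ (h Z)ᶜ := by
  have h1 : h Zᶜ ⊓ h Z = ⊥ := by
    rw [← hh.inter, Set.compl_inter_self, hh.empty]
  have h2 : h Zᶜ ⊔ h Z = a := by
    rw [← hh.union, Set.compl_union_self, hh.univ]
  apply le_antisymm
  · exact le_inf (hh.le _) (le_compl_iff_disjoint_right.2 (disjoint_iff.2 h1))
  · rw [← h2, inf_sup_right, inf_compl_eq_bot, sup_bot_eq]
    exact inf_le_left

theorem PoM.mono {a : B} {h : Set X → B} (hh : PoM a h) {Y Z : Set X} (hYZ : Y ⊆ Z) :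
    h Y ≤ h Z := by
  rw [← Set.union_eq_self_of_subset_left hYZ, hh.union]
  exact le_sup_left

theorem ult_chain {a : B} (c : Set (Set X → B)) (hc : ∀ v ∈ c, PoM a v)
    (hch : ∀ v ∈ c, ∀ v' ∈ c, v ≤ v' ∨ v' ≤ v) (hne : c.Nonempty) :
    PoM a (fun Z => ⨅ v : c, v.1 Z) := by
  haveI : Nonempty c := hne.to_subtype
  refine ⟨?_, ?_, fun Y Z => ?_⟩
  · have h1 : ∀ v : c, v.1 ∅ = ⊥ := fun v => (hc v.1 v.2).empty
    simp_rw [h1]
    exact iInf_const
  · have h1 : ∀ v : c, v.1 Set.univ = a := fun v => (hc v.1 v.2).univ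
    simp_rw [h1]
    exact iInf_const
  · apply le_antisymm
    · rw [iInf_sup_eq]
      refine le_iInf fun v => ?_
      rw [sup_iInf_eq]
      refine le_iInf fun v' => ?_
      rcases hch v.1 v.2 v'.1 v'.2 with h | h
      · refine (iInf_le _ v).trans ?_
        rw [(hc v.1 v.2).union]
        exact sup_le_sup_left (h Z) _
      · refine (iInf_le _ v').trans ?_
        rw [(hc v'.1 v'.2).union]
        exact sup_le_sup_right (h Y) _
    · refine sup_le (le_iInf fun v => (iInf_le _ v).trans ?_) (le_iInf fun v => (iInf_le _ v).trans ?_)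
      · exact (hc v.1 v.2).mono Set.subset_union_left
      · exact (hc v.1 v.2).mono Set.subset_union_right

theorem ult_min {a : B} {h : Set X → B} (hh : PoM a h)
    (hmin : ∀ h' : Set X → B, PoM a h' → h' ≤ h → h ≤ h') : BHom a h := by
  have key : ∀ Y, h Yᶜ ⊓ h Y = ⊥ := by
    intro Y
    have hYa : h Y ≤ a := by
      rw [← hh.univ]
      exact hh.mono (Set.subset_univ Y)
    have hP : PoM a (fun Z => h (Z ∩ Y) ⊔ (h Z ⊓ (h Y)ᶜ)) := by
      refine ⟨?_, ?_, fun Z Z' => ?_⟩
      · simp only [Set.empty_inter, hh.empty, bot_inf_eq, sup_bot_eq]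
      · simp only [Set.univ_inter, hh.univ]
        rw [sup_inf_left, sup_compl_eq_top, inf_top_eq, sup_eq_right]
        exact hYa
      · simp only [Set.union_inter_distrib_right, hh.union, inf_sup_right]
        ac_rfl
    have h1 := hmin _ hP (fun Z => sup_le (hh.mono Set.inter_subset_left) inf_le_left) Yᶜ
    simp only [Set.compl_inter_self, hh.empty, bot_sup_eq] at h1
    have h2 : h Yᶜ ≤ (h Y)ᶜ := h1.trans inf_le_right
    exact disjoint_iff.1 (le_compl_iff_disjoint_right.1 h2)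
  refine ⟨hh.empty, hh.univ, hh.union, fun Y Z => ?_⟩
  apply le_antisymm
  · exact le_inf (hh.mono Set.inter_subset_left) (hh.mono Set.inter_subset_right)
  · have h1 : h Y = h (Y ∩ Z) ⊔ h (Y ∩ Zᶜ) := by
      rw [← hh.union, Set.inter_union_compl]
    have h2 : h (Y ∩ Zᶜ) ⊓ h Z = ⊥ := by
      rw [eq_bot_iff, ← key Z]
      exact inf_le_inf_right _ (hh.mono Set.inter_subset_right)
    rw [h1, inf_sup_right, h2, sup_bot_eq]
    exact inf_le_left

/-- Zorn's lemma (`zorn_le₀` or similar, for the reverse pointwise order) on the possibility measures of mass `a` below `w`: the infimum of a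
nonempty chain is one (for a chain `(w i ⊔ w' i)` the infimum of the suprema is the supremum of the infima: `⨅ i, (f i ⊔ g i) = (⨅ i, f i) ⊔ (⨅ i, g i)` for
directed decreasing families, `sup_iInf_eq`, `iInf_sup_eq`). A minimal one `h` is a homomorphism: for a set `Y` let
`h' Z = h (Z ∩ Y) ⊔ (h Z ⊓ (h Y)ᶜ)`; it is a possibility measure of mass `a` with `h' ≤ h`, so `h' = h`; for `Z = Yᶜ`: `h Yᶜ = h Yᶜ ⊓ (h Y)ᶜ`, so
`h Yᶜ ⊓ h Y = ⊥`; `inter` follows from this and `union`. -/
theorem exists_hom {a : B} {w : Set X → B} (hw : PoM a w) :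
    ∃ h : Set X → B, BHom a h ∧ ∀ Z, h Z ≤ w Z := by
  obtain ⟨m, hm1, hm2⟩ := zorn_le_nonempty₀ (α := (Set X → B)ᵒᵈ)
    {v | PoM a (OrderDual.ofDual v)} (by
      intro c hc hch y hy
      have h1 := ult_chain (a := a) {v : Set X → B | OrderDual.toDual v ∈ c} (fun v hv => hc hv)
        (fun v hv v' hv' => ?_) ⟨OrderDual.ofDual y, hy⟩
      · refine ⟨OrderDual.toDual (fun Z => ⨅ v : {v : Set X → B | OrderDual.toDual v ∈ c}, v.1 Z), h1,
          fun z hz => ?_⟩
        show (fun Z => ⨅ v : {v : Set X → B | OrderDual.toDual v ∈ c}, v.1 Z) ≤ OrderDual.ofDual z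
        intro Z
        exact iInf_le (fun v : {v : Set X → B | OrderDual.toDual v ∈ c} => v.1 Z)
          ⟨OrderDual.ofDual z, hz⟩
      · rcases hch.total hv hv' with h | h
        · exact Or.inr h
        · exact Or.inl h) (OrderDual.toDual w) hw
  refine ⟨OrderDual.ofDual m, ult_min hm2.prop fun h' hh' hle => ?_, fun Z => hm1 Z⟩
  exact hm2.le_of_ge (y := OrderDual.toDual h') hh' hle

end PSI
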