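import Pool.Agent.H74.PSI.Cor

/-!
# UNI: unions of compatible conditions (Lemma 4)
-/

set_option autoImplicit false
set_option linter.unusedSectionVars false

namespace PSI

variable {K Ω : Type} [LinearOrder Ω] [WellFoundedLT Ω] {G : PD K Ω}

/-- the indices `γ` of a condition: `c γ` is not empty or there is a promise of level `γ` -/
def lvs (p : Cond K Ω) : Set Ω := {γ | p.st.c γ ≠ [] ∨ ∃ r ∈ p.prom, r.1 = γ}

/-- sufficient condition for compatibility -/
structure Cmp (p q : Cond K Ω) : Prop where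
  m : p.st.m = q.st.m
  A : ∀ x, x ∈ p.st.a → x ∈ q.st.a → p.st.A x = q.st.A x
  s : ∀ x, x ∈ p.st.a → x ∈ q.st.a → p.st.s x = q.st.s x
  c : ∀ γ, γ ∈ lvs p → γ ∈ lvs q → p.st.c γ = q.st.c γ

open Classical in
/-- the stem of the union -/
noncomputable def UniStem {ι : Type} (I : Finset ι) (p : ι → Cond K Ω) (m : ℕ) : Stem K Ω where
  c γ := if h : ∃ i, i ∈ I ∧ (p i).st.c γ ≠ [] then (p h.choose).st.c γ else []
  m := m
  a := I.biUnion fun i => (p i).st.a
  A x := if h : ∃ i, i ∈ I ∧ x ∈ (p i).st.a then (p h.choose).st.A x else ∅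
  s x := if h : ∃ i, i ∈ I ∧ x ∈ (p i).st.a then (p h.choose).st.s x else []
  f x k := I.sup fun i => (p i).st.f x k
  D := I.biUnion fun i => (p i).st.D

theorem UniStem_c {ι : Type} {I : Finset ι} {p : ι → Cond K Ω} {m : ℕ}
    (h : ∀ i ∈ I, ∀ j ∈ I, Cmp (p i) (p j)) {i : ι} (hi : i ∈ I) {γ : Ω} (hγ : γ ∈ lvs (p i)) :
    (UniStem I p m).c γ = (p i).st.c γ := by
  by_cases hex : ∃ i, i ∈ I ∧ (p i).st.c γ ≠ []
  · have h1 : (UniStem I p m).c γ = (p hex.choose).st.c γ := by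
      simp only [UniStem, dif_pos hex]
    rw [h1]
    exact (h _ hex.choose_spec.1 i hi).c γ (Or.inl hex.choose_spec.2) hγ
  · have h1 : (UniStem I p m).c γ = [] := by
      simp only [UniStem, dif_neg hex]
    rw [h1]
    by_contra hne
    exact hex ⟨i, hi, fun h0 => hne h0.symm⟩

theorem UniStem_c_ne {ι : Type} {I : Finset ι} {p : ι → Cond K Ω} {m : ℕ} {γ : Ω}
    (hγ : (UniStem I p m).c γ ≠ []) : ∃ i, i ∈ I ∧ (p i).st.c γ ≠ [] := by
  by_contra hex
  exact hγ (by simp only [UniStem, dif_neg hex])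

theorem UniStem_A {ι : Type} {I : Finset ι} {p : ι → Cond K Ω} {m : ℕ}
    (h : ∀ i ∈ I, ∀ j ∈ I, Cmp (p i) (p j)) {i : ι} (hi : i ∈ I) {x : K} (hx : x ∈ (p i).st.a) :
    (UniStem I p m).A x = (p i).st.A x := by
  have hex : ∃ i, i ∈ I ∧ x ∈ (p i).st.a := ⟨i, hi, hx⟩
  have h1 : (UniStem I p m).A x = (p hex.choose).st.A x := by
    simp only [UniStem, dif_pos hex]
  rw [h1]
  exact (h _ hex.choose_spec.1 i hi).A x hex.choose_spec.2 hx

theorem UniStem_s {ι : Type} {I : Finset ι} {p : ι → Cond K Ω} {m : ℕ}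
    (h : ∀ i ∈ I, ∀ j ∈ I, Cmp (p i) (p j)) {i : ι} (hi : i ∈ I) {x : K} (hx : x ∈ (p i).st.a) :
    (UniStem I p m).s x = (p i).st.s x := by
  have hex : ∃ i, i ∈ I ∧ x ∈ (p i).st.a := ⟨i, hi, hx⟩
  have h1 : (UniStem I p m).s x = (p hex.choose).st.s x := by
    simp only [UniStem, dif_pos hex]
  rw [h1]
  exact (h _ hex.choose_spec.1 i hi).s x hex.choose_spec.2 hx

theorem UniStem_mem_a {ι : Type} {I : Finset ι} {p : ι → Cond K Ω} {m : ℕ} {x : K} :
    x ∈ (UniStem I p m).a ↔ ∃ i ∈ I, x ∈ (p i).st.a := by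
  simp only [UniStem, Finset.mem_biUnion]

theorem UniStem_mem_D {ι : Type} {I : Finset ι} {p : ι → Cond K Ω} {m : ℕ} {e : Sym2 K} :
    e ∈ (UniStem I p m).D ↔ ∃ i ∈ I, e ∈ (p i).st.D := by
  simp only [UniStem, Finset.mem_biUnion]

theorem UniStem_f {ι : Type} {I : Finset ι} {p : ι → Cond K Ω} {m : ℕ} {i : ι} (hi : i ∈ I)
    (x : K) (k : ℕ) : (p i).st.f x k ≤ (UniStem I p m).f x k :=
  Finset.le_sup (f := fun i => (p i).st.f x k) hi

/-- finitely many pairwise `Cmp` conditions have a common extension: `w.c γ = (p i).c γ` for any `i ∈ I` with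
`(p i).c γ ≠ []` (and `[]` if there is none), `w.m` the common `m`, `w.a` the union, `w.A x`, `w.s x` those of any `p i` with `x ∈ (p i).a`,
`w.f x k` = the supremum (`Finset.sup`) of the `(p i).f x k` over the `i ∈ I`, `D` and `prom` the unions. `TReq` for a frozen pair of `p i`: same `k`.
`Le w (p i)`: `w.c γ = (p i).c γ` for all `γ ∈ lvs (p i)`, so there are no new `n` for promises of `p i`. -/
theorem union {β : WithTop Ω} {ι : Type} (I : Finset ι) (hI : I.Nonempty) (p : ι → Cond K Ω)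
    (hp : ∀ i ∈ I, Ps G β (p i)) (h : ∀ i ∈ I, ∀ j ∈ I, Cmp (p i) (p j)) :
    ∃ w, Ps G β w ∧ ∀ i ∈ I, Le w (p i) := by
  obtain ⟨i0, hi0⟩ := hI
  have hm : ∀ i ∈ I, (p i).st.m = (p i0).st.m := fun i hi => (h i hi i0 hi0).m
  have hfin : (⋃ i ∈ I, (p i).prom).Finite :=
    Set.Finite.biUnion I.finite_toSet fun i _ => (p i).prom_finite
  refine ⟨mkc (UniStem I p (p i0).st.m) (⋃ i ∈ I, (p i).prom) hfin, ⟨?_, ?_⟩, ?_⟩
  · rw [mkc_st]
    refine ⟨?_, ?_, ?_, ?_, ?_, ?_⟩
    · refine (Set.Finite.biUnion I.finite_toSet fun i hi => (hp i hi).st.fin).subset ?_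
      intro γ hγ
      obtain ⟨i, hi, hne⟩ := UniStem_c_ne hγ
      exact Set.mem_biUnion (x := i) hi hne
    · intro γ hγ
      obtain ⟨i, hi, hne⟩ := UniStem_c_ne hγ
      exact (hp i hi).st.low γ hne
    · intro x
      by_cases hx : x ∈ (UniStem I p (p i0).st.m).a
      · obtain ⟨i, hi, hxi⟩ := UniStem_mem_a.1 hx
        rw [UniStem_A h hi hxi]
        have := (hp i hi).st.A x
        rw [hm i hi] at this
        exact this
      · have hex : ¬ ∃ i, i ∈ I ∧ x ∈ (p i).st.a := fun ⟨i, hi, hxi⟩ =>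
          hx (UniStem_mem_a.2 ⟨i, hi, hxi⟩)
        have h1 : (UniStem I p (p i0).st.m).A x = ∅ := by
          simp only [UniStem, dif_neg hex]
        rw [h1]
        exact Finset.empty_subset _
    · intro x hx
      have hex : ¬ ∃ i, i ∈ I ∧ x ∈ (p i).st.a := fun ⟨i, hi, hxi⟩ =>
        hx (UniStem_mem_a.2 ⟨i, hi, hxi⟩)
      refine ⟨?_, ?_, ?_⟩
      · simp only [UniStem, dif_neg hex]
      · simp only [UniStem, dif_neg hex]
      · funext k
        refine Nat.le_zero.1 ?_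
        refine Finset.sup_le fun i hi => ?_
        have := ((hp i hi).st.out x fun hxi => hex ⟨i, hi, hxi⟩).2.2
        rw [this]
    · intro x y hxy
      obtain ⟨i, hi, hxi⟩ := UniStem_mem_D.1 hxy
      obtain ⟨h1, h2, h3⟩ := (hp i hi).st.D x y hxi
      exact ⟨h1, UniStem_mem_a.2 ⟨i, hi, h2⟩, UniStem_mem_a.2 ⟨i, hi, h3⟩⟩
    · intro x y hxy hcd
      obtain ⟨i, hi, hxi⟩ := UniStem_mem_D.1 hxy
      obtain ⟨h1, h2, h3⟩ := (hp i hi).st.D x y hxi
      obtain ⟨k, hk1, hk2, hk3, hk4, hk5, hk6⟩ := (hp i hi).st.T x y hxi hcd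
      refine ⟨k, ?_, ?_, hk3, ?_, ?_, ?_⟩
      · rw [UniStem_A h hi h2]; exact hk1
      · rw [UniStem_A h hi h3]; exact hk2
      · rw [UniStem_s h hi h3]; exact hk4
      · rw [UniStem_s h hi h3]
        exact fun j hj => (hk5 j hj).trans (UniStem_f hi y j)
      · intro hlt
        obtain ⟨h4, h5⟩ := hk6 hlt
        have hmem : G.dl x y ∈ lvs (p i) := by
          refine Or.inl fun h0 => ?_
          rw [h0] at h4
          simp at h4
        rw [UniStem_c h hi hmem]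
        exact ⟨h4, h5⟩
  · intro r hr
    rw [mkc_prom] at hr
    obtain ⟨i, hi, hri⟩ := Set.mem_iUnion₂.1 hr
    exact (hp i hi).prom r hri
  · intro i hi
    rw [le_iff, mkc_st, mkc_prom]
    refine ⟨⟨?_, ?_, ?_, ?_, ?_, ?_, ?_, ?_, ?_⟩, ?_, ?_⟩
    · intro γ
      by_cases h0 : (p i).st.c γ = []
      · rw [h0]; exact List.nil_prefix
      · rw [UniStem_c h hi (Or.inl h0)]
    · exact (hm i hi).le
    · exact fun x hx => UniStem_mem_a.2 ⟨i, hi, hx⟩
    · intro x hx k _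
      rw [UniStem_A h hi hx]
    · intro x hx
      rw [UniStem_s h hi hx]
    · intro x hx j h1 h2
      rw [UniStem_s h hi hx] at h2
      exact absurd h2 (not_lt.2 h1)
    · exact fun x _ j => UniStem_f hi x j
    · exact fun e he => UniStem_mem_D.2 ⟨i, hi, he⟩
    · intro x y hxy k hk hkx _
      have h2 := ((hp i hi).st.D x y hxy).2.1
      rw [UniStem_A h hi h2] at hkx
      exact absurd (Finset.mem_range.1 ((hp i hi).st.A x hkx)) (not_lt.2 hk)
    · exact fun r hr => Set.mem_iUnion₂.2 ⟨i, hi, hr⟩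
    · intro r hr n h1 h2
      rw [UniStem_c h hi (Or.inr ⟨r, hr, rfl⟩)] at h2
      exact absurd h2 (not_lt.2 h1)

/-- two conditions -/
theorem union2 {β : WithTop Ω} {p q : Cond K Ω} (hp : Ps G β p) (hq : Ps G β q)
    (h : Cmp p q) : ∃ w, Ps G β w ∧ Le w p ∧ Le w q := by
  have hself : ∀ p : Cond K Ω, Cmp p p := fun p => ⟨rfl, fun _ _ _ => rfl, fun _ _ _ => rfl, fun _ _ _ => rfl⟩
  have hsymm : Cmp q p := ⟨h.m.symm, fun x h1 h2 => (h.A x h2 h1).symm,
    fun x h1 h2 => (h.s x h2 h1).symm, fun γ h1 h2 => (h.c γ h2 h1).symm⟩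
  obtain ⟨w, hw, hle⟩ := union (G := G) (β := β) (Finset.univ : Finset Bool) ⟨true, Finset.mem_univ _⟩
    (fun b => if b then p else q)
    (by intro b _; cases b <;> simpa using by assumption)
    (by
      intro b _ b' _
      cases b <;> cases b' <;> simp
      · exact hself q
      · exact hsymm
      · exact h
      · exact hself p)
  exact ⟨w, hw, by simpa using hle true (Finset.mem_univ _), by simpa using hle false (Finset.mem_univ _)⟩

end PSI
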